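import Pool.Agent.H13.K2S.Skel

/-!
# Plan B: labels

The passive coordinate is `i₁`. Graphs `x i₁ = G (base)` are given by polynomials in `Fin m`
variables; the variable `i₁` stands for the time, the other variables are the other coordinates.
All events are hereditary in the sense of `Pool.K2S.Hered`.
-/

set_option autoImplicit false

namespace Pool.PB

open Finset Real MvPolynomial
open Pool.Agent.H49.Ent Pool.Agent.H32.Dense Pool.STK Pool.KA Pool.KSAT Pool.K2S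

variable {m J : ℕ}

/-- The base point: the position, with the time in the slot `i₁`. -/
noncomputable def bp (F : Fam m J) (i₁ : Fin m) (ω : F.Ω) : Fin m → ℝ :=
  Function.update (F.x ω) i₁ (F.t ω)

/-- The point of resolution `r`, with the exact time and the side information; `Fam.pt` is the
case `r = J`. -/
noncomputable def ptr (F : Fam m J) (r : ℕ) (ω : F.Ω) : (Fin m → ℤ) × (ℕ × F.ζ) :=
  (F.X r ω, F.W ω)

theorem ptr_J (F : Fam m J) : ptr F J = Fam.pt F := rfl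

/-- **Polynomial labels.** On `A` there are polynomials `G` (functions of the point of resolution
`r`) and `H` (functions of the line and of the window of length `2 ^ (-w)`) of degree at most `K`,
such that the sample is on the graph of `G`, and `G` and `H` agree on the ball of radius `2 ^ (-a)`
around the sample, all up to `2 ^ (-P)`. Balls are the case `a = w`, tubes `w ≤ a`. -/
def Lab (F : Fam m J) (i₁ : Fin m) (r K a w P : ℕ) (A : F.Ω → Prop) : Prop :=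
  ∃ (G : (Fin m → ℤ) × (ℕ × F.ζ) → MvPolynomial (Fin m) ℝ)
    (H : ((Fin m → ℝ) × (Fin m → ℝ)) × F.ζ × ℕ → MvPolynomial (Fin m) ℝ),
    (∀ y, (G y).totalDegree ≤ K) ∧ (∀ s, (H s).totalDegree ≤ K) ∧ ∀ ω, A ω →
      |F.x ω i₁ - eval (bp F i₁ ω) (G (ptr F r ω))| ≤ 1 / 2 ^ P ∧
      ∀ b : Fin m → ℝ, (∀ j, |b j - bp F i₁ ω j| ≤ 1 / 2 ^ a) →
        (∀ j, |eval b (pderiv j (G (ptr F r ω)))| ≤ 2 * m) ∧
        |eval b (G (ptr F r ω)) - eval b (H (slam F w ω))| ≤ 1 / 2 ^ P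

/-- **Closed labels** (without polynomials): a function `z` of the point of resolution `r` which is
a function of the line and of the window; given the label, the time and the other coordinates, the
coordinate `i₁` is in one of `B` intervals of length `2 ^ (1 - P)`. -/
def Cls (F : Fam m J) (i₁ : Fin m) (r B w P : ℕ) (A : F.Ω → Prop) : Prop :=
  ∃ (V : Type) (z : (Fin m → ℤ) × (ℕ × F.ζ) → V)
    (z' : ((Fin m → ℝ) × (Fin m → ℝ)) × F.ζ × ℕ → V)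
    (f : V → ℕ × F.ζ → (Fin m → ℤ) → Fin B → ℝ), ∀ ω, A ω →
      z (ptr F r ω) = z' (slam F w ω) ∧
      ∃ l : Fin B, |F.x ω i₁ -
        f (z (ptr F r ω)) (F.W ω) (Function.update (F.X r ω) i₁ 0) l| ≤ 1 / 2 ^ P

/-- At each point the directions lie within `ρ` of an affine `j`-plane. -/
def PlU {Ω U : Type} (j : ℕ) (ρ : ℝ) (pt : Ω → U) (d : Ω → Fin m → ℝ) : (Ω → Prop) → Prop :=
  Fn d pt (fun D (s : (Fin m → ℝ) × (Fin j → Fin m → ℝ)) =>
    ∃ c : Fin j → ℝ, ∀ i, |D i - s.1 i - ∑ l, c l * s.2 l i| ≤ ρ)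

/-- **Spread fans** at the scale `2 ^ (-g J)`: the directions of an event of relative probability
at least `exp (-ψ J)` are not within `2 ^ (-g J)` of affine `j`-planes. -/
def Sp (F : Fam m J) (j : ℕ) (ψ g : ℝ) (A : F.Ω → Prop) : Prop :=
  ∀ B : F.Ω → Prop, Sub B A → Real.exp (-(ψ * J)) * Pe F.p A ≤ Pe F.p B →
    ¬ PlU j (1 / 2 ^ ⌊g * J⌋₊) (Fam.pt F) F.d B

/-- **The chart**: the fans lie within `2 ^ (-h)` of hyperplanes which are graphs over the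
coordinates different from `i₁`, with slopes at most `1`. -/
def Ch (F : Fam m J) (i₁ : Fin m) (h : ℕ) (A : F.Ω → Prop) : Prop :=
  ∃ (n : (Fin m → ℤ) × (ℕ × F.ζ) → ℝ) (s : (Fin m → ℤ) × (ℕ × F.ζ) → Fin m → ℝ), ∀ ω, A ω →
    s (Fam.pt F ω) i₁ = 0 ∧ (∀ j, |s (Fam.pt F ω) j| ≤ 1) ∧
      |F.d ω i₁ - n (Fam.pt F ω) - ∑ j, s (Fam.pt F ω) j * F.d ω j| ≤ 1 / 2 ^ h

/-- The rows `(P₁, P₂]` are not full: at least the proportion `c` of one dimension is missing. -/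
def Zm (F : Fam m J) (c : ℝ) (P₁ P₂ : ℕ) (A : F.Ω → Prop) : Prop :=
  CH (Pool.Agent.H49.Ent.cond F.p A True) (F.X P₂) (fun ω => (F.X P₁ ω, F.W ω)) ≤
    (m - c) * (((P₂ : ℝ) - P₁) * Real.log 2)

/-- The ball label of class `K` at the mesh points: visible at the resolution `ρ / N`, window
`i / N`, precision `p / N`. -/
def Bl (F : Fam m J) (i₁ : Fin m) (N K ρ i p : ℕ) (A : F.Ω → Prop) : Prop :=
  Lab F i₁ (ρ * (J / N)) K (i * (J / N)) (i * (J / N)) (p * (J / N)) A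

/-! ### Elementary facts -/

theorem Lab.hered (F : Fam m J) (i₁ : Fin m) (r K a w P : ℕ) : Hered (Lab F i₁ r K a w P) := by
  rintro A B hB ⟨G, H, h1, h2, h3⟩
  exact ⟨G, H, h1, h2, fun ω hω => h3 ω (hB ω hω)⟩

theorem Cls.hered (F : Fam m J) (i₁ : Fin m) (r B w P : ℕ) : Hered (Cls F i₁ r B w P) := by
  rintro A A' hB ⟨V, z, z', f, h⟩
  exact ⟨V, z, z', f, fun ω hω => h ω (hB ω hω)⟩

theorem PlU.hered {Ω U : Type} (j : ℕ) (ρ : ℝ) (pt : Ω → U) (d : Ω → Fin m → ℝ) :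
    Hered (PlU j ρ pt d) := Fn.hered _ _ _

theorem Ch.hered (F : Fam m J) (i₁ : Fin m) (h : ℕ) : Hered (Ch F i₁ h) := by
  rintro A B hB ⟨n, s, h1⟩
  exact ⟨n, s, fun ω hω => h1 ω (hB ω hω)⟩

theorem Bl.hered (F : Fam m J) (i₁ : Fin m) (N K ρ i p : ℕ) : Hered (Bl F i₁ N K ρ i p) :=
  Lab.hered _ _ _ _ _ _ _

/-- The window of length `2 ^ (-w)` is a function of the window of length `2 ^ (-w')`. -/
theorem slam_coarse (F : Fam m J) {w w' : ℕ} (h : w ≤ w') (h' : w' ≤ J) (ω : F.Ω) :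
    slam F w ω = ((slam F w' ω).1, (slam F w' ω).2.1, (slam F w' ω).2.2 / 2 ^ (w' - w)) := by
  have h1 : F.T ω / 2 ^ (J - w) = F.T ω / 2 ^ (J - w') / 2 ^ (w' - w) := by
    rw [Nat.div_div_eq_div_mul, ← pow_add]
    congr 2
    omega
  unfold slam Fam.T1
  simp only
  rw [h1]

/-- The point of resolution `r` is a function of the point of resolution `r'`. -/
theorem ptr_coarse (F : Fam m J) {r r' : ℕ} (h : r ≤ r') :
    ∃ φ : (Fin m → ℤ) × (ℕ × F.ζ) → (Fin m → ℤ) × (ℕ × F.ζ), ∀ ω, ptr F r ω = φ (ptr F r' ω) := by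
  refine ⟨fun y => (fun i => y.1 i / 2 ^ (r' - r), y.2), fun ω => ?_⟩
  unfold ptr
  refine Prod.ext ?_ rfl
  funext i
  have h1 : (2 : ℝ) ^ r * F.x ω i = (2 ^ r' * F.x ω i) / ((2 ^ (r' - r) : ℕ) : ℝ) := by
    have : (2 : ℝ) ^ r' = 2 ^ r * 2 ^ (r' - r) := by
      rw [← pow_add]; congr 1; omega
    rw [this]
    push_cast
    field_simp
  change ⌊(2 : ℝ) ^ r * F.x ω i⌋ = ⌊(2 : ℝ) ^ r' * F.x ω i⌋ / 2 ^ (r' - r)
  rw [h1, Int.floor_div_natCast]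
  push_cast
  rfl

theorem inv_mono {P P' : ℕ} (h : P' ≤ P) : (1 : ℝ) / 2 ^ P ≤ 1 / 2 ^ P' :=
  one_div_le_one_div_of_le (by positivity) (pow_le_pow_right₀ (by norm_num) h)

/-- Monotonicity of the labels in all parameters. -/
theorem Lab.mono {F : Fam m J} {i₁ : Fin m} {r r' K K' a a' w w' P P' : ℕ} {A : F.Ω → Prop}
    (hr : r ≤ r') (hK : K ≤ K') (ha : a ≤ a') (hw : w ≤ w') (hw' : w' ≤ J) (hP : P' ≤ P)
    (h : Lab F i₁ r K a w P A) : Lab F i₁ r' K' a' w' P' A := by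
  obtain ⟨G, H, h1, h2, h3⟩ := h
  obtain ⟨φ, hφ⟩ := ptr_coarse F hr
  refine ⟨fun y => G (φ y), fun s => H (s.1, s.2.1, s.2.2 / 2 ^ (w' - w)),
    fun y => (h1 _).trans hK, fun s => (h2 _).trans hK, fun ω hω => ?_⟩
  obtain ⟨h4, h5⟩ := h3 ω hω
  rw [hφ ω] at h4 h5
  rw [slam_coarse F hw hw' ω] at h5
  refine ⟨h4.trans (inv_mono hP), fun b hb => ?_⟩
  obtain ⟨h6, h7⟩ := h5 b fun j => (hb j).trans (inv_mono ha)
  exact ⟨h6, h7.trans (inv_mono hP)⟩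

/-- Monotonicity of the ball labels. -/
theorem Bl.mono {F : Fam m J} {i₁ : Fin m} {N K K' ρ ρ' i i' p p' : ℕ} {A : F.Ω → Prop}
    (hρ : ρ ≤ ρ') (hK : K ≤ K') (hi : i ≤ i') (hi' : i' ≤ N) (hp : p' ≤ p)
    (h : Bl F i₁ N K ρ i p A) : Bl F i₁ N K' ρ' i' p' A := by
  refine Lab.mono (Nat.mul_le_mul_right _ hρ) hK (Nat.mul_le_mul_right _ hi) (Nat.mul_le_mul_right _ hi) ?_
    (Nat.mul_le_mul_right _ hp) h
  calc i' * (J / N) ≤ N * (J / N) := Nat.mul_le_mul_right _ hi'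
    _ ≤ J := Nat.mul_div_le J N

theorem PlU.mono {Ω U : Type} {j : ℕ} {ρ ρ' : ℝ} {pt : Ω → U} {d : Ω → Fin m → ℝ} {A : Ω → Prop}
    (h : ρ ≤ ρ') (H : PlU j ρ pt d A) : PlU j ρ' pt d A := by
  obtain ⟨ζ, hζ⟩ := H
  refine ⟨ζ, fun ω hω => ?_⟩
  obtain ⟨c, hc⟩ := hζ ω hω
  exact ⟨c, fun i => (hc i).trans h⟩

theorem Sp.mono {F : Fam m J} {j : ℕ} {ψ ψ' g g' : ℝ} {A : F.Ω → Prop} (hψ : ψ' ≤ ψ)
    (hg : g ≤ g') (h : Sp F j ψ g A) : Sp F j ψ' g' A := by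
  intro B hB hP hB'
  have hJ : (0 : ℝ) ≤ J := Nat.cast_nonneg J
  refine h B hB (le_trans ?_ hP) (hB'.mono (inv_mono ?_))
  · refine mul_le_mul_of_nonneg_right (Real.exp_le_exp.2 ?_) (Pe_nonneg F.isLaw A)
    have : ψ' * (J : ℝ) ≤ ψ * J := mul_le_mul_of_nonneg_right hψ hJ
    linarith
  · exact Nat.floor_le_floor (mul_le_mul_of_nonneg_right hg hJ)

/-- Spread fans on a smaller event. -/
theorem Sp.sub {F : Fam m J} {j : ℕ} {ψ δ g : ℝ} {A A' : F.Ω → Prop}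
    (hA : Sub A' A) (hP : Real.exp (-(δ * J)) * Pe F.p A ≤ Pe F.p A')
    (h : Sp F j ψ g A) : Sp F j (ψ - δ) g A' := by
  intro B hB hPB
  refine h B (hB.trans hA) (le_trans ?_ hPB)
  calc Real.exp (-(ψ * J)) * Pe F.p A
      = Real.exp (-((ψ - δ) * J)) * (Real.exp (-(δ * J)) * Pe F.p A) := by
        rw [← mul_assoc, ← Real.exp_add]
        congr 2
        ring
    _ ≤ _ := mul_le_mul_of_nonneg_left hP (Real.exp_pos _).le

theorem Ch.mono {F : Fam m J} {i₁ : Fin m} {h h' : ℕ} {A : F.Ω → Prop} (hh : h' ≤ h)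
    (H : Ch F i₁ h A) : Ch F i₁ h' A := by
  obtain ⟨n, s, h1⟩ := H
  exact ⟨n, s, fun ω hω => ⟨(h1 ω hω).1, (h1 ω hω).2.1, (h1 ω hω).2.2.trans (inv_mono hh)⟩⟩

/-- **The trivial label**: on a window of length `2 ^ (-w)` the position is constant up to
`2 ^ (-w)`. -/
theorem Lab.trivial {F : Fam m J} {i₁ : Fin m} {r K a w P : ℕ} {A : F.Ω → Prop}
    (hP : P + 1 ≤ w) (hPr : P + 1 ≤ r) (hw : w ≤ J) : Lab F i₁ r K a w P A := by
  have hm : (0 : ℝ) ≤ 2 * m := by positivity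
  refine ⟨fun y => C ((y.1 i₁ : ℝ) / 2 ^ r),
    fun s => C (s.1.1 i₁ + (s.2.2 : ℝ) / 2 ^ w * s.1.2 i₁), fun y => ?_, fun s => ?_,
    fun ω _ => ?_⟩
  · rw [totalDegree_C]; exact Nat.zero_le _
  · rw [totalDegree_C]; exact Nat.zero_le _
  have hr0 : (0 : ℝ) < 2 ^ r := by positivity
  have e1 : (1 : ℝ) / 2 ^ r ≤ 1 / 2 ^ (P + 1) := inv_mono hPr
  have e2 : (1 : ℝ) / 2 ^ w ≤ 1 / 2 ^ (P + 1) := inv_mono hP
  have e3 : (1 : ℝ) / 2 ^ (P + 1) = 1 / 2 ^ P / 2 := by rw [pow_succ]; field_simp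
  have e4 : (0 : ℝ) < 1 / 2 ^ P := by positivity
  have h1 : |F.x ω i₁ - ((F.X r ω i₁ : ℤ) : ℝ) / 2 ^ r| ≤ 1 / 2 ^ r := by
    have a1 := Int.floor_le ((2 : ℝ) ^ r * F.x ω i₁)
    have a2 := Int.lt_floor_add_one ((2 : ℝ) ^ r * F.x ω i₁)
    have e : F.x ω i₁ - ((F.X r ω i₁ : ℤ) : ℝ) / 2 ^ r =
        (2 ^ r * F.x ω i₁ - ((⌊(2 : ℝ) ^ r * F.x ω i₁⌋ : ℤ) : ℝ)) / 2 ^ r := by
      change F.x ω i₁ - ((⌊(2 : ℝ) ^ r * F.x ω i₁⌋ : ℤ) : ℝ) / 2 ^ r = _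
      field_simp
    rw [e, abs_div, abs_of_pos hr0]
    refine div_le_div_of_nonneg_right ?_ hr0.le
    rw [abs_le]
    constructor <;> linarith
  have h2 : |F.x ω i₁ - F.x1 w ω i₁| ≤ 1 / 2 ^ w := by
    have hw0 : (0 : ℝ) < 2 ^ w := by positivity
    have b1 := T1_real F hw ω
    have e : F.x ω i₁ - F.x1 w ω i₁ = (2 ^ w * F.t ω - F.T1 w ω) / 2 ^ w * F.d ω i₁ := by
      unfold Fam.x Fam.x1
      field_simp
      ring
    rw [e, abs_mul]
    have b2 : |(2 ^ w * F.t ω - F.T1 w ω) / 2 ^ w| ≤ 1 / 2 ^ w := by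
      rw [abs_div, abs_of_pos hw0]
      refine div_le_div_of_nonneg_right ?_ hw0.le
      rw [abs_le]
      constructor <;> linarith [b1.1, b1.2]
    calc _ ≤ 1 / 2 ^ w * 1 := mul_le_mul b2 (F.dir ω i₁) (abs_nonneg _) (by positivity)
      _ = _ := mul_one _
  refine ⟨?_, fun b _ => ⟨fun j => ?_, ?_⟩⟩
  · rw [eval_C]
    change |F.x ω i₁ - ((F.X r ω i₁ : ℤ) : ℝ) / 2 ^ r| ≤ 1 / 2 ^ P
    linarith
  · rw [pderiv_C, map_zero, abs_zero]
    exact hm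
  · rw [eval_C, eval_C]
    change |((F.X r ω i₁ : ℤ) : ℝ) / 2 ^ r - F.x1 w ω i₁| ≤ 1 / 2 ^ P
    rw [abs_le] at h1 h2 ⊢
    constructor <;> linarith [h1.1, h1.2, h2.1, h2.2]

/-- The trivial ball label. -/
theorem Bl.trivial {F : Fam m J} {i₁ : Fin m} {N K ρ i p : ℕ} {A : F.Ω → Prop} (hN : 0 < N)
    (hJ : N ≤ J) (hp : p < i) (hi : i ≤ N) (hρ : p < ρ) : Bl F i₁ N K ρ i p A := by
  have hu : 1 ≤ J / N := Nat.div_pos hJ hN
  have h1 : i * (J / N) ≤ J := (Nat.mul_le_mul_right _ hi).trans (Nat.mul_div_le J N)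
  have h2 : ∀ i, p < i → p * (J / N) + 1 ≤ i * (J / N) := by
    intro i hp
    have : (p + 1) * (J / N) ≤ i * (J / N) := Nat.mul_le_mul_right _ (by omega)
    rw [Nat.add_mul, Nat.one_mul] at this
    omega
  exact Lab.trivial (h2 i hp) (h2 ρ hρ) h1

end Pool.PB
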