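import Pool.Agent.H99.CLM.Clm

/-!
# Claims for classes of families

As `Pool.K2S.Clm` (helper99), for an arbitrary class of regular families with nearly uniform times
instead of the maximal families.
-/

set_option autoImplicit false

namespace Pool.PB

open Finset Real
open Pool.Agent.H49.Ent Pool.Agent.H32.Dense Pool.STK Pool.KA Pool.K2S

variable {m : ℕ}

/-- A class of regular families with nearly uniform times; the parameter measures the defects. -/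
structure FCl (m : ℕ) where
  /-- the families with defect at most `τ` -/
  T : ℝ → ∀ J : ℕ, Fam m J → Prop
  mono : ∀ {τ τ' : ℝ} {J : ℕ} {F : Fam m J}, τ ≤ τ' → T τ J F → T τ' J F
  tr : ∀ {τ : ℝ} {J : ℕ} {F : Fam m J}, T τ J F → F.Tr
  tm : ∀ {τ : ℝ} {J : ℕ} {F : Fam m J}, T τ J F → F.Tm (τ * J)
  rb : ∀ {τ : ℝ} {J : ℕ} {F : Fam m J}, T τ J F → F.Rb (τ * J)

/-- The class of the maximal families. -/
def FCl.mx (m : ℕ) (a R : ℝ) : FCl m where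
  T τ J F := F.Tr ∧ F.Mx a R τ ∧ F.Rb (τ * J)
  mono := by
    intro τ τ' J F h ⟨h1, h2, h3⟩
    have hJ : τ * (J : ℝ) ≤ τ' * J := mul_le_mul_of_nonneg_right h (Nat.cast_nonneg J)
    refine ⟨h1, ⟨?_, ?_⟩, ?_⟩
    · have := h2.1
      unfold Fam.Tm at this ⊢
      linarith
    · have := h2.2
      nlinarith
    · obtain ⟨⟨a1, b1⟩, ⟨a2, b2⟩, ⟨a3, b3⟩, ⟨a4, b4⟩, ⟨a5, b5⟩⟩ := h3
      exact ⟨⟨a1, rg_mono hJ b1⟩, ⟨a2, rg_mono hJ b2⟩, ⟨a3, rg_mono hJ b3⟩, ⟨a4, rg_mono hJ b4⟩,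
        ⟨a5, rg_mono hJ b5⟩⟩
  tr h := h.1
  tm h := h.2.1.1
  rb h := h.2.2

/-- A family of the class and a large event. -/
def FCl.St (S : FCl m) (τ : ℝ) {J : ℕ} (F : Fam m J) (A : F.Ω → Prop) : Prop :=
  S.T τ J F ∧ Real.exp (-(τ * J)) ≤ Pe F.p A

theorem FCl.St.mono {S : FCl m} {τ τ' : ℝ} {J : ℕ} {F : Fam m J} {A : F.Ω → Prop} (h : τ ≤ τ')
    (hS : S.St τ F A) : S.St τ' F A := by
  have hJ : τ * (J : ℝ) ≤ τ' * J := mul_le_mul_of_nonneg_right h (Nat.cast_nonneg J)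
  exact ⟨S.mono h hS.1, (Real.exp_le_exp.2 (by linarith)).trans hS.2⟩

theorem st_mx {a R τ : ℝ} {J : ℕ} {F : Fam m J} {A : F.Ω → Prop} :
    (FCl.mx m a R).St τ F A ↔ Fam.Stt F a R τ A :=
  ⟨fun h => ⟨h.1.1, h.1.2.1, h.1.2.2, h.2⟩, fun h => ⟨⟨h.1, h.2.1, h.2.2.1⟩, h.2.2.2⟩⟩

/-- The statement holds for stable events of the families of the class; the lists of properties
may depend on the freedoms of the earlier lists. -/
inductive Clg (S : FCl m) : Stat m → Prop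
  | base {Φ : Stat m} (τ : ℝ) (hτ : 0 < τ) (J₁ : ℕ)
      (h : ∀ J ≥ J₁, ∀ (F : Fam m J) (A : F.Ω → Prop), S.St τ F A → Φ J F A) : Clg S Φ
  | step {Φ : Stat m} (L : PList m)
      (h : ∀ κ : ℝ, 0 < κ → Clg S (fun _ F A => L.Sb F κ A → Φ _ F A)) : Clg S Φ

theorem Clg.mono {S : FCl m} {J₂ : ℕ} {Φ : Stat m} (hc : Clg S Φ) : ∀ {Ψ : Stat m},
    (∀ J ≥ J₂, ∀ (F : Fam m J) (A : F.Ω → Prop), Φ J F A → Ψ J F A) → Clg S Ψ := by
  induction hc with
  | base τ hτ J₁ h =>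
    intro Ψ hΨ
    exact Clg.base τ hτ (max J₁ J₂) fun J hJ F A hA =>
      hΨ J ((le_max_right _ _).trans hJ) F A (h J ((le_max_left _ _).trans hJ) F A hA)
  | step L h ih =>
    intro Ψ hΨ
    exact Clg.step L fun κ hκ => ih κ hκ fun J hJ F A h1 h2 => hΨ J hJ F A (h1 h2)

/-- A claim which holds without stability. -/
theorem Clg.of {S : FCl m} {τ : ℝ} {Φ : Stat m} (hτ : 0 < τ) (J₁ : ℕ)
    (h : ∀ J ≥ J₁, ∀ (F : Fam m J) (A : F.Ω → Prop), S.St τ F A → Φ J F A) :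
    Clg S Φ := Clg.base τ hτ J₁ h

/-- A claim with one level. -/
theorem Clg.one {S : FCl m} {Φ : Stat m} (L : PList m)
    (h : ∀ κ > 0, ∃ τ > 0, ∃ J₁ : ℕ, ∀ J ≥ J₁, ∀ (F : Fam m J) (A : F.Ω → Prop),
      S.St τ F A → L.Sb F κ A → Φ J F A) : Clg S Φ := by
  refine Clg.step L fun κ hκ => ?_
  obtain ⟨τ, hτ, J₁, h1⟩ := h κ hκ
  exact Clg.base τ hτ J₁ h1

theorem Clg.and {S : FCl m} {Φ Ψ : Stat m} (h1 : Clg S Φ) (h2 : Clg S Ψ) :
    Clg S (fun _ F A => Φ _ F A ∧ Ψ _ F A) := by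
  induction h1 generalizing Ψ with
  | base τ hτ J₁ h =>
    induction h2 with
    | base τ' hτ' J₁' h' =>
      exact Clg.base (min τ τ') (lt_min hτ hτ') (max J₁ J₁') fun J hJ F A hA =>
        ⟨h J ((le_max_left _ _).trans hJ) F A (hA.mono (min_le_left _ _)),
        h' J ((le_max_right _ _).trans hJ) F A (hA.mono (min_le_right _ _))⟩
    | step L' h' ih' =>
      refine Clg.step L' fun κ hκ => ?_
      exact Clg.mono (J₂ := 0) (ih' κ hκ) fun J _ F A h3 h4 => ⟨h3.1, h3.2 h4⟩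
  | step L h ih =>
    refine Clg.step L fun κ hκ => ?_
    exact Clg.mono (J₂ := 0) (ih κ hκ h2) fun J _ F A h3 h4 => ⟨h3.1 h4, h3.2⟩

theorem Clg.mp {S : FCl m} {Φ Ψ : Stat m} (h1 : Clg S (fun _ F A => Φ _ F A → Ψ _ F A))
    (h2 : Clg S Φ) : Clg S Ψ :=
  Clg.mono (J₂ := 0) (h1.and h2) fun _ _ _ _ h => h.1 h.2

/-- Claims whose statement may depend on the freedom of a list. -/
theorem Clg.list {S : FCl m} {Φ : Stat m} (L : PList m)
    (h : ∀ κ : ℝ, 0 < κ → Clg S (fun _ F A => L.Sb F κ A → Φ _ F A)) : Clg S Φ :=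
  Clg.step L h

theorem Clg.fin {S : FCl m} : ∀ {n : ℕ} {Φ : Fin n → Stat m}, (∀ i, Clg S (Φ i)) →
    Clg S (fun _ F A => ∀ i, Φ i _ F A)
  | 0, _, _ => Clg.of one_pos 0 (fun _ _ _ _ _ i => Fin.elim0 i)
  | n + 1, Φ, h => by
    refine Clg.mono (J₂ := 0) ((h 0).and (Clg.fin (Φ := fun i : Fin n => Φ i.succ)
      fun i => h i.succ)) ?_
    rintro J - F A ⟨h1, h2⟩ i
    exact Fin.cases h1 h2 i

theorem Clg.finite {S : FCl m} {ι : Type} [Finite ι] {Φ : ι → Stat m}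
    (h : ∀ i, Clg S (Φ i)) : Clg S (fun _ F A => ∀ i, Φ i _ F A) := by
  obtain ⟨n, ⟨e⟩⟩ := Finite.exists_equiv_fin ι
  refine Clg.mono (J₂ := 0) (Clg.fin (Φ := fun i : Fin n => Φ (e.symm i)) fun i => h _) ?_
  intro J _ F A h1 i
  have := h1 (e i)
  simpa using this

/-- Finitely many claims. -/
theorem Clg.all {S : FCl m} (n : ℕ) {Φ : ℕ → Stat m} (h : ∀ i < n, Clg S (Φ i)) :
    Clg S (fun _ F A => ∀ i < n, Φ i _ F A) := by
  refine Clg.mono (J₂ := 0) (Clg.fin (Φ := fun i : Fin n => Φ i) fun i => h i i.2) ?_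
  intro J _ F A h1 i hi
  exact h1 ⟨i, hi⟩

/-- A claim under a condition which does not depend on the family. -/
theorem Clg.cnd {S : FCl m} {P : Prop} {Φ : Stat m} (h : P → Clg S Φ) :
    Clg S (fun _ F A => P → Φ _ F A) := by
  by_cases hP : P
  · exact Clg.mono (J₂ := 0) (h hP) (fun _ _ _ _ h1 _ => h1)
  · exact Clg.of one_pos 0 (fun _ _ _ _ _ h1 => absurd h1 hP)

theorem Clg.win {S : FCl m} {Φ : Stat m} (hc : Clg S Φ) : ∀ δ > 0,
    ∃ c > 0, ∃ J₁ : ℕ, ∀ J ≥ J₁, ∀ (F : Fam m J) (A₀ : F.Ω → Prop), S.St c F A₀ →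
      ∃ A : F.Ω → Prop, Sub A A₀ ∧ Real.exp (-(δ * J)) * Pe F.p A₀ ≤ Pe F.p A ∧ Φ J F A := by
  induction hc with
  | base τ hτ J₁ h =>
    intro δ hδ
    refine ⟨τ, hτ, J₁, fun J hJ F A₀ hS => ⟨A₀, fun _ h => h, ?_, h J hJ F A₀ hS⟩⟩
    have : Real.exp (-(δ * J)) ≤ 1 := by
      rw [Real.exp_le_one_iff]
      have : 0 ≤ δ * J := by positivity
      linarith
    calc _ ≤ 1 * Pe F.p A₀ := mul_le_mul_of_nonneg_right this (Pe_nonneg F.isLaw A₀)
      _ = _ := one_mul _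
  | @step Φ L hL ih =>
    intro δ hδ
    have key : ∀ κ : ℝ, ∃ c : ℝ, ∃ J₁ : ℕ, 0 < κ → 0 < c ∧ ∀ J ≥ J₁, ∀ (F : Fam m J)
        (A₀ : F.Ω → Prop), S.St c F A₀ → ∃ A : F.Ω → Prop, Sub A A₀ ∧
        Real.exp (-(min κ (δ / 2) * J)) * Pe F.p A₀ ≤ Pe F.p A ∧ (L.Sb F κ A → Φ J F A) := by
      intro κ
      by_cases hκ : 0 < κ
      · obtain ⟨c, hc, J₁, h⟩ := ih κ hκ (min κ (δ / 2)) (lt_min hκ (half_pos hδ))
        exact ⟨c, J₁, fun _ => ⟨hc, h⟩⟩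
      · exact ⟨0, 0, fun h => absurd h hκ⟩
    choose c J₁ hc using key
    obtain ⟨κ, hκ0, hκ⟩ := exists_seq L.n (fun κ => min (c κ / 4) (δ / 4))
      (fun κ hκ => lt_min (by have := (hc κ hκ).1; linarith) (by linarith))
    obtain ⟨μ, hμ0, hμ⟩ : ∃ μ > 0, ∀ n ≤ L.n, μ ≤ c (κ n) / 2 := by
      have hne : ((range (L.n + 1)).image fun n => c (κ n) / 2).Nonempty :=
        ⟨c (κ 0) / 2, Finset.mem_image.2 ⟨0, Finset.mem_range.2 (by omega), rfl⟩⟩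
      refine ⟨((range (L.n + 1)).image fun n => c (κ n) / 2).min' hne, ?_, fun n hn => ?_⟩
      · obtain ⟨n, -, hn⟩ := Finset.mem_image.1 (Finset.min'_mem _ hne)
        rw [← hn]
        exact half_pos (hc _ (hκ0 n)).1
      · exact Finset.min'_le _ _ (Finset.mem_image.2 ⟨n, Finset.mem_range.2 (by omega), rfl⟩)
    obtain ⟨J₂, hJ₂⟩ : ∃ J₂ : ℕ, ∀ n ≤ L.n, J₁ (κ n) ≤ J₂ :=
      ⟨∑ n ∈ range (L.n + 1), J₁ (κ n), fun n hn =>
        Finset.single_le_sum (f := fun n => J₁ (κ n)) (fun _ _ => Nat.zero_le _)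
          (Finset.mem_range.2 (by omega))⟩
    refine ⟨μ, hμ0, J₂, fun J hJ F A₀ hS => ?_⟩
    have hJr : (0 : ℝ) ≤ J := Nat.cast_nonneg J
    obtain ⟨n, hn, A₁, hA1, hP1, hS1⟩ := stab_inside (p := F.p) (L.Q J F) (L.her J F)
      (fun i => 2 * κ i * J) A₀
    have hsum : ∑ i ∈ range n, 2 * κ i * J = 2 * (∑ i ∈ range n, κ i) * J := by
      rw [Finset.mul_sum, Finset.sum_mul]
    rw [hsum] at hP1
    have hle := hκ n hn
    have hle1 : ∑ i ∈ range n, κ i ≤ c (κ n) / 4 := hle.trans (min_le_left _ _)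
    have hle2 : ∑ i ∈ range n, κ i ≤ δ / 4 := hle.trans (min_le_right _ _)
    obtain ⟨hcn, hwin⟩ := hc (κ n) (hκ0 n)
    have hS' : S.St (c (κ n)) F A₁ := by
      have h0 := hS.mono (τ' := c (κ n)) ((hμ n hn).trans (by linarith))
      refine ⟨h0.1, ?_⟩
      refine le_trans ?_ hP1
      refine le_trans ?_ (mul_le_mul_of_nonneg_left hS.2 (Real.exp_pos _).le)
      rw [← Real.exp_add]
      refine Real.exp_le_exp.2 ?_
      have e1 : 2 * (∑ i ∈ range n, κ i) * J ≤ c (κ n) / 2 * J :=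
        mul_le_mul_of_nonneg_right (by linarith) hJr
      have e2 : μ * J ≤ c (κ n) / 2 * J := mul_le_mul_of_nonneg_right (hμ n hn) hJr
      linarith
    obtain ⟨A, hA, hP, hΦ⟩ := hwin J ((hJ₂ n hn).trans hJ) F A₁ hS'
    refine ⟨A, hA.trans hA1, ?_, hΦ fun i => ?_⟩
    · refine le_trans ?_ hP
      refine le_trans ?_ (mul_le_mul_of_nonneg_left hP1 (Real.exp_pos _).le)
      rw [← mul_assoc, ← Real.exp_add]
      refine mul_le_mul_of_nonneg_right (Real.exp_le_exp.2 ?_) (Pe_nonneg F.isLaw A₀)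
      have e1 : 2 * (∑ i ∈ range n, κ i) * J ≤ δ / 2 * J :=
        mul_le_mul_of_nonneg_right (by linarith) hJr
      have e2 : min (κ n) (δ / 2) * J ≤ δ / 2 * J :=
        mul_le_mul_of_nonneg_right (min_le_right _ _) hJr
      linarith
    · have h1 := (hS1 i).sub (L.her J F i) hA hP
      refine h1.mono F.isLaw ?_
      have e2 : min (κ n) (δ / 2) * J ≤ κ n * J :=
        mul_le_mul_of_nonneg_right (min_le_left _ _) hJr
      linarith


/-- Claims for maximal families. -/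
theorem clg_mx {a R : ℝ} {Φ : Stat m} (h : Clm a R Φ) : Clg (FCl.mx m a R) Φ := by
  induction h with
  | base τ hτ J₁ h => exact Clg.base τ hτ J₁ fun J hJ F A hA => h J hJ F A (st_mx.1 hA)
  | step L h ih => exact Clg.step L ih

theorem clm_of_clg {a R : ℝ} {Φ : Stat m} (h : Clg (FCl.mx m a R) Φ) : Clm a R Φ := by
  induction h with
  | base τ hτ J₁ h => exact Clm.base τ hτ J₁ fun J hJ F A hA => h J hJ F A (st_mx.2 hA)
  | step L h ih => exact Clm.step L ih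

end Pool.PB
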