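import Pool.Agent.H18.PB.Skel
import Pool.Agent.H18.PB.Clg

/-!
# The skeleton of plan B (codimension one), second version

All statements are about a class `S` of regular families (`FCl`); `FCl.mx m a R` is the class of
the maximal families. The spread of the fans is structural: at every scale `g` there is a freedom
`ψ > 0`. Claims are of unbounded depth (`Clg`), so that a scale of spread may be chosen after the
freedoms of the lists.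

`leaf_thm`: in a class with spread and flat fans and with a tail which is not full there are ball
labels of almost full precision on windows of small length exponent.
-/

set_option autoImplicit false

namespace Pool.PB

open Finset Real
open Pool.Agent.H49.Ent Pool.Agent.H32.Dense Pool.STK Pool.KA Pool.KSAT Pool.K2S

variable {m J : ℕ}

/-- The fans are spread at all scales. -/
def SPS (S : FCl m) (j : ℕ) : Prop :=
  ∀ g : ℝ, 0 < g → ∃ ψ : ℝ, 0 < ψ ∧ Clg S (fun _ F A => Sp F j ψ g A)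

/-- The fans are flat up to a fixed proportion of the resolution, in a fixed chart. -/
def CHS (S : FCl m) : Prop :=
  ∃ h₁ : ℝ, 0 < h₁ ∧ Clg S (fun J F A => ∃ i₁ : Fin m, Ch F i₁ ⌊h₁ * J⌋₊ A)

/-- The tail is not full. -/
def TLS (S : FCl m) : Prop :=
  ∃ r : ℝ, 0 < r ∧ ∀ η : ℝ, 0 < η → Clg S (fun J F A => ∀ P : ℕ, P ≤ J → J ≤ 2 * P →
    CH (Pool.Agent.H49.Ent.cond F.p A True) (F.X J) (fun ω => (F.X P ω, F.W ω)) ≤
      (m * Real.log 2 - r) * ((J : ℝ) - P) + η * J)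

open Classical in
/-- **(ROW)** For some level of the chain of scales there is a zone (number `j`) in the tail, with
at most the proportion `δ` of full blocks, and a Pliss time `p` in its upper half. -/
def ROWS (S : FCl m) : Prop :=
  ∀ x : ℝ, 0 < x → ∃ c X : ℝ, 0 < c ∧ 0 < X ∧
    ∃ Z₀ : ℕ, 0 < Z₀ ∧ ∀ δ : ℝ, 0 < δ → ∃ M : ℕ, ∀ σ ρ : ℕ → ℕ, (∀ Z, 16 ≤ σ Z) →
    (∀ Z, 0 < ρ Z) → Z₀ ≤ ρ 1 → ∃ L₀ : ℕ, ∀ L ≥ L₀, ∀ N : ℕ, N = chn σ ρ M * L →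
    Clg S (fun _ F A => ∃ k < M, ∃ j p : ℕ, ∀ Z s l : ℕ, Z = chn σ ρ k → s = σ Z →
      N = Z * s * l →
      (1 - x) * N ≤ (j * (s * l) : ℕ) ∧ (p : ℝ) + X * N ≤ N ∧
      (2 * j + 1) * (s * l) ≤ 2 * p ∧ p + 2 * l ≤ (j + 1) * (s * l) ∧ Pls F c N p A ∧
      (∀ p₀ : ℕ, 2 * (p - p₀) = s * l → Zr F c N p₀ p A) ∧
      (((range s).filter fun i => ¬ Zr F c N ((j * s + i) * l) ((j * s + i + 1) * l) A).card : ℝ)
        ≤ δ * s)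

/-- **(STP)** The lossy step: from the window `i / N` to the window `i / N - 1 / E`, the precision
decreases by `Cs / E`, where `Cs` does not depend on the class `K`, nor on `E`. -/
def STP (S : FCl m) : Prop :=
  ∀ c h₁ X : ℝ, 0 < c → 0 < h₁ → 0 < X → ∃ Cs E₀ : ℕ, 8 ≤ Cs ∧ ∀ E ≥ E₀, 0 < E →
    ∃ K₀ : ℕ, ∀ K ≥ K₀, ∃ N₁ : ℕ, ∀ N ≥ N₁, ∀ d : ℕ, N = E * d →
    ∀ (i₁ : Fin m) (i ρ : ℕ), 2 * d ≤ i → i ≤ ρ → Cs * d ≤ ρ → (ρ : ℝ) + X * N ≤ N →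
    Clg S (fun J F A => Ch F i₁ ⌊h₁ * J⌋₊ A → Pls F c N ρ A → Zr F c N (ρ - Cs * d) ρ A →
      Bl F i₁ N K ρ i (ρ - 1) A → Bl F i₁ N K ρ (i - d) (ρ - Cs * d) A)

/-- **(SLP)** Slope: if the rows between `p₀` and `p` are not full, with at most `ν q` exceptional
blocks of length `L`, then the ball labels of class `K` gain `B` rows per unit of the window, where
`B` is arbitrary and `K` is large. -/
def SLP (S : FCl m) : Prop :=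
  ∀ c h₁ X : ℝ, 0 < c → 0 < h₁ → 0 < X → ∀ B : ℕ,
    ∃ ν : ℝ, 0 < ν ∧ ∃ E₀ : ℕ, ∀ E ≥ E₀, 0 < E → ∃ K₀ : ℕ, ∀ K ≥ K₀,
    ∃ q : ℕ, 0 < q ∧ ∃ L₁ : ℕ, ∀ L ≥ L₁, ∀ N : ℕ, N = E * q * L →
    ∀ (i₁ : Fin m) (i₀ i p₀ p ρ : ℕ), 2 * i₀ + q * L ≤ 2 * i → i ≤ p → p₀ ≤ p → p + 1 ≤ ρ →
    ρ ≤ p + L → p ≤ p₀ + B * (i - i₀) → (ρ : ℝ) + X * N ≤ N →
    Clg S (fun J F A => Ch F i₁ ⌊h₁ * J⌋₊ A → Pls F c N ρ A →
      (nbad F c (E * q) L p₀ p A : ℝ) ≤ ν * q →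
      Bl F i₁ N K ρ i₀ p₀ A → Bl F i₁ N K ρ i p A)

/-- **(LEAF)** There are ball labels of almost full precision on windows of small length exponent.
The mesh is fine, depending on the class `K` of the label. -/
def LEAF (S : FCl m) : Prop :=
  ∀ x : ℝ, 0 < x → ∀ n : ℕ → ℕ, ∃ N K₁ : ℕ, Clg S (fun _ F A => ∃ K ≤ K₁, n K ≤ N ∧
    ∃ (i₁ : Fin m) (i p ρ : ℕ), (i : ℝ) ≤ x * N ∧ i ≤ ρ ∧ (1 - x) * N ≤ p ∧ p < ρ ∧ ρ ≤ N ∧
      Bl F i₁ N K ρ i p A)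

/-- **(END)** There are no ball labels of precision almost `2 ^ (-J)` on macroscopic windows. -/
def ENDS (S : FCl m) : Prop :=
  ∃ x : ℝ, 0 < x ∧ ∀ K : ℕ, ∃ N₁ : ℕ, ∀ N ≥ N₁, ∀ (i₁ : Fin m) (i p ρ : ℕ),
    (i : ℝ) ≤ x * N → i ≤ ρ → (1 - x) * N ≤ p → p ≤ ρ → ρ ≤ N →
    Clg S (fun _ F A => Bl F i₁ N K ρ i p A → False)

/-! ### The assembly -/

/-- The assembly for one event. -/
theorem core2 {F : Fam m J} {A : F.Ω → Prop} {i₁ : Fin m} {N K Cs E q L ρ : ℕ} {x c ν X : ℝ}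
    (hN : 0 < N) (hJ : N ≤ J) (hqL : 2 ≤ q * L) (hCs : 0 < Cs)
    (hρN : ρ ≤ N) (hρ1 : 2 ≤ ρ) (hx : 2 * ((q * L : ℕ) : ℝ) ≤ x * N)
    (hCρ : Cs * (q * L) ≤ ρ) (hX : (ρ : ℝ) + X * N ≤ N)
    (hbad : (nbad F c (E * q) L (ρ - Cs * (q * L)) (ρ - 1) A : ℝ) ≤ ν * q)
    (dT : ∀ i : ℕ, 2 * (q * L) ≤ i → i ≤ ρ → Cs * (q * L) ≤ ρ → (ρ : ℝ) + X * N ≤ N →
      Bl F i₁ N K ρ i (ρ - 1) A → Bl F i₁ N K ρ (i - q * L) (ρ - Cs * (q * L)) A)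
    (dS : ∀ i₀ i p₀ p : ℕ, 2 * i₀ + q * L ≤ 2 * i → i ≤ p → p₀ ≤ p → p + 1 ≤ ρ → ρ ≤ p + L →
      p ≤ p₀ + 2 * Cs * (i - i₀) → (ρ : ℝ) + X * N ≤ N →
      (nbad F c (E * q) L p₀ p A : ℝ) ≤ ν * q →
      Bl F i₁ N K ρ i₀ p₀ A → Bl F i₁ N K ρ i p A) :
    ∃ i : ℕ, (i : ℝ) ≤ x * N ∧ i ≤ ρ ∧ Bl F i₁ N K ρ i (ρ - 1) A := by
  classical
  -- the least window with a label of full precision
  have hex : ∃ i, Bl F i₁ N K ρ i (ρ - 1) A := ⟨ρ, Bl.trivial hN hJ (by omega) hρN (by omega)⟩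
  obtain ⟨i, hi⟩ : ∃ i, i = Nat.find hex := ⟨_, rfl⟩
  have hB : Bl F i₁ N K ρ i (ρ - 1) A := by rw [hi]; exact Nat.find_spec hex
  have hmin : ∀ i' < i, ¬ Bl F i₁ N K ρ i' (ρ - 1) A := fun i' h' => by
    rw [hi] at h'
    exact Nat.find_min hex h'
  have hiρ : i ≤ ρ := by
    rw [hi]
    exact Nat.find_min' hex (Bl.trivial hN hJ (by omega) hρN (by omega))
  by_cases hix : (i : ℝ) ≤ x * N
  · exact ⟨i, hix, hiρ, hB⟩
  exfalso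
  push Not at hix
  have hqi : 2 * (q * L) ≤ i := by
    have : ((2 * (q * L) : ℕ) : ℝ) ≤ i := by
      push_cast at hx ⊢
      linarith only [hix, hx]
    exact_mod_cast this
  have hB2 := dT i hqi hiρ hCρ hX hB
  have hL : 1 ≤ L := by
    rcases Nat.eq_zero_or_pos L with h | h
    · rw [h] at hqL; omega
    · exact h
  have hCq : 1 ≤ Cs * (q * L) := Nat.mul_pos hCs (by omega)
  refine hmin (i - 1) (by omega) (dS (i - q * L) (i - 1) (ρ - Cs * (q * L)) (ρ - 1)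
    (by omega) (by omega) (by omega) (by omega) (by omega) ?_ hX hbad hB2)
  have e1 : i - 1 - (i - q * L) = q * L - 1 := by omega
  rw [e1]
  obtain ⟨t, ht⟩ : ∃ t, q * L = t + 2 := ⟨q * L - 2, by omega⟩
  rw [ht] at hCρ ⊢
  have e2 : Cs * (t + 2) = Cs * t + 2 * Cs := by ring
  have e3 : 2 * Cs * (t + 2 - 1) = 2 * (Cs * t) + 2 * Cs := by
    have : t + 2 - 1 = t + 1 := by omega
    rw [this]
    ring
  rw [e2] at hCρ
  rw [e2, e3]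
  omega

/-- **The leaf theorem.** -/
theorem leaf_thm {S : FCl m} (hCHT : CHS S) (hROW : ROWS S) (hSTP : STP S) (hSLP : SLP S) :
    LEAF S := by
  classical
  intro x₀ hx₀ n
  obtain ⟨x, hx'⟩ : ∃ x, x = min x₀ 1 := ⟨_, rfl⟩
  have hx : 0 < x := by rw [hx']; exact lt_min hx₀ one_pos
  have hx1 : x ≤ 1 := by rw [hx']; exact min_le_right _ _
  have hxx : x ≤ x₀ := by rw [hx']; exact min_le_left _ _
  obtain ⟨h₁, hh₁, hcht⟩ := hCHT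
  obtain ⟨c, X, hc, hX, Z₀, hZ₀, hrow⟩ := hROW (x / 2) (by linarith only [hx])
  obtain ⟨Cs, E₁, hCs8, hstp⟩ := hSTP c h₁ X hc hh₁ hX
  have hCs : 0 < Cs := by omega
  obtain ⟨ν, hν, E₂, hslp⟩ := hSLP c h₁ X hc hh₁ hX (2 * Cs)
  have hCsr : (0 : ℝ) < Cs := by exact_mod_cast hCs
  obtain ⟨M, hrow⟩ := hrow (ν / (2 * Cs)) (by positivity)
  -- the constants of a level
  have lev : ∀ Z : ℕ, ∃ (K q N₁ : ℕ), 0 < q ∧ (0 < Z → max E₁ E₂ ≤ Z →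
      (∀ N ≥ N₁, ∀ d : ℕ, N = 2 * Cs * Z * d → ∀ (i₁ : Fin m) (i ρ : ℕ), 2 * d ≤ i → i ≤ ρ →
        Cs * d ≤ ρ → (ρ : ℝ) + X * N ≤ N →
        Clg S (fun J F A => Ch F i₁ ⌊h₁ * J⌋₊ A → Pls F c N ρ A → Zr F c N (ρ - Cs * d) ρ A →
          Bl F i₁ N K ρ i (ρ - 1) A → Bl F i₁ N K ρ (i - d) (ρ - Cs * d) A)) ∧
      (∀ L ≥ N₁, ∀ N : ℕ, N = 2 * Cs * Z * q * L → ∀ (i₁ : Fin m) (i₀ i p₀ p ρ : ℕ),
        2 * i₀ + q * L ≤ 2 * i → i ≤ p → p₀ ≤ p → p + 1 ≤ ρ → ρ ≤ p + L →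
        p ≤ p₀ + 2 * Cs * (i - i₀) → (ρ : ℝ) + X * N ≤ N →
        Clg S (fun J F A => Ch F i₁ ⌊h₁ * J⌋₊ A →
          Pls F c N ρ A → (nbad F c (2 * Cs * Z * q) L p₀ p A : ℝ) ≤ ν * q →
          Bl F i₁ N K ρ i₀ p₀ A → Bl F i₁ N K ρ i p A))) := by
    intro Z
    by_cases hZ : 0 < Z ∧ max E₁ E₂ ≤ Z
    · obtain ⟨hZ, hZE⟩ := hZ
      have hE : 0 < 2 * Cs * Z := by positivity
      have hZE2 : Z ≤ 2 * Cs * Z := Nat.le_mul_of_pos_left _ (by positivity)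
      obtain ⟨K₁, hK₁⟩ := hstp (2 * Cs * Z) (((le_max_left _ _).trans hZE).trans hZE2) hE
      obtain ⟨K₂, hK₂⟩ := hslp (2 * Cs * Z) (((le_max_right _ _).trans hZE).trans hZE2) hE
      obtain ⟨K, hK⟩ : ∃ K, K = max K₁ K₂ := ⟨_, rfl⟩
      have hKb : K₁ ≤ K := by rw [hK]; exact le_max_left _ _
      have hKc : K₂ ≤ K := by rw [hK]; exact le_max_right _ _
      obtain ⟨N₁, ht⟩ := hK₁ K hKb
      obtain ⟨q, hq, N₂, hsl⟩ := hK₂ K hKc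
      refine ⟨K, q, max N₁ N₂, hq, fun _ _ => ⟨?_, ?_⟩⟩
      · intro N hN d hd i₁ i ρ k1 k2 k3 k4
        exact ht N ((le_max_left _ _).trans hN) d hd i₁ i ρ k1 k2 k3 k4
      · intro L hL N hN i₁ i₀ i p₀ p ρ k1 k2 k3 k4 k5 k6 k7
        exact hsl L ((le_max_right _ _).trans hL) N hN i₁ i₀ i p₀ p ρ k1 k2 k3 k4 k5 k6 k7
    · exact ⟨0, 1, 0, one_pos, fun h1 h2 => absurd ⟨h1, h2⟩ hZ⟩
  choose K q N₁ hq lev using lev
  -- the chain of zones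
  obtain ⟨Zm, hZm⟩ : ∃ Zm, Zm = max (max Z₀ (⌈1 / x⌉₊ + 1)) (max E₁ E₂) := ⟨_, rfl⟩
  have hZma : max Z₀ (⌈1 / x⌉₊ + 1) ≤ Zm := by rw [hZm]; exact le_max_left _ _
  have hZmb : max E₁ E₂ ≤ Zm := by rw [hZm]; exact le_max_right _ _
  have hZm0 : 0 < Zm := lt_of_lt_of_le hZ₀ ((le_max_left _ _).trans hZma)
  obtain ⟨nx, hnx⟩ : ∃ nx : ℕ → ℕ, nx = fun _ => Zm := ⟨_, rfl⟩
  have hnx0 : ∀ Z, 0 < nx Z := fun Z => by rw [hnx]; exact hZm0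
  obtain ⟨σ, hσ⟩ : ∃ σ : ℕ → ℕ, σ = fun Z => 2 * Cs * q Z := ⟨_, rfl⟩
  have hσ16 : ∀ Z, 16 ≤ σ Z := fun Z => by
    rw [hσ]
    have h1 : 2 * Cs ≤ 2 * Cs * q Z := Nat.le_mul_of_pos_right _ (hq Z)
    exact le_trans (by omega) h1
  have hσ0 : ∀ Z, 0 < σ Z := fun Z => by
    have := hσ16 Z
    omega
  obtain ⟨L₀, hrow⟩ := hrow σ nx hσ16 hnx0 (by
    rw [hnx]
    exact (le_max_left _ _).trans hZma)
  have hck := chn_pos hσ0 hnx0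
  have hZk : ∀ k, Zm ≤ chn σ nx k := fun k => by
    have := chn_le hσ0 hnx0 k
    rwa [hnx] at this ⊢
  have hZE : ∀ k, max E₁ E₂ ≤ chn σ nx k := fun k => hZmb.trans (hZk k)
  -- the mesh
  obtain ⟨L, hL⟩ : ∃ L, L = L₀ + (∑ k ∈ range M, N₁ (chn σ nx k)) +
    (∑ k ∈ range M, n (K (chn σ nx k))) + ⌈2 / x⌉₊ + 2 := ⟨_, rfl⟩
  have hLk : ∀ k < M, N₁ (chn σ nx k) ≤ L := by
    intro k hk
    have := Finset.single_le_sum (f := fun k => N₁ (chn σ nx k)) (fun _ _ => Nat.zero_le _)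
      (Finset.mem_range.2 hk)
    omega
  have hLn : ∀ k < M, n (K (chn σ nx k)) ≤ L := by
    intro k hk
    have := Finset.single_le_sum (f := fun k => n (K (chn σ nx k))) (fun _ _ => Nat.zero_le _)
      (Finset.mem_range.2 hk)
    omega
  obtain ⟨N, hN⟩ : ∃ N, N = chn σ nx M * L := ⟨_, rfl⟩
  have hNL : L ≤ N := by rw [hN]; exact Nat.le_mul_of_pos_left _ (hck M)
  have hN0 : 0 < N := by omega
  have hNr : (0 : ℝ) < N := by exact_mod_cast hN0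
  have hNx : 2 ≤ x * N := by
    have h1 : 2 / x ≤ (⌈2 / x⌉₊ : ℝ) := Nat.le_ceil _
    have h2 : (⌈2 / x⌉₊ : ℝ) ≤ N := by
      have : ⌈2 / x⌉₊ ≤ N := by omega
      exact_mod_cast this
    have h3 : 2 / x ≤ N := h1.trans h2
    rw [div_le_iff₀ hx] at h3
    linarith only [h3]
  have hmesh : ∀ k < M, ∃ l, N = 2 * Cs * chn σ nx k * q (chn σ nx k) * l ∧ L ≤ l := by
    intro k hk
    obtain ⟨t, ht⟩ := chn_dvd (σ := σ) (ρ := nx) hk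
    have ht0 : 0 < t := by
      rcases Nat.eq_zero_or_pos t with h | h
      · rw [h, Nat.mul_zero] at ht
        have := hck M
        omega
      · exact h
    refine ⟨t * L, ?_, Nat.le_mul_of_pos_left _ ht0⟩
    rw [hN, ht, hσ]
    ring
  choose! l hl1 hl2 using hmesh
  obtain ⟨K₁, hK₁⟩ : ∃ K₁, K₁ = ∑ k ∈ range M, K (chn σ nx k) := ⟨_, rfl⟩
  have hKk : ∀ k < M, K (chn σ nx k) ≤ K₁ := by
    intro k hk
    rw [hK₁]
    exact Finset.single_le_sum (f := fun k => K (chn σ nx k)) (fun _ _ => Nat.zero_le _)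
      (Finset.mem_range.2 hk)
  refine ⟨N, K₁, ?_⟩
  -- the claims
  have c2 : Clg S (fun J F A => ∀ v : Fin M × Fin m × Fin (N + 1) × Fin (N + 1),
      (2 * (q (chn σ nx v.1) * l v.1) ≤ (v.2.2.1 : ℕ) ∧ (v.2.2.1 : ℕ) ≤ (v.2.2.2 : ℕ) ∧
        Cs * (q (chn σ nx v.1) * l v.1) ≤ (v.2.2.2 : ℕ) ∧
        ((v.2.2.2 : ℕ) : ℝ) + X * N ≤ N) →
      (Ch F v.2.1 ⌊h₁ * J⌋₊ A → Pls F c N (v.2.2.2 : ℕ) A →
        Zr F c N ((v.2.2.2 : ℕ) - Cs * (q (chn σ nx v.1) * l v.1)) (v.2.2.2 : ℕ) A →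
        Bl F v.2.1 N (K (chn σ nx v.1)) (v.2.2.2 : ℕ) (v.2.2.1 : ℕ) ((v.2.2.2 : ℕ) - 1) A →
        Bl F v.2.1 N (K (chn σ nx v.1)) (v.2.2.2 : ℕ)
          ((v.2.2.1 : ℕ) - q (chn σ nx v.1) * l v.1)
          ((v.2.2.2 : ℕ) - Cs * (q (chn σ nx v.1) * l v.1)) A)) :=
    Clg.finite fun v => Clg.cnd fun k => (lev _ (hck _) (hZE _)).1 N
      ((hLk v.1 v.1.2).trans hNL) (q (chn σ nx v.1) * l v.1)
      (by rw [← Nat.mul_assoc]; exact hl1 v.1 v.1.2) v.2.1 v.2.2.1 v.2.2.2 k.1 k.2.1 k.2.2.1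
      k.2.2.2
  have c3 : Clg S (fun J F A => ∀ v : Fin M × Fin m × Fin (N + 1) × Fin (N + 1) ×
      Fin (N + 1) × Fin (N + 1) × Fin (N + 1),
      (2 * (v.2.2.1 : ℕ) + q (chn σ nx v.1) * l v.1 ≤ 2 * (v.2.2.2.1 : ℕ) ∧
        (v.2.2.2.1 : ℕ) ≤ (v.2.2.2.2.2.1 : ℕ) ∧ (v.2.2.2.2.1 : ℕ) ≤ (v.2.2.2.2.2.1 : ℕ) ∧
        (v.2.2.2.2.2.1 : ℕ) + 1 ≤ (v.2.2.2.2.2.2 : ℕ) ∧
        (v.2.2.2.2.2.2 : ℕ) ≤ (v.2.2.2.2.2.1 : ℕ) + l v.1 ∧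
        (v.2.2.2.2.2.1 : ℕ) ≤ (v.2.2.2.2.1 : ℕ) + 2 * Cs * ((v.2.2.2.1 : ℕ) - (v.2.2.1 : ℕ)) ∧
        ((v.2.2.2.2.2.2 : ℕ) : ℝ) + X * N ≤ N) →
      (Ch F v.2.1 ⌊h₁ * J⌋₊ A → Pls F c N (v.2.2.2.2.2.2 : ℕ) A →
        (nbad F c (2 * Cs * chn σ nx v.1 * q (chn σ nx v.1)) (l v.1) (v.2.2.2.2.1 : ℕ)
          (v.2.2.2.2.2.1 : ℕ) A : ℝ) ≤ ν * q (chn σ nx v.1) →
        Bl F v.2.1 N (K (chn σ nx v.1)) (v.2.2.2.2.2.2 : ℕ) (v.2.2.1 : ℕ) (v.2.2.2.2.1 : ℕ) A →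
        Bl F v.2.1 N (K (chn σ nx v.1)) (v.2.2.2.2.2.2 : ℕ) (v.2.2.2.1 : ℕ)
          (v.2.2.2.2.2.1 : ℕ) A)) :=
    Clg.finite fun v => Clg.cnd fun k => (lev _ (hck _) (hZE _)).2 (l v.1)
      ((hLk v.1 v.1.2).trans (hl2 v.1 v.1.2)) N (hl1 v.1 v.1.2) v.2.1 v.2.2.1 v.2.2.2.1
      v.2.2.2.2.1 v.2.2.2.2.2.1 v.2.2.2.2.2.2 k.1 k.2.1 k.2.2.1 k.2.2.2.1 k.2.2.2.2.1
      k.2.2.2.2.2.1 k.2.2.2.2.2.2
  refine Clg.mono (J₂ := N) ((c2.and c3).and (hcht.and (hrow L (by omega) N hN))) ?_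
  rintro J hJ F A ⟨⟨d2, d3⟩, ⟨i₁, hch⟩, k, hk, j, p, hp⟩
  obtain ⟨Z, hZ⟩ : ∃ Z, Z = chn σ nx k := ⟨_, rfl⟩
  obtain ⟨L', hL'⟩ : ∃ L', L' = l k := ⟨_, rfl⟩
  have hZ0 : 0 < Z := by rw [hZ]; exact hck k
  have hNZ : N = 2 * Cs * Z * q Z * L' := by rw [hL', hZ]; exact hl1 k hk
  have hLL' : L ≤ L' := by rw [hL']; exact hl2 k hk
  obtain ⟨r1, r2, r3, r4, r5, r6, r7⟩ := hp Z (σ Z) L' hZ rfl (by rw [hNZ, hσ]; ring)
  have hsL : σ Z * L' = 2 * (Cs * (q Z * L')) := by rw [hσ]; ring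
  have hqL : 2 ≤ q Z * L' := by
    have h1 : L' ≤ q Z * L' := Nat.le_mul_of_pos_left _ (hq Z)
    omega
  have hCq : 2 ≤ Cs * (q Z * L') := le_trans hqL (Nat.le_mul_of_pos_left _ hCs)
  have hpN : p ≤ N := by
    have : (p : ℝ) ≤ N := by
      have : 0 ≤ X * N := by positivity
      linarith only [r2, this]
    exact_mod_cast this
  have r3' : j * (σ Z * L') + Cs * (q Z * L') ≤ p := by
    have e1 : (2 * j + 1) * (σ Z * L') = 2 * (j * (σ Z * L')) + σ Z * L' := by ring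
    omega
  -- `(1 - x) N + 1 ≤ p`
  have hpx : (1 - x) * N + 1 ≤ p := by
    have h1 : ((j * (σ Z * L') : ℕ) : ℝ) ≤ p := by
      have : j * (σ Z * L') ≤ p := by omega
      exact_mod_cast this
    linarith only [hNx, r1, h1]
  have hfin : ∃ i : ℕ, (i : ℝ) ≤ x * N ∧ i ≤ p ∧ Bl F i₁ N (K Z) p i (p - 1) A := by
    refine core2 (F := F) (A := A) (i₁ := i₁) (N := N) (K := K Z) (Cs := Cs) (E := 2 * Cs * Z)
      (q := q Z) (L := L') (ρ := p) (x := x) (c := c) (ν := ν) (X := X) hN0 hJ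
      hqL hCs hpN (by omega) ?_ (by omega) r2 ?_ ?_ ?_
    · -- `2 q L' ≤ x N`
      have h1 : (2 : ℝ) ≤ x * (2 * Cs * Z : ℕ) := by
        have h3 : ⌈1 / x⌉₊ ≤ Z := by
          have h3a : ⌈1 / x⌉₊ + 1 ≤ Zm := (le_max_right _ _).trans hZma
          have h3b : Zm ≤ Z := by rw [hZ]; exact hZk k
          omega
        have h4 : 1 / x ≤ Z := (Nat.le_ceil _).trans (by exact_mod_cast h3)
        rw [div_le_iff₀ hx] at h4
        have h5 : 2 * (Z : ℝ) ≤ (2 * Cs * Z : ℕ) := by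
          have : 2 * Z ≤ 2 * Cs * Z := Nat.mul_le_mul_right _ (by omega)
          exact_mod_cast this
        nlinarith only [h4, hx, h5]
      have h2 : (N : ℝ) = (2 * Cs * Z : ℕ) * (q Z * L' : ℕ) := by
        rw [hNZ]; push_cast; ring
      rw [h2]
      have h3 : (0 : ℝ) ≤ ((q Z * L' : ℕ) : ℝ) := Nat.cast_nonneg _
      nlinarith only [h1]
    · -- bad blocks
      have h1 := nbad_le (F := F) (A := A) (c := c) (M := 2 * Cs * Z * q Z) (L := L') (s := σ Z)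
        (j := j) (p := p - 1) (p₀ := p - Cs * (q Z * L')) (by omega) (by omega)
      have h2 : 2 * Cs * Z * q Z * L' = N := hNZ.symm
      rw [h2] at h1
      have h3 : (nbad F c (2 * Cs * Z * q Z) L' (p - Cs * (q Z * L')) (p - 1) A : ℝ) ≤
          ν / (2 * Cs) * σ Z := by
        refine le_trans ?_ r7
        exact_mod_cast h1
      refine h3.trans (le_of_eq ?_)
      rw [hσ]
      push_cast
      field_simp
    · intro i h1 h2 h3 h4 h5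
      have := d2 (⟨k, hk⟩, i₁, ⟨i, by omega⟩, ⟨p, by omega⟩) ⟨by rw [← hZ, ← hL']; exact h1, h2,
        by rw [← hZ, ← hL']; exact h3, h4⟩ hch r5
        (by rw [← hZ, ← hL']; exact r6 _ (by simp only; omega)) (by rw [← hZ]; exact h5)
      rw [← hZ, ← hL'] at this
      exact this
    · intro i₀ i p₀ p' h1 h2 h3 h4 h4' h5 h6 h7 h8
      have := d3 (⟨k, hk⟩, i₁, ⟨i₀, by omega⟩, ⟨i, by omega⟩, ⟨p₀, by omega⟩, ⟨p', by omega⟩,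
        ⟨p, by omega⟩) ⟨by rw [← hZ, ← hL']; exact h1, h2, h3, h4, by rw [← hL']; exact h4',
        h5, h6⟩ hch r5
        (by rw [← hZ, ← hL']; exact h7) (by rw [← hZ]; exact h8)
      rw [← hZ] at this
      exact this
  obtain ⟨i, hi1, hi0, hi2⟩ := hfin
  refine ⟨K Z, ?_, ?_, i₁, i, p - 1, p, ?_, hi0, ?_, by omega, hpN, hi2⟩
  · rw [hZ]; exact hKk k hk
  · rw [hZ]; exact (hLn k hk).trans hNL
  · exact hi1.trans (mul_le_mul_of_nonneg_right hxx hNr.le)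
  · have h1 : ((p - 1 : ℕ) : ℝ) = p - 1 := by
      rw [Nat.cast_sub (by omega)]
      push_cast
      rfl
    rw [h1]
    have h2 : (1 - x₀) * N ≤ (1 - x) * N := mul_le_mul_of_nonneg_right (by linarith only [hxx]) hNr.le
    linarith only [hpx, h2]

/-- Leaves and (END) are incompatible. -/
theorem clg_false {S : FCl m} (hL : LEAF S) (hE : ENDS S) : Clg S (fun _ _ _ => False) := by
  classical
  obtain ⟨x, hx, hend⟩ := hE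
  choose n hend using hend
  obtain ⟨N, K₁, hleaf⟩ := hL x hx n
  have c4 : Clg S (fun _ F A => ∀ v : Fin (K₁ + 1) × Fin m × Fin (N + 1) × Fin (N + 1) ×
      Fin (N + 1), (n (v.1 : ℕ) ≤ N ∧ ((v.2.2.1 : ℕ) : ℝ) ≤ x * N ∧
        (v.2.2.1 : ℕ) ≤ (v.2.2.2.2 : ℕ) ∧
        (1 - x) * N ≤ ((v.2.2.2.1 : ℕ) : ℝ) ∧ (v.2.2.2.1 : ℕ) ≤ (v.2.2.2.2 : ℕ)) →
      (Bl F v.2.1 N (v.1 : ℕ) (v.2.2.2.2 : ℕ) (v.2.2.1 : ℕ) (v.2.2.2.1 : ℕ) A → False)) :=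
    Clg.finite fun v => Clg.cnd fun k => hend (v.1 : ℕ) N k.1 v.2.1 v.2.2.1 v.2.2.2.1 v.2.2.2.2
      k.2.1 k.2.2.1 k.2.2.2.1 k.2.2.2.2 (by have := v.2.2.2.2.2; omega)
  refine Clg.mono (J₂ := N) (hleaf.and c4) ?_
  rintro J hJ F A ⟨⟨K, hK, hn, i₁, i, p, ρ, h1, h0, h2, h3, h4, h5⟩, d4⟩
  exact d4 (⟨K, by omega⟩, i₁, ⟨i, by omega⟩, ⟨p, by omega⟩, ⟨ρ, by omega⟩)
    ⟨hn, h1, h0, h2, h3.le⟩ h5

/-- Linear spread implies structural spread. -/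
theorem sps_of_spr (h : SPRStmt m) {a R : ℝ} (ha : 1 < a) (hR : 0 < R) (hU : UBa m a R) :
    SPS (FCl.mx m a R) (m - 2) := by
  obtain ⟨c₂, hc₂, h⟩ := h a R ha hR hU
  intro g hg
  obtain ⟨g', hg', hgg, h⟩ := h g hg
  refine ⟨c₂ * g', by positivity, Clg.mono (J₂ := 0) (clg_mx h.clm) ?_⟩
  exact fun J _ F A h1 => h1.mono le_rfl hgg

theorem chs_of_cht (h : CHTStmt m) {a R : ℝ} (ha : 1 < a) (hR : 0 < R) (hU : UBa m a R) :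
    CHS (FCl.mx m a R) := by
  obtain ⟨h₁, hh₁, h⟩ := h a R ha hR hU
  exact ⟨h₁, hh₁, clg_mx h.clm⟩

/-- **Plan B**, the contradiction in one class of maximal families. -/
theorem planB_top {a R : ℝ} (hCHT : CHS (FCl.mx m a R)) (hROW : ROWS (FCl.mx m a R))
    (hSTP : STP (FCl.mx m a R)) (hSLP : SLP (FCl.mx m a R)) (hEND : ENDS (FCl.mx m a R)) :
    Clm (m := m) a R (fun _ _ _ => False) :=
  clm_of_clg (clg_false (leaf_thm hCHT hROW hSTP hSLP) hEND)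

/-- **Plan B.** The spread of the fans is needed in the maximal classes only, the other modules
are used under this hypothesis. -/
theorem kp_of_planB2 {m : ℕ}
    (hSPS : ∀ a R : ℝ, 1 < a → 0 < R → UBa m a R → SPS (FCl.mx m a R) (m - 2))
    (hCHT : ∀ a R : ℝ, 1 < a → 0 < R → UBa m a R → CHS (FCl.mx m a R))
    (hROW : ∀ a R : ℝ, 1 < a → 0 < R → UBa m a R → ROWS (FCl.mx m a R))
    (hSTP : ∀ S : FCl m, SPS S (m - 2) → STP S) (hSLP : ∀ S : FCl m, SPS S (m - 2) → SLP S)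
    (hEND : ∀ a R : ℝ, 1 < a → 0 < R → UBa m a R → SPS (FCl.mx m a R) (m - 2) →
      ENDS (FCl.mx m a R)) : KP m := by
  refine kp_of_clm aex rex fun a R ha hR hU => ?_
  have h := hSPS a R ha hR hU
  exact planB_top (hCHT a R ha hR hU) (hROW a R ha hR hU) (hSTP _ h) (hSLP _ h)
    (hEND a R ha hR hU h)

end Pool.PB
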