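import Pool.Agent.H18.PB.Full
import Pool.Agent.H10.KAL.SVP
import Pool.Agent.H50.PW.Nondeg
import Pool.Agent.H84.KEND.Norm

/-!
# The label of a ball: rounded coefficients

From a polynomial label on the windows of length `2 ^ (-w)` (as in `Lab`) to a label in the sense
of entropy: the cell of the window and the coefficients of the polynomial in the coordinates of the
cell, rounded at `2 ^ (-P)`.
-/

set_option autoImplicit false

namespace Pool.PB

open Finset Real MvPolynomial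
open Pool.Agent.H49.Ent Pool.Agent.H32.Dense Pool.STK Pool.KA Pool.KSAT Pool.K2S Pool.KA.TRC
open Pool.KAL

variable {m J : ℕ}

/-- The mean value inequality for polynomials. -/
theorem mvt (Q : MvPolynomial (Fin m) ℝ) {x y : Fin m → ℝ} {h M r : ℝ} (hM0 : 0 ≤ M)
    (hM : ∀ b : Fin m → ℝ, (∀ j, |b j - x j| ≤ h) → ∀ j, |eval b (pderiv j Q)| ≤ M)
    (hr : 0 ≤ r) (hrh : r ≤ h) (hy : ∀ j, |y j - x j| ≤ r) :
    |eval y Q - eval x Q| ≤ m * M * r := by
  have hconv : Convex ℝ (Metric.closedBall x h) := convex_closedBall x h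
  have hmem : ∀ b : Fin m → ℝ, b ∈ Metric.closedBall x h ↔ ∀ j, |b j - x j| ≤ h := by
    intro b
    rw [Metric.mem_closedBall, dist_pi_le_iff (hr.trans hrh)]
    simp only [Real.dist_eq]
  have hx : x ∈ Metric.closedBall x h := Metric.mem_closedBall_self (hr.trans hrh)
  have hyb : y ∈ Metric.closedBall x h := (hmem y).2 fun j => (hy j).trans hrh
  have key := hconv.norm_image_sub_le_of_norm_hasFDerivWithin_le (𝕜 := ℝ)
    (f := fun b : Fin m → ℝ => eval b Q) (f' := fun b => Pool.Agent.H50.PW.dEval Q b)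
    (C := m * M)
    (fun b _ => (Pool.Agent.H50.PW.hasStrictFDerivAt_eval Q b).hasFDerivAt.hasFDerivWithinAt)
    (fun b hb => by
      refine ContinuousLinearMap.opNorm_le_bound _ (by positivity) fun v => ?_
      rw [Pool.Agent.H50.PW.dEval_apply]
      rw [Real.norm_eq_abs]
      refine (Finset.abs_sum_le_sum_abs _ _).trans ?_
      calc ∑ i, |eval b (pderiv i Q) * v i| ≤ ∑ _i : Fin m, M * ‖v‖ := by
            refine Finset.sum_le_sum fun i _ => ?_
            rw [abs_mul]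
            exact mul_le_mul (hM b ((hmem b).1 hb) i) (norm_le_pi_norm v i) (abs_nonneg _) hM0
        _ = m * M * ‖v‖ := by
            rw [Finset.sum_const, Finset.card_univ, Fintype.card_fin, nsmul_eq_mul]
            ring) hx hyb
  rw [Real.norm_eq_abs] at key
  refine key.trans (mul_le_mul_of_nonneg_left ?_ (by positivity))
  rw [pi_norm_le_iff_of_nonneg hr]
  intro j
  rw [Pi.sub_apply, Real.norm_eq_abs]
  exact hy j

/-- The corner of the cell of the window. -/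
noncomputable def cen {ζ : Type} (i₁ : Fin m) (w : ℕ) (q : (ℕ × (Fin m → ℤ)) × ζ) (j : Fin m) : ℝ :=
  if j = i₁ then (q.1.1 : ℝ) / 2 ^ w else (q.1.2 j : ℝ) / 2 ^ w

/-- The number of exponents of degree at most `K`. -/
noncomputable def nex (m K : ℕ) : ℕ := (expBox (Fin m) K).card

/-- The exponents. -/
noncomputable def exi (m K : ℕ) (i : Fin (nex m K)) : Fin m →₀ ℕ :=
  ((expBox (Fin m) K).equivFin.symm i : Fin m →₀ ℕ)

/-- The label: the cell of the window and the rounded coefficients. -/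
noncomputable def zlab (F : Fam m J) (i₁ : Fin m) (K w P : ℕ)
    (H : ((Fin m → ℝ) × (Fin m → ℝ)) × F.ζ × ℕ → MvPolynomial (Fin m) ℝ) (ω : F.Ω) :
    ((ℕ × (Fin m → ℤ)) × F.ζ) × (Fin (nex m K) → ℤ) :=
  (F.c w ω, fun i => ⌊(2 : ℝ) ^ P *
    coeff (exi m K i) (shf (H (slam F w ω)) (1 / 2 ^ w) (cen i₁ w (F.c w ω)))⌋)

theorem near_cen (F : Fam m J) (i₁ : Fin m) {w : ℕ} (hw : w ≤ J) (ω : F.Ω) (j : Fin m) :
    |bp F i₁ ω j - cen i₁ w (F.c w ω) j| ≤ 2 * (1 / 2 ^ w) := by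
  have h2w : (0 : ℝ) < 2 ^ w := by positivity
  unfold bp cen
  by_cases hj : j = i₁
  · subst hj
    rw [Function.update_self, if_pos rfl]
    have h1 := T1_real F hw ω
    have e : F.t ω - (((F.c w ω).1.1 : ℕ) : ℝ) / 2 ^ w = (2 ^ w * F.t ω - F.T1 w ω) / 2 ^ w := by
      change F.t ω - ((F.T1 w ω : ℕ) : ℝ) / 2 ^ w = _
      field_simp
    rw [e, abs_div, abs_of_pos h2w, abs_of_nonneg h1.1, mul_one_div]
    exact div_le_div_of_nonneg_right (by linarith [h1.2]) h2w.le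
  · rw [Function.update_of_ne hj, if_neg hj]
    have h1 := Rows.x1_near F hw ω j
    have h2 : |(2 : ℝ) ^ w * F.x1 w ω j - (⌊(2 : ℝ) ^ w * F.x1 w ω j⌋ : ℤ)| ≤ 1 := by
      have a1 := Int.floor_le ((2 : ℝ) ^ w * F.x1 w ω j)
      have a2 := Int.lt_floor_add_one ((2 : ℝ) ^ w * F.x1 w ω j)
      rw [abs_le]
      constructor <;> linarith
    have e : F.x ω j - (((F.c w ω).1.2 j : ℤ) : ℝ) / 2 ^ w =
        (2 ^ w * F.x ω j - (⌊(2 : ℝ) ^ w * F.x1 w ω j⌋ : ℤ)) / 2 ^ w := by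
      change F.x ω j - ((⌊(2 : ℝ) ^ w * F.x1 w ω j⌋ : ℤ) : ℝ) / 2 ^ w = _
      field_simp
    rw [e, abs_div, abs_of_pos h2w, mul_one_div]
    refine div_le_div_of_nonneg_right ?_ h2w.le
    rw [abs_le] at h1 h2 ⊢
    constructor <;> linarith [h1.1, h1.2, h2.1, h2.2]

theorem shf_sub' (P Q : MvPolynomial (Fin m) ℝ) (h : ℝ) (x : Fin m → ℝ) :
    shf (P - Q) h x = shf P h x - shf Q h x := by
  unfold shf
  rw [map_sub]

/-- The constant of equivalence of norms. -/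
noncomputable def KN (m K : ℕ) : ℝ := (exists_coefSum_le (Fin m) K).choose

theorem one_le_KN (m K : ℕ) : 1 ≤ KN m K := (exists_coefSum_le (Fin m) K).choose_spec.1

theorem KN_spec (m K : ℕ) (P : MvPolynomial (Fin m) ℝ) (M : ℝ) (hP : P.totalDegree ≤ K)
    (h : ∀ u : Fin m → ℝ, (∀ i, |u i| ≤ 1) → |eval u P| ≤ M) : coefSum P ≤ KN m K * M :=
  (exists_coefSum_le (Fin m) K).choose_spec.2 P M hP h

/-- Coefficients in the coordinates of a cell near the ball. -/
theorem coef_near {K : ℕ} {Q : MvPolynomial (Fin m) ℝ} (hQ : Q.totalDegree ≤ K) {h M : ℝ}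
    (hh : 0 < h) {x c : Fin m → ℝ} (hb : ∀ b : Fin m → ℝ, (∀ j, |b j - x j| ≤ h) → |eval b Q| ≤ M)
    (hc : ∀ j, |x j - c j| ≤ 2 * h) : Psi Q h c ≤ 3 ^ K * (KN m K * M) := by
  have h1 : Psi Q h x ≤ KN m K * M := by
    unfold Psi
    refine KN_spec m K _ M ((totalDegree_shf_le Q h x).trans hQ) fun u hu => ?_
    rw [eval_shf]
    refine hb _ fun j => ?_
    rw [add_sub_cancel_left, abs_mul, abs_of_pos hh]
    calc h * |u j| ≤ h * 1 := mul_le_mul_of_nonneg_left (hu j) hh.le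
      _ = h := mul_one _
  have h2 := Psi_le_of_dist Q h 2 hh (by norm_num) x c (fun j => by
    rw [abs_sub_comm]; exact hc j)
  have h0 := Psi_nonneg Q h x
  have h3 : ((1 : ℝ) + 2) ^ Q.totalDegree ≤ 3 ^ K := by
    rw [show (1 : ℝ) + 2 = 3 by norm_num]
    exact pow_le_pow_right₀ (by norm_num) hQ
  calc Psi Q h c ≤ (1 + 2) ^ Q.totalDegree * Psi Q h x := h2
    _ ≤ 3 ^ K * (KN m K * M) := mul_le_mul h3 h1 h0 (by positivity)

/-- Two polynomials with the same rounded coefficients are close near the cell. -/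
theorem near_of_coef {K P : ℕ} {Q Q' : MvPolynomial (Fin m) ℝ} (hQ : Q.totalDegree ≤ K)
    (hQ' : Q'.totalDegree ≤ K) {h : ℝ} (hh : 0 < h) {c b : Fin m → ℝ}
    (hf : ∀ i : Fin (nex m K), ⌊(2 : ℝ) ^ P * coeff (exi m K i) (shf Q h c)⌋ =
      ⌊(2 : ℝ) ^ P * coeff (exi m K i) (shf Q' h c)⌋) (hb : ∀ j, |b j - c j| ≤ 3 * h) :
    |eval b Q - eval b Q'| ≤ 3 ^ K * (nex m K * (1 / 2 ^ P)) := by
  have h2P : (0 : ℝ) < 2 ^ P := by positivity
  have hd : (Q - Q').totalDegree ≤ K := (totalDegree_sub _ _).trans (max_le hQ hQ')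
  have h1 : Psi (Q - Q') h c ≤ nex m K * (1 / 2 ^ P) := by
    unfold Psi
    rw [coefSum_eq_box _ K ((totalDegree_shf_le _ h c).trans hd), shf_sub']
    have h2 : ∀ α ∈ expBox (Fin m) K, |coeff α (shf Q h c - shf Q' h c)| ≤ 1 / 2 ^ P := by
      intro α hα
      have h3 := hf ((expBox (Fin m) K).equivFin ⟨α, hα⟩)
      have e1 : exi m K ((expBox (Fin m) K).equivFin ⟨α, hα⟩) = α := by
        unfold exi
        rw [Equiv.symm_apply_apply]
      rw [e1] at h3
      have h4 := Int.abs_sub_lt_one_of_floor_eq_floor h3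
      rw [← mul_sub, abs_mul, abs_of_pos h2P] at h4
      rw [coeff_sub, le_div_iff₀ h2P]
      linarith
    refine (Finset.sum_le_sum h2).trans ?_
    rw [Finset.sum_const, nsmul_eq_mul]
    rfl
  have h2 := abs_eval_le_Psi_of_near (Q - Q') (h * 3) (by positivity) c b (fun j => by
    rw [mul_comm h 3]; exact hb j)
  have h3 := Psi_radius_le (Q - Q') h 3 (by norm_num) c
  have h4 : (3 : ℝ) ^ (Q - Q').totalDegree ≤ 3 ^ K := pow_le_pow_right₀ (by norm_num) hd
  rw [map_sub] at h2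
  refine h2.trans (h3.trans ?_)
  exact mul_le_mul h4 h1 (Psi_nonneg _ _ _) (by positivity)

theorem floor_diff {x y B : ℝ} (h : |x - y| ≤ B) : |((⌊x⌋ - ⌊y⌋ : ℤ) : ℝ)| ≤ B + 1 := by
  have a1 := Int.floor_le x
  have a2 := Int.lt_floor_add_one x
  have b1 := Int.floor_le y
  have b2 := Int.lt_floor_add_one y
  rw [abs_le] at h ⊢
  push_cast
  constructor <;> linarith [h.1, h.2]

/-- The constant of visibility. -/
noncomputable def CV (m K : ℕ) : ℝ :=
  cc m + nex m K * Real.log (2 * (2 * (3 ^ K * KN m K) + 1) + 1)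

theorem cc_nonneg (m : ℕ) : 0 ≤ cc m := by
  unfold cc
  exact mul_nonneg (by positivity) (Real.log_nonneg (by norm_num))

theorem CV_nonneg (m K : ℕ) : 0 ≤ CV m K := by
  unfold CV
  have h1 := cc_nonneg m
  have h2 := one_le_KN m K
  have h3 : (0 : ℝ) ≤ 3 ^ K * KN m K := by positivity
  have h4 : 0 ≤ Real.log (2 * (2 * (3 ^ K * KN m K) + 1) + 1) := Real.log_nonneg (by linarith)
  positivity

/-- The label is visible from the exact point. -/
theorem zlab_vis (F : Fam m J) (i₁ : Fin m) {K w P r : ℕ} (hw : w ≤ J) (hr : r ≤ J)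
    (G : (Fin m → ℤ) × (ℕ × F.ζ) → MvPolynomial (Fin m) ℝ)
    (H : ((Fin m → ℝ) × (Fin m → ℝ)) × F.ζ × ℕ → MvPolynomial (Fin m) ℝ)
    (hG : ∀ y, (G y).totalDegree ≤ K) (hH : ∀ s, (H s).totalDegree ≤ K)
    (h3 : ∀ ω, 0 < F.p ω → ∀ b : Fin m → ℝ, (∀ j, |b j - bp F i₁ ω j| ≤ 1 / 2 ^ w) →
      |eval b (G (ptr F r ω)) - eval b (H (slam F w ω))| ≤ 1 / 2 ^ P) :
    CH F.p (zlab F i₁ K w P H) (Fam.pt F) ≤ CV m K := by
  have hp := F.isLaw.nonneg
  have h2P : (0 : ℝ) < 2 ^ P := by positivity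
  have h2w : (0 : ℝ) < 1 / 2 ^ w := by positivity
  obtain ⟨κ₂, hκ₂⟩ : ∃ κ₂ : F.Ω → Fin (nex m K) → ℤ, κ₂ = fun ω i => ⌊(2 : ℝ) ^ P *
    coeff (exi m K i) (shf (H (slam F w ω)) (1 / 2 ^ w) (cen i₁ w (F.c w ω)))⌋ := ⟨_, rfl⟩
  have h1 := CH_le_add hp (zlab F i₁ K w P H) (F.c w) (Fam.pt F)
  have h2 : CH F.p (F.c w) (Fam.pt F) ≤ cc m := Rows.CH_c_pt F hw
  have h4 : CH F.p (zlab F i₁ K w P H) (fun ω => (F.c w ω, Fam.pt F ω)) ≤
      CH F.p κ₂ (fun ω => (F.c w ω, Fam.pt F ω)) := by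
    refine CH_mono_left hp fun ω ω' _ _ e => ?_
    have e1 := Prod.ext_iff.mp e
    rw [hκ₂] at e1
    exact Prod.ext (Prod.ext_iff.mp e1.2).1 e1.1
  have coef : ∀ ω, 0 < F.p ω → ∀ i, |coeff (exi m K i) (shf (G (ptr F r ω)) (1 / 2 ^ w)
      (cen i₁ w (F.c w ω))) - coeff (exi m K i) (shf (H (slam F w ω)) (1 / 2 ^ w)
      (cen i₁ w (F.c w ω)))| ≤ 3 ^ K * (KN m K * (1 / 2 ^ P)) := by
    intro ω hω i
    have a1 := coef_near (K := K) (Q := G (ptr F r ω) - H (slam F w ω))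
      ((totalDegree_sub _ _).trans (max_le (hG _) (hH _))) h2w
      (fun b hb => by rw [map_sub]; exact h3 ω hω b hb) (near_cen F i₁ hw ω)
    rw [← coeff_sub, ← shf_sub']
    exact (abs_coeff_le _ _).trans a1
  have h5 := CH_le_vec hp F.isLaw.sum_one κ₂ (fun ω => (F.c w ω, Fam.pt F ω))
    (fun _ => 2 * (3 ^ K * KN m K) + 1) (by
      intro ω ω' p1 p2 e i
      have e1 := Prod.ext_iff.mp e
      have e2 : F.c w ω = F.c w ω' := e1.1
      have e3 : Fam.pt F ω = Fam.pt F ω' := e1.2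
      have e4 : ptr F r ω = ptr F r ω' := by
        obtain ⟨φ, hφ⟩ := ptr_coarse F hr
        rw [hφ ω, hφ ω', ptr_J, e3]
      have a1 := coef ω p1 i
      have a2 := coef ω' p2 i
      rw [← e4, ← e2] at a2
      rw [hκ₂]
      simp only
      rw [← e2]
      refine floor_diff ?_
      rw [← mul_sub, abs_mul, abs_of_pos h2P]
      have a3 : |coeff (exi m K i) (shf (H (slam F w ω)) (1 / 2 ^ w) (cen i₁ w (F.c w ω))) -
          coeff (exi m K i) (shf (H (slam F w ω')) (1 / 2 ^ w) (cen i₁ w (F.c w ω)))| ≤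
          2 * (3 ^ K * (KN m K * (1 / 2 ^ P))) := by
        rw [abs_le] at a1 a2 ⊢
        constructor <;> linarith [a1.1, a1.2, a2.1, a2.2]
      calc (2 : ℝ) ^ P * _ ≤ 2 ^ P * (2 * (3 ^ K * (KN m K * (1 / 2 ^ P)))) :=
            mul_le_mul_of_nonneg_left a3 h2P.le
        _ = 2 * (3 ^ K * KN m K) := by field_simp)
  rw [Ex_const F.isLaw.sum_one] at h5
  unfold CV
  linarith

end Pool.PB
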