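import Pool.Agent.H18.PB.EndLab
import Pool.Agent.H18.KQ.EndHyp
import Pool.Agent.H50.PW.Cover
import Pool.Agent.H50.PW.Implicit

/-!
# The end for one family
-/

set_option autoImplicit false

namespace Pool.PB

open Finset Real MvPolynomial
open Pool.Agent.H49.Ent Pool.Agent.H32.Dense Pool.STK Pool.KA Pool.KSAT Pool.K2S Pool.KA.TRC
open Pool.KAL Pool.KEND Pool.KQ

variable {m J : ℕ}

/-- The substitution: time in the slot `i₁`, translation by the cell. -/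
noncomputable def sbs (i₁ : Fin m) (t : ℝ) (v : Fin m → ℤ) (j : Fin m) : MvPolynomial (Fin m) ℝ :=
  if j = i₁ then C t else X j + C (v j : ℝ)

/-- The equation of the label. -/
noncomputable def eqn (i₁ : Fin m) (t : ℝ) (v : Fin m → ℤ) (H : MvPolynomial (Fin m) ℝ) :
    MvPolynomial (Fin m) ℝ := X i₁ + C (v i₁ : ℝ) - bind₁ (sbs i₁ t v) H

theorem totalDegree_sbs_le (i₁ : Fin m) (t : ℝ) (v : Fin m → ℤ) (j : Fin m) :
    (sbs i₁ t v j).totalDegree ≤ 1 := by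
  unfold sbs
  split_ifs
  · rw [totalDegree_C]; exact Nat.zero_le _
  · refine (totalDegree_add _ _).trans ?_
    rw [totalDegree_X, totalDegree_C]
    simp

theorem totalDegree_eqn_le {D : ℕ} (hD : 1 ≤ D) (i₁ : Fin m) (t : ℝ) (v : Fin m → ℤ)
    {H : MvPolynomial (Fin m) ℝ} (hH : H.totalDegree ≤ D) : (eqn i₁ t v H).totalDegree ≤ D := by
  unfold eqn
  refine (totalDegree_sub _ _).trans (max_le ?_ ?_)
  · refine (totalDegree_add _ _).trans ?_
    rw [totalDegree_X, totalDegree_C]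
    simpa using hD
  · exact (Pool.Agent.H50.PW.totalDegree_bind₁_le (sbs i₁ t v)
      (totalDegree_sbs_le i₁ t v) H).trans hH

theorem eval_eqn (i₁ : Fin m) (t : ℝ) (v : Fin m → ℤ) (H : MvPolynomial (Fin m) ℝ)
    (x : Fin m → ℝ) : eval x (eqn i₁ t v H) =
      x i₁ + v i₁ - eval (Function.update (fun j => x j + v j) i₁ t) H := by
  unfold eqn
  rw [map_sub, map_add, eval_X, eval_C]
  congr 1
  rw [Pool.Agent.H50.PW.eval_bind₁_eq]
  congr 2
  funext j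
  unfold sbs
  by_cases hj : j = i₁
  · subst hj
    rw [if_pos rfl, Function.update_self, eval_C]
  · rw [if_neg hj, Function.update_of_ne hj, map_add, eval_X, eval_C]

theorem pderiv_bind_zero (i₁ : Fin m) (f : Fin m → MvPolynomial (Fin m) ℝ)
    (hf : ∀ j, pderiv i₁ (f j) = 0) (H : MvPolynomial (Fin m) ℝ) :
    pderiv i₁ (bind₁ f H) = 0 := by
  induction H using MvPolynomial.induction_on with
  | C a => rw [bind₁_C_right, pderiv_C]
  | add p q hp hq => rw [map_add, map_add, hp, hq, add_zero]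
  | mul_X p j hp =>
    rw [map_mul, bind₁_X_right, Derivation.leibniz, hp, hf j]
    simp

theorem pderiv_eqn (i₁ : Fin m) (t : ℝ) (v : Fin m → ℤ) (H : MvPolynomial (Fin m) ℝ) :
    pderiv i₁ (eqn i₁ t v H) = 1 := by
  unfold eqn
  rw [map_sub, map_add, pderiv_X_self, pderiv_C, pderiv_bind_zero i₁ _ ?_ H]
  · simp
  · intro j
    unfold sbs
    by_cases hj : j = i₁
    · rw [if_pos hj, pderiv_C]
    · rw [if_neg hj, map_add, pderiv_C, pderiv_X_of_ne hj, add_zero]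

/-- A polynomial for each value of the label. -/
noncomputable def rep (F : Fam m J) (i₁ : Fin m) (K w P : ℕ)
    (H : ((Fin m → ℝ) × (Fin m → ℝ)) × F.ζ × ℕ → MvPolynomial (Fin m) ℝ)
    (v : ((ℕ × (Fin m → ℤ)) × F.ζ) × (Fin (nex m K) → ℤ)) : MvPolynomial (Fin m) ℝ :=
  open Classical in
  if h : ∃ ω, 0 < F.p ω ∧ zlab F i₁ K w P H ω = v then H (slam F w h.choose) else 0

theorem rep_spec (F : Fam m J) (i₁ : Fin m) (K w P : ℕ)
    (H : ((Fin m → ℝ) × (Fin m → ℝ)) × F.ζ × ℕ → MvPolynomial (Fin m) ℝ) {ω : F.Ω}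
    (hω : 0 < F.p ω) : ∃ ω', 0 < F.p ω' ∧ zlab F i₁ K w P H ω' = zlab F i₁ K w P H ω ∧
      rep F i₁ K w P H (zlab F i₁ K w P H ω) = H (slam F w ω') := by
  classical
  have h : ∃ ω', 0 < F.p ω' ∧ zlab F i₁ K w P H ω' = zlab F i₁ K w P H ω := ⟨ω, hω, rfl⟩
  refine ⟨h.choose, h.choose_spec.1, h.choose_spec.2, ?_⟩
  unfold rep
  rw [dif_pos h]

theorem rep_deg (F : Fam m J) (i₁ : Fin m) (K w P : ℕ)
    (H : ((Fin m → ℝ) × (Fin m → ℝ)) × F.ζ × ℕ → MvPolynomial (Fin m) ℝ)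
    (hH : ∀ s, (H s).totalDegree ≤ K) (v) : (rep F i₁ K w P H v).totalDegree ≤ K := by
  classical
  unfold rep
  split_ifs
  · exact hH _
  · rw [totalDegree_zero]; exact Nat.zero_le _

/-- The constant of the thickness. -/
noncomputable def Cθ (m K : ℕ) : ℝ := 3 + 2 * (m : ℝ) ^ 2 + 3 ^ K * nex m K

theorem one_le_Cθ (m K : ℕ) : 1 ≤ Cθ m K := by
  unfold Cθ
  have : (0 : ℝ) ≤ 3 ^ K * nex m K := by positivity
  nlinarith [sq_nonneg (m : ℝ)]

/-- The sample and the points near the sample lie on the graph of the label. -/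
theorem rep_near (F : Fam m J) (i₁ : Fin m) {K w P r : ℕ} (hw : w ≤ J) (hPJ : P ≤ J)
    (G : (Fin m → ℤ) × (ℕ × F.ζ) → MvPolynomial (Fin m) ℝ)
    (H : ((Fin m → ℝ) × (Fin m → ℝ)) × F.ζ × ℕ → MvPolynomial (Fin m) ℝ)
    (hH : ∀ s, (H s).totalDegree ≤ K) {ω : F.Ω} (hω : 0 < F.p ω)
    (h3 : |F.x ω i₁ - eval (bp F i₁ ω) (G (ptr F r ω))| ≤ 1 / 2 ^ P ∧
      ∀ b : Fin m → ℝ, (∀ j, |b j - bp F i₁ ω j| ≤ 1 / 2 ^ w) →
        (∀ j, |eval b (pderiv j (G (ptr F r ω)))| ≤ 2 * m) ∧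
        |eval b (G (ptr F r ω)) - eval b (H (slam F w ω))| ≤ 1 / 2 ^ P)
    {y : Fin m → ℝ} (hy : ∀ i, |y i - F.x ω i| ≤ 1 / 2 ^ J) :
    |y i₁ - eval (Function.update y i₁ (F.t ω)) (rep F i₁ K w P H (zlab F i₁ K w P H ω))| ≤
      Cθ m K * (1 / 2 ^ P) := by
  obtain ⟨ω', hω', hz, hrep⟩ := rep_spec F i₁ K w P H hω
  rw [hrep]
  obtain ⟨b', hb'⟩ : ∃ b', b' = Function.update y i₁ (F.t ω) := ⟨_, rfl⟩
  rw [← hb']
  have hJ1 : (1 : ℝ) / 2 ^ J ≤ 1 / 2 ^ w := inv_mono hw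
  have hJ2 : (1 : ℝ) / 2 ^ J ≤ 1 / 2 ^ P := inv_mono hPJ
  have hJ0 : (0 : ℝ) < 1 / 2 ^ J := by positivity
  have hP0 : (0 : ℝ) < 1 / 2 ^ P := by positivity
  have hbb : ∀ j, |b' j - bp F i₁ ω j| ≤ 1 / 2 ^ J := by
    intro j
    rw [hb']
    unfold bp
    by_cases hj : j = i₁
    · subst hj
      rw [Function.update_self, Function.update_self, sub_self, abs_zero]
      positivity
    · rw [Function.update_of_ne hj, Function.update_of_ne hj]
      exact hy j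
  obtain ⟨h4, h5⟩ := h3
  have hb1 : ∀ j, |b' j - bp F i₁ ω j| ≤ 1 / 2 ^ w := fun j => (hbb j).trans hJ1
  have s1 := hy i₁
  have s2 := mvt (G (ptr F r ω)) (x := bp F i₁ ω) (y := b') (h := 1 / 2 ^ w) (M := 2 * m)
    (r := 1 / 2 ^ J) (by positivity) (fun b hb => (h5 b hb).1) (by positivity) hJ1 hbb
  have s3 := (h5 b' hb1).2
  have hcen : F.c w ω' = F.c w ω := (Prod.ext_iff.mp hz).1
  have s4 : |eval b' (H (slam F w ω)) - eval b' (H (slam F w ω'))| ≤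
      3 ^ K * (nex m K * (1 / 2 ^ P)) := by
    refine near_of_coef (hH _) (hH _) (h := 1 / 2 ^ w) (by positivity)
      (c := cen i₁ w (F.c w ω)) (fun i => ?_) (fun j => ?_)
    · have e1 := congrFun (Prod.ext_iff.mp hz).2 i
      simp only [zlab] at e1
      rw [hcen] at e1
      exact e1.symm
    · have a1 := near_cen F i₁ hw ω j
      have a2 := hb1 j
      rw [abs_le] at a1 a2 ⊢
      constructor <;> linarith [a1.1, a1.2, a2.1, a2.2]
  obtain ⟨g1, hg1⟩ : ∃ g1, g1 = eval (bp F i₁ ω) (G (ptr F r ω)) := ⟨_, rfl⟩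
  obtain ⟨g2, hg2⟩ : ∃ g2, g2 = eval b' (G (ptr F r ω)) := ⟨_, rfl⟩
  obtain ⟨g3, hg3⟩ : ∃ g3, g3 = eval b' (H (slam F w ω)) := ⟨_, rfl⟩
  obtain ⟨g4, hg4⟩ : ∃ g4, g4 = eval b' (H (slam F w ω')) := ⟨_, rfl⟩
  rw [← hg1] at h4 s2
  rw [← hg2] at s2 s3
  rw [← hg3] at s3 s4
  rw [← hg4] at s4 ⊢
  have e1 : (m : ℝ) * (2 * m) * (1 / 2 ^ J) ≤ 2 * (m : ℝ) ^ 2 * (1 / 2 ^ P) := by
    have : (m : ℝ) * (2 * m) = 2 * (m : ℝ) ^ 2 := by ring
    rw [this]
    exact mul_le_mul_of_nonneg_left hJ2 (by positivity)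
  have e2 : Cθ m K * (1 / 2 ^ P) = 3 * (1 / 2 ^ P) + 2 * (m : ℝ) ^ 2 * (1 / 2 ^ P) +
      3 ^ K * (nex m K * (1 / 2 ^ P)) := by
    unfold Cθ
    ring
  rw [e2]
  rw [abs_le] at s1 h4 s2 s3 s4 ⊢
  constructor <;> linarith [s1.1, s1.2, h4.1, h4.2, s2.1, s2.2, s3.1, s3.2, s4.1, s4.2]

/-- The constant of the end. -/
noncomputable def CF (m K : ℕ) : ℝ :=
  KE m + CV m K + Real.log (CI m (K + 1)) + ((m : ℝ) - 1) * Real.log 3 + Real.log (Cθ m K) +
    cc m + 2 * (m * Real.log 3) + Real.log 2 + Real.log (KC m (K + 1))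

/-- **The end for one family.** -/
theorem end_one (F : Fam m J) (i₁ : Fin m) {K w P r : ℕ} (hw : 2 * w ≤ J) (hJ2 : 2 ≤ J)
    (hPJ : P ≤ J) (hr : r ≤ J)
    (G : (Fin m → ℤ) × (ℕ × F.ζ) → MvPolynomial (Fin m) ℝ)
    (H : ((Fin m → ℝ) × (Fin m → ℝ)) × F.ζ × ℕ → MvPolynomial (Fin m) ℝ)
    (hG : ∀ y, (G y).totalDegree ≤ K) (hH : ∀ s, (H s).totalDegree ≤ K)
    (h3 : ∀ ω, 0 < F.p ω → |F.x ω i₁ - eval (bp F i₁ ω) (G (ptr F r ω))| ≤ 1 / 2 ^ P ∧
      ∀ b : Fin m → ℝ, (∀ j, |b j - bp F i₁ ω j| ≤ 1 / 2 ^ w) →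
        (∀ j, |eval b (pderiv j (G (ptr F r ω)))| ≤ 2 * m) ∧
        |eval b (G (ptr F r ω)) - eval b (H (slam F w ω))| ≤ 1 / 2 ^ P)
    {e τ : ℝ} (he : F.Tm e) (he0 : 0 ≤ e)
    (hf : ((m : ℝ) - 1) * (((J : ℝ) - w) * Real.log 2) + ((J : ℝ) - P) * Real.log 2 ≤
      CH F.p (F.X J) (fun ω => (zlab F i₁ K w P H ω, F.W ω)) + τ) :
    F.V J ≤ m * (w * Real.log 2) + τ + (KE m + 2) * e + CF m K := by
  classical
  have hwJ : w ≤ J := by omega
  have hp := F.isLaw.nonneg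
  obtain ⟨z, hz⟩ : ∃ z, z = zlab F i₁ K w P H := ⟨_, rfl⟩
  have hzdet : Det F.p (slam F w) z := by
    intro ω ω' _ _ h
    rw [hz]
    have h1 : F.c w ω = F.c w ω' := by
      simp only [slam, Prod.mk.injEq, Fam.l] at h
      obtain ⟨⟨e1, e2⟩, e3, e4⟩ := h
      have : F.x1 w ω = F.x1 w ω' := by
        funext j
        unfold Fam.x1
        rw [e1, e2, e4]
      unfold Fam.c
      rw [this, e3, e4]
    unfold zlab
    rw [h, h1]
  -- visibility
  have hvis : CH F.p z (fun ω => (F.X J ω, F.W ω)) ≤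
      CH F.p z (fun ω => (F.l ω, F.W ω)) + CV m K := by
    have h1 := zlab_vis F i₁ hwJ hr G H hG hH (P := P) fun ω hω b hb => ((h3 ω hω).2 b hb).2
    have h2 := CH_nonneg hp z (fun ω => (F.l ω, F.W ω))
    rw [← hz] at h1
    have h4 : CH F.p z (fun ω => (F.X J ω, F.W ω)) = CH F.p z (Fam.pt F) := rfl
    linarith
  have hTm : (nrm F).Tm e := (nrm_Tm F).2 he
  have hz0 : CH (nrm F).p z (fun ω => ((nrm F).l ω, ((nrm F).T1 w ω, (nrm F).Z ω))) ≤ 0 := by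
    refine le_of_eq (CH_eq_zero hp fun ω ω' p1 p2 h => ?_)
    have h1 := Prod.ext_iff.mp h
    have h2 := Prod.ext_iff.mp h1.2
    have h4 := nrm_l_det F ω ω' p1 p2 (Prod.ext h1.1 h2.2)
    have h5 := Prod.ext_iff.mp h4
    refine hzdet ω ω' p1 p2 ?_
    exact Prod.ext h5.1 (Prod.ext h5.2 h2.1)
  have hT := time_label (nrm F) hwJ z hTm hz0
  rw [add_zero] at hT
  have h2J : (1 : ℝ) ≤ 2 ^ J := one_le_pow₀ (by norm_num)
  have hCθ := one_le_Cθ m K
  have hm1 : 1 ≤ m := by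
    have := i₁.2
    omega
  have hmr : (1 : ℝ) ≤ m := by exact_mod_cast hm1
  have key := end_hyp (nrm F) (g := w) hw hJ2 z (e := e) (e' := e) (s := CV m K)
    (τ := τ + Real.log (CI m (K + 1)) + ((m : ℝ) - 1) * Real.log 3 + Real.log (Cθ m K) +
      (m * Real.log 3 + cc m)) (η := 0) (r := 3 / 2 ^ w) (θ := Cθ m K * (1 / 2 ^ P)) hTm hT he0
    (nrm_vis F z hvis) (abs_nrm_u_le F) (fun _ => True)
    (by
      simp only [if_true]
      rw [Ex_const (nrm F).isLaw.sum_one])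
    (D := K + 1) (by omega)
    (fun c t => eqn i₁ ((t : ℝ) / 2 ^ J) c.2.2.1 (rep F i₁ K w P H c.1))
    (fun c t => totalDegree_eqn_le (by omega) i₁ _ _ ((rep_deg F i₁ K w P H hH c.1).trans
      (Nat.le_succ K)))
    (fun _ _ => i₁) (fun c _ i => (c.1.1.1.2 i : ℝ) / 2 ^ w - c.2.2.1 i) (fun _ _ => 1)
    (fun _ _ => one_pos) ?_ ?_ ?_ ?_
  · have h1 := V_le_nrm F he J
    unfold CF
    have h5 : (KE m + 2) * e = KE m * e + 2 * e := by ring
    have h6 : KE m * (e + 1) = KE m * e + KE m := by ring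
    rw [h6] at key
    simp only [mul_zero, zero_mul] at key
    linarith
  · -- `1 / 2 ^ J ≤ 3 / 2 ^ w`
    refine (inv_mono hwJ).trans ?_
    exact div_le_div_of_nonneg_right (by norm_num) (by positivity)
  · refine (inv_mono hPJ).trans ?_
    have : (0 : ℝ) < 1 / 2 ^ P := by positivity
    nlinarith
  · -- the sample
    intro ω hω _ x' hx'
    have hcel : ∀ i, (nrm F).x ω i = F.x ω i - cel F ω i := fun i => nrm_x F ω i
    have hlab1 : (Pool.KEND.lab (nrm F) w z ω).1 = z ω := rfl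
    have hlab2 : (Pool.KEND.lab (nrm F) w z ω).2.2.1 = cel F ω := rfl
    rw [hlab1, hlab2]
    have hy : ∀ i, |(fun i => x' i + (cel F ω i : ℝ)) i - F.x ω i| ≤ 1 / 2 ^ J := by
      intro i
      have h1 := hx' i
      rw [hcel] at h1
      have e1 : x' i + (cel F ω i : ℝ) - F.x ω i = x' i - (F.x ω i - cel F ω i) := by ring
      simp only
      rw [e1]
      exact h1
    refine ⟨fun i hi => ?_, ?_, ?_⟩
    · have h1 := near_cen F i₁ hwJ ω i
      have h2 := hy i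
      unfold bp cen at h1
      rw [Function.update_of_ne hi, if_neg hi] at h1
      have h4 : ((z ω).1.1.2 i : ℝ) = ((F.c w ω).1.2 i : ℝ) := by rw [hz]; rfl
      rw [h4]
      have h5 : (1 : ℝ) / 2 ^ J ≤ 1 / 2 ^ w := inv_mono hwJ
      have h6 : (3 : ℝ) / 2 ^ w = 3 * (1 / 2 ^ w) := by ring
      rw [h6]
      simp only at h2
      rw [abs_le] at h1 h2 ⊢
      constructor <;> linarith [h1.1, h1.2, h2.1, h2.2]
    · rw [eval_eqn, mul_one]
      have h1 := rep_near F i₁ hwJ hPJ G H hH hω (h3 ω hω) hy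
      rw [← hz] at h1
      exact h1
    · rw [pderiv_eqn, map_one, abs_one]
  · -- fullness
    have h1 := nrm_full F J z
    have h2 : CH F.p (cel F) (fun ω => (z ω, F.W ω)) ≤ m * Real.log 3 + cc m := by
      have a1 := CH_le_add hp (cel F) (F.X w) (fun ω => (z ω, F.W ω))
      have a2 := CH_cel_le F w (fun ω => (z ω, F.W ω))
      have a3 := Rows.CH_X_c F hwJ (fun ω => (z ω, F.W ω)) (by
        intro ω ω' _ _ h
        have b1 := (Prod.ext_iff.mp h).1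
        rw [hz] at b1
        exact (Prod.ext_iff.mp b1).1)
      linarith
    have h4 : Real.log (3 / 2 ^ w) = Real.log 3 - w * Real.log 2 := by
      rw [Real.log_div (by norm_num) (by positivity), Real.log_pow]
    have h5 : Real.log (Cθ m K * (1 / 2 ^ P)) = Real.log (Cθ m K) - P * Real.log 2 := by
      rw [Real.log_mul (by linarith) (by positivity), Real.log_div (by norm_num) (by positivity),
        Real.log_one, Real.log_pow]
      ring
    rw [h4, h5]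
    rw [← hz] at hf
    have h6 : CH F.p (F.X J) (fun ω => (z ω, F.W ω)) ≤
        CH (nrm F).p ((nrm F).X J) (fun ω => (z ω, (nrm F).W ω)) + (m * Real.log 3 + cc m) := by
      have : CH F.p ((nrm F).X J) (fun ω => (z ω, (nrm F).W ω)) =
        CH (nrm F).p ((nrm F).X J) (fun ω => (z ω, (nrm F).W ω)) := rfl
      linarith
    nlinarith [hf, h6]

end Pool.PB
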