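import Pool.Agent.H53.KSAT.FulPt
import Pool.Agent.H18.PB.Defs

/-!
# Fullness of the positions given a label of the windows

`z` is a label which is a function of the line and of the window of length `2 ^ (-w)`. If the
directions are nonconcentrated on planes of dimension `k` given the exact point and all labels,
then the positions have almost `k + 1` full dimensions given the label and the time. The deficit
is a multiple of the length of the blocks `g`, and of bounded errors in each block.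
-/

set_option autoImplicit false

namespace Pool.PB

open Finset Real
open Pool.Agent.H49.Ent Pool.Agent.H32.Dense Pool.STK Pool.KA Pool.KSAT Pool.K2S Pool.KA.TRC

variable {m J : ℕ}

open Rows in
/-- One block. -/
theorem row_full (F : Fam m J) {w' w'' : ℕ} (h : w' ≤ w'') (h' : w'' ≤ J) {e : ℝ}
    (he : F.Tm e) {κ β : Type} (z : F.Ω → κ) (b : F.Ω → β)
    (hb : Det F.p (fun ω => (F.l ω, F.Z ω, F.T1 w'' ω)) b)
    (hbz : Det F.p b (fun ω => (z ω, F.Z ω))) :
    CH F.p (F.X w'') (fun ω => (F.T1 w'' ω, F.X w' ω, b ω)) ≤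
      CH F.p (F.X w'') (fun ω => (F.X w' ω, (z ω, F.W ω))) + (e + 4 * cc m) := by
  have hp := F.isLaw.nonneg
  obtain ⟨B', hB'⟩ : ∃ B' : F.Ω → Fin m → ℤ, B' = fun ω => fl w' (F.x1 w'' ω) := ⟨_, rfl⟩
  have near : ∀ (ω : F.Ω) (k : Fin m), |(2 : ℝ) ^ w' * F.x1 w'' ω k - 2 ^ w' * F.x ω k| ≤ 1 := by
    intro ω k
    have h1 := x1_near F h' ω k
    have h2 : (2 : ℝ) ^ w'' = 2 ^ w' * 2 ^ (w'' - w') := by
      rw [← pow_add]; congr 1; omega
    rw [h2] at h1
    have h3 : (2 : ℝ) ^ w' * 2 ^ (w'' - w') * F.x1 w'' ω k - 2 ^ w' * 2 ^ (w'' - w') * F.x ω k =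
        2 ^ (w'' - w') * (2 ^ w' * F.x1 w'' ω k - 2 ^ w' * F.x ω k) := by ring
    rw [h3, abs_mul, abs_of_pos (by positivity : (0 : ℝ) < 2 ^ (w'' - w'))] at h1
    have h4 : (1 : ℝ) ≤ 2 ^ (w'' - w') := one_le_pow₀ (by norm_num)
    have h5 := abs_nonneg ((2 : ℝ) ^ w' * F.x1 w'' ω k - 2 ^ w' * F.x ω k)
    nlinarith
  have h1 := CH_X_x1 F h' (fun ω => (F.T1 w'' ω, F.X w' ω, b ω))
  have h2 := CH_le_add hp (fun ω => fl w'' (F.x1 w'' ω)) B'
    (fun ω => (F.T1 w'' ω, F.X w' ω, b ω))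
  have h2' : CH F.p B' (fun ω => (F.T1 w'' ω, F.X w' ω, b ω)) ≤ cc m := by
    have a1 := CH_le_round F.isLaw B' (F.X w') (fun ω => (F.T1 w'' ω, F.X w' ω, b ω))
      (fun ω ω' _ _ _ e k => by
        rw [hB']
        exact floor_close (A := 2 ^ w' * F.x ω k) (B := 2 ^ w' * F.x ω' k) (congrFun e k)
          (near ω k) (near ω' k))
    have a2 : CH F.p (F.X w') (fun ω => (F.T1 w'' ω, F.X w' ω, b ω)) = 0 := by
      refine CH_eq_zero hp fun ω ω' _ _ e => ?_
      exact (Prod.ext_iff.mp (Prod.ext_iff.mp e).2).1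
    linarith
  have h3 : CH F.p (fun ω => fl w'' (F.x1 w'' ω)) (fun ω => (B' ω, (F.T1 w'' ω, F.X w' ω, b ω))) ≤
      CH F.p (fun ω => fl w'' (F.x1 w'' ω)) (fun ω => (F.T1 w'' ω, B' ω, b ω)) := by
    refine CH_mono_cond hp fun ω ω' _ _ e => ?_
    have c1 := Prod.ext_iff.mp e
    have c2 := Prod.ext_iff.mp c1.2
    have c3 := Prod.ext_iff.mp c2.2
    exact Prod.ext c2.1 (Prod.ext c1.1 c3.2)
  have h4 := time_le F h' he (fun ω => fl w'' (F.x1 w'' ω)) (fun ω => (F.T1 w'' ω, B' ω, b ω))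
    (by
      intro ω ω' _ _ e
      simp only [Prod.mk.injEq, Fam.l] at e
      obtain ⟨⟨e1, e2⟩, e3, e4⟩ := e
      have : F.x1 w'' ω = F.x1 w'' ω' := by
        funext i
        unfold Fam.x1
        rw [e1, e2, e4]
      change fl w'' (F.x1 w'' ω) = fl w'' (F.x1 w'' ω')
      rw [this])
    (by
      intro ω ω' p1 p2 e
      have e0 := hb ω ω' p1 p2 e
      simp only [Prod.mk.injEq, Fam.l] at e
      obtain ⟨⟨e1, e2⟩, e3, e4⟩ := e
      have : F.x1 w'' ω = F.x1 w'' ω' := by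
        funext i
        unfold Fam.x1
        rw [e1, e2, e4]
      refine Prod.ext e4 (Prod.ext ?_ e0)
      rw [hB']
      change fl w' (F.x1 w'' ω) = fl w' (F.x1 w'' ω')
      rw [this])
    (by
      intro ω ω' _ _ e
      exact (Prod.ext_iff.mp e).1)
  have h5 := CH_x1_X F h' (fun ω => (F.T ω, (F.T1 w'' ω, B' ω, b ω)))
  have h6 := CH_le_add hp (F.X w'') (F.X w') (fun ω => (F.T ω, (F.T1 w'' ω, B' ω, b ω)))
  have h7 : CH F.p (F.X w') (fun ω => (F.T ω, (F.T1 w'' ω, B' ω, b ω))) ≤ cc m := by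
    have a1 := CH_le_round F.isLaw (F.X w') B' (fun ω => (F.T ω, (F.T1 w'' ω, B' ω, b ω)))
      (fun ω ω' _ _ _ e k => by
        rw [hB'] at e
        refine floor_close (A := 2 ^ w' * F.x1 w'' ω k) (B := 2 ^ w' * F.x1 w'' ω' k)
          (congrFun e k) ?_ ?_
        · rw [abs_sub_comm]; exact near ω k
        · rw [abs_sub_comm]; exact near ω' k)
    have a2 : CH F.p B' (fun ω => (F.T ω, (F.T1 w'' ω, B' ω, b ω))) = 0 := by
      refine CH_eq_zero hp fun ω ω' _ _ e => ?_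
      exact (Prod.ext_iff.mp (Prod.ext_iff.mp (Prod.ext_iff.mp e).2).2).1
    linarith
  have h8 : CH F.p (F.X w'') (fun ω => (F.X w' ω, (F.T ω, (F.T1 w'' ω, B' ω, b ω)))) ≤
      CH F.p (F.X w'') (fun ω => (F.X w' ω, (z ω, F.W ω))) := by
    refine CH_mono_cond hp fun ω ω' p1 p2 e => ?_
    have c1 := Prod.ext_iff.mp e
    have c2 := Prod.ext_iff.mp c1.2
    have c3 := Prod.ext_iff.mp c2.2
    have c4 := Prod.ext_iff.mp c3.2
    have c5 := Prod.ext_iff.mp (hbz ω ω' p1 p2 c4.2)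
    exact Prod.ext c1.1 (Prod.ext c5.1 (Prod.ext c2.1 c5.2))
  linarith

/-- Chain rule for the rows, given a label. -/
theorem rows_lab (F : Fam m J) {κ : Type} (Y : F.Ω → κ) (w g : ℕ) (R : ℕ) :
    ∑ r ∈ range R, CH F.p (F.X (w + r * g + 2 * g)) (fun ω => (F.X (w + r * g + g) ω, Y ω)) =
      CH F.p (F.X (w + (R + 1) * g)) (fun ω => (F.X (w + g) ω, Y ω)) := by
  have hp := F.isLaw.nonneg
  have h : ∀ w w' : ℕ, w ≤ w' → CH F.p (F.X w') (fun ω => (F.X w ω, Y ω)) =
      CH F.p (F.X w') Y - CH F.p (F.X w) Y := by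
    intro w w' hw
    have := Rows.chain_det hp (F.X w') (F.X w) Y fun ω ω' _ _ e => Pool.STK.B58.fl_fine hw e
    linarith
  induction R with
  | zero =>
    have e : w + (0 + 1) * g = w + g := by ring
    rw [Finset.sum_range_zero, e, h _ _ le_rfl, sub_self]
  | succ R ih =>
    have e1 : w + R * g + 2 * g = w + (R + 1 + 1) * g := by ring
    have e2 : w + R * g + g = w + (R + 1) * g := by ring
    have l1 : w + (R + 1) * g ≤ w + (R + 1 + 1) * g := by
      have : (R + 1) * g ≤ (R + 1 + 1) * g := Nat.mul_le_mul_right g (by omega)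
      omega
    have l2 : w + g ≤ w + (R + 1) * g := by
      have : 1 * g ≤ (R + 1) * g := Nat.mul_le_mul_right g (by omega)
      omega
    rw [Finset.sum_range_succ, ih, e1, e2, h _ _ l1, h _ _ l2, h _ _ (l2.trans l1)]
    ring

open Rows in
open Classical in
/-- **Fullness given a label.** -/
theorem full_lab (k : ℕ) : ∃ C : ℝ, 0 ≤ C ∧ ∀ (J : ℕ) (F : Fam (k + 2) J) (κ Λ : Type)
    (z : F.Ω → κ) (L : F.Ω → Λ) (w g h R : ℕ) (e ρ : ℝ),
    w + (R + 1) * g ≤ J → F.Tm e → Det F.p (slam F w) z →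
    Det F.p L z → (∀ r < R, Det F.p L (F.c (w + r * g))) → 2 ≤ h → (h + 3) * (k + 1) + h ≤ g →
    NonConc F.p F.d (fun ω => (Fam.pt F ω, L ω))
      (fun D (s : (Fin (k + 2) → ℝ) × (Fin k → Fin (k + 2) → ℝ)) =>
        ∃ c : Fin k → ℝ, ∀ j, |D j - s.1 j - ∑ i, c i * s.2 i j| ≤ 4 / 2 ^ h) ρ →
    R * ((k + 1) * (g * Real.log 2)) - 4 * (k + 2) ^ 2 * (g * Real.log 2) -
      R * ((k + 3) * e + (k + 2) ^ 2 * (g * Real.log 2) * ρ + C) - C ≤
      CH F.p (F.X J) (fun ω => (z ω, F.W ω)) := by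
  obtain ⟨C₀, hC₀, hful⟩ := Pool.KSAT.fulp (k + 2) k
  have hcc : 0 ≤ cc (k + 2) := by
    unfold cc
    exact mul_nonneg (by positivity) (Real.log_nonneg (by norm_num))
  refine ⟨C₀ + (2 * k + 8) * cc (k + 2), by positivity, ?_⟩
  intro J F κ Λ z L w g h R e ρ hJ hT hzs hLz hLc hh hg hnc
  have hp := F.isLaw.nonneg
  have hle : ∀ r < R, w + r * g + 2 * g ≤ J := by
    intro r hr
    have h1 : (r + 2) * g ≤ (R + 1) * g := Nat.mul_le_mul_right g (by omega)
    have h2 : (r + 2) * g = r * g + 2 * g := by ring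
    omega
  have hslam : ∀ v : ℕ, w ≤ v → v ≤ J → ∀ ω ω' : F.Ω, slam F v ω = slam F v ω' →
      slam F w ω = slam F w ω' ∧ F.c v ω = F.c v ω' := by
    intro v hwv hv ω ω' hs
    constructor
    · rw [slam_coarse F hwv hv ω, slam_coarse F hwv hv ω', hs]
    · simp only [slam, Prod.mk.injEq, Fam.l] at hs
      obtain ⟨⟨e1, e2⟩, e3, e4⟩ := hs
      have : F.x1 v ω = F.x1 v ω' := by
        funext j
        unfold Fam.x1
        rw [e1, e2, e4]
      unfold Fam.c
      rw [this, e3, e4]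
  have key := hful J F (fun _ => κ × ((ℕ × (Fin (k + 2) → ℤ)) × F.ζ))
    (fun _ => (Fin (k + 2) → ℤ) × ℕ) (fun r ω => (z ω, F.c (w + r * g) ω))
    (fun r ω => (F.X (w + r * g + 2 * g) ω, F.T1 (w + r * g + 2 * g) ω)) w g h R e ρ
    (2 * cc (k + 2)) hJ hT
    (by
      intro r hr ω ω' p1 p2 hs
      have h1 := hslam (w + r * g) (by omega) (by have := hle r hr; omega) ω ω' hs
      exact Prod.ext (hzs ω ω' p1 p2 h1.1) h1.2)
    (by
      intro r hr ω ω' _ _ hs
      have h1 := Prod.ext_iff.mp hs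
      exact ⟨h1.2, h1.1⟩)
    hh hg
    (by
      intro r hr ω hω v B
      have hdet : Det F.p (fun ω => (Fam.pt F ω, L ω)) (fun ω => ((z ω, F.c (w + r * g) ω),
          (F.X (w + r * g + 2 * g) ω, F.T1 (w + r * g + 2 * g) ω))) := by
        intro ω ω' p1 p2 hs
        have h1 := Prod.ext_iff.mp hs
        have h2 : F.X J ω = F.X J ω' ∧ F.W ω = F.W ω' := Prod.ext_iff.mp h1.1
        have h3 : F.T ω = F.T ω' := (Prod.ext_iff.mp h2.2).1
        refine Prod.ext (Prod.ext (hLz ω ω' p1 p2 h1.2) (hLc r hr ω ω' p1 p2 h1.2))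
          (Prod.ext (Pool.STK.B58.fl_fine (hle r hr) h2.1) ?_)
        change F.T1 (w + r * g + 2 * g) ω = F.T1 (w + r * g + 2 * g) ω'
        unfold Fam.T1
        rw [h3]
      exact (hnc.coarse F.isLaw hdet).cond_le F.isLaw hω (v, B))
    (by
      intro r hr
      have e0 : w + (r + 2) * g = w + r * g + 2 * g := by ring
      have hl := hle r hr
      have a1 := CH_subadd hp (F.c (w + r * g)) (F.X (w + r * g + 2 * g))
        (fun ω => (z ω, F.c (w + (r + 2) * g) ω))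
      have a2 : CH F.p (F.c (w + r * g)) (fun ω => (z ω, F.c (w + (r + 2) * g) ω)) ≤
          cc (k + 2) := by
        refine le_trans (CH_mono_cond hp (W := F.c (w + (r + 2) * g)) ?_) ?_
        · intro ω ω' _ _ hs
          exact (Prod.ext_iff.mp hs).2
        · rw [e0]
          exact CH_c_c F (by omega) hl
      have a3 := CH_X_c F hl (fun ω => (z ω, F.c (w + (r + 2) * g) ω)) (by
        intro ω ω' _ _ hs
        rw [← e0]
        exact (Prod.ext_iff.mp hs).2)
      have a4 : CH F.p (fun ω => ((z ω, F.c (w + r * g) ω),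
          (F.X (w + r * g + 2 * g) ω, F.T1 (w + r * g + 2 * g) ω)))
          (fun ω => (z ω, F.c (w + (r + 2) * g) ω)) ≤
          CH F.p (fun ω => (F.c (w + r * g) ω, F.X (w + r * g + 2 * g) ω))
          (fun ω => (z ω, F.c (w + (r + 2) * g) ω)) := by
        refine CH_mono_left hp fun ω ω' _ _ hs => ?_
        have c1 := Prod.ext_iff.mp hs
        have c2 := Prod.ext_iff.mp c1.1
        have c3 := Prod.ext_iff.mp c1.2
        have c4 : F.T1 (w + (r + 2) * g) ω = F.T1 (w + (r + 2) * g) ω' :=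
          (Prod.ext_iff.mp (Prod.ext_iff.mp c3.2).1).1
        rw [e0] at c4
        exact Prod.ext (Prod.ext c3.1 c2.1) (Prod.ext c2.2 c4)
      linarith)
  -- the information on the direction
  have hD : ∀ r : ℕ, CH F.p (F.D (2 * g)) (fun ω => (z ω, F.c (w + r * g) ω)) ≤
      (k + 2) * (2 * (g * Real.log 2)) + cc (k + 2) := by
    intro r
    have h1 := CH_D_le F (2 * g) (fun ω => (z ω, F.c (w + r * g) ω))
    push_cast at h1
    linarith
  have hD0 := hD 0
  have hD1 := hD 1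
  -- the rows
  have hrow : ∀ r ∈ range R, CH F.p (F.X (w + r * g + 2 * g))
      (fun ω => (F.T1 (w + r * g + 2 * g) ω, F.X (w + r * g + g) ω, (z ω, F.c (w + r * g) ω))) ≤
      CH F.p (F.X (w + r * g + 2 * g)) (fun ω => (F.X (w + r * g + g) ω, (z ω, F.W ω))) +
        (e + 4 * cc (k + 2)) := by
    intro r hr
    rw [Finset.mem_range] at hr
    have hl := hle r hr
    refine row_full F (by omega) hl hT z (fun ω => (z ω, F.c (w + r * g) ω)) ?_ ?_
    · intro ω ω' p1 p2 hs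
      simp only [Prod.mk.injEq] at hs
      obtain ⟨e1, e2, e3⟩ := hs
      have e4 : slam F (w + r * g + 2 * g) ω = slam F (w + r * g + 2 * g) ω' := by
        unfold slam
        rw [e1, e2, e3]
      have h1 := hslam (w + r * g + 2 * g) (by omega) hl ω ω' e4
      have e5 : slam F (w + r * g) ω = slam F (w + r * g) ω' := by
        rw [slam_coarse F (show w + r * g ≤ w + r * g + 2 * g by omega) hl ω,
          slam_coarse F (show w + r * g ≤ w + r * g + 2 * g by omega) hl ω', e4]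
      have h2 := hslam (w + r * g) (by omega) (by omega) ω ω' e5
      exact Prod.ext (hzs ω ω' p1 p2 h1.1) h2.2
    · intro ω ω' _ _ hs
      have h1 := Prod.ext_iff.mp hs
      exact Prod.ext h1.1 (Prod.ext_iff.mp h1.2).2
  have hsum := Finset.sum_le_sum hrow
  rw [Finset.sum_add_distrib, rows_lab F (fun ω => (z ω, F.W ω)) w g R, Finset.sum_const,
    Finset.card_range, nsmul_eq_mul] at hsum
  -- the last row
  have hlast : CH F.p (F.X (w + (R + 1) * g)) (fun ω => (F.X (w + g) ω, (z ω, F.W ω))) ≤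
      CH F.p (F.X J) (fun ω => (z ω, F.W ω)) := by
    refine le_trans (CH_mono_cond hp ?_) (CH_mono_left hp ?_)
    · intro ω ω' _ _ hs
      exact (Prod.ext_iff.mp hs).2
    · intro ω ω' _ _ hs
      exact Pool.STK.B58.fl_fine hJ (Prod.ext_iff.mp hs).1
  rw [Finset.sum_sub_distrib, Finset.sum_const, Finset.card_range, nsmul_eq_mul] at key
  obtain ⟨S, hS⟩ : ∃ S, S = ∑ r ∈ range R, CH F.p (F.X (w + r * g + 2 * g))
      (fun ω => (F.T1 (w + r * g + 2 * g) ω, F.X (w + r * g + g) ω, (z ω, F.c (w + r * g) ω))) :=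
    ⟨_, rfl⟩
  rw [← hS] at hsum key
  obtain ⟨D0, hD0'⟩ : ∃ D0, D0 = CH F.p (F.D (2 * g)) (fun ω => (z ω, F.c (w + 0 * g) ω)) :=
    ⟨_, rfl⟩
  obtain ⟨D1, hD1'⟩ : ∃ D1, D1 = CH F.p (F.D (2 * g)) (fun ω => (z ω, F.c (w + 1 * g) ω)) :=
    ⟨_, rfl⟩
  rw [← hD0'] at key hD0
  rw [← hD1'] at key hD1
  obtain ⟨c, hc⟩ : ∃ c, c = cc (k + 2) := ⟨_, rfl⟩
  rw [← hc] at key hD0 hD1 hsum hcc ⊢
  have hk : (0 : ℝ) ≤ k := Nat.cast_nonneg k
  have hR : (0 : ℝ) ≤ R := Nat.cast_nonneg R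
  have f1 : ((k : ℝ) + 2) * (D0 + D1) ≤ (k + 2) * (2 * ((k + 2) * (2 * (g * Real.log 2)) + c)) :=
    mul_le_mul_of_nonneg_left (by linarith) (by linarith)
  have f2 : (R : ℝ) * C₀ + R * ((2 * k + 8) * c) = R * (C₀ + (2 * k + 8) * c) := by ring
  have f3 : (0 : ℝ) ≤ (2 * k + 8) * c := by positivity
  have f4 : (0 : ℝ) ≤ k * c := by positivity
  nlinarith [key, f1, hsum, hlast, hC₀, f3, f4]

end Pool.PB
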