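import Mathlib

/-!
# The choice of the row: combinatorial part

A bounded nonnegative function on `[0, N)` with a large mean on the tail. For some level of a
chain of scales there is a zone with few bad blocks and a Pliss time in its upper half.
-/

set_option autoImplicit false

namespace Pool.PB

open Finset

/-- Block sums: the block `j` of length `n`. -/
def bs (D : ℕ → ℝ) (n j : ℕ) : ℝ := ∑ r ∈ range n, D (j * n + r)

/-- The energy of the averages over `Q` blocks of length `n`. -/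
noncomputable def WW (D : ℕ → ℝ) (n Q : ℕ) : ℝ := ∑ j ∈ range Q, bs D n j ^ 2 / n

theorem bs_Ico (D : ℕ → ℝ) (n j : ℕ) : bs D n j = ∑ r ∈ Ico (j * n) ((j + 1) * n), D r := by
  unfold bs
  rw [Finset.sum_Ico_eq_sum_range]
  congr 1
  have : (j + 1) * n - j * n = n := by
    rw [Nat.add_mul, Nat.one_mul]; omega
  rw [this]

theorem sum_bs (D : ℕ → ℝ) (l : ℕ) : ∀ s : ℕ, ∑ r ∈ range (s * l), D r = ∑ i ∈ range s, bs D l i
  | 0 => by simp
  | s + 1 => by
    rw [Finset.sum_range_succ, ← sum_bs D l s, Nat.add_mul, Nat.one_mul, Finset.sum_range_add]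
    rfl

theorem bs_split (D : ℕ → ℝ) (s l j : ℕ) : bs D (s * l) j = ∑ i ∈ range s, bs D l (j * s + i) := by
  unfold bs
  have h := sum_bs (fun r => D (j * (s * l) + r)) l s
  rw [h]
  refine Finset.sum_congr rfl fun i _ => ?_
  unfold bs
  refine Finset.sum_congr rfl fun r _ => ?_
  have e : j * (s * l) + (i * l + r) = (j * s + i) * l + r := by ring
  rw [← e]

/-- The variance in one zone. -/
theorem var_zone {s : ℕ} {l : ℝ} (hl : 0 < l) (hs : 0 < s) (b : ℕ → ℝ) :
    ∑ i ∈ range s, b i ^ 2 / l - (∑ i ∈ range s, b i) ^ 2 / (s * l) =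
      ∑ i ∈ range s, (b i - (∑ i ∈ range s, b i) / s) ^ 2 / l := by
  have hs' : (0 : ℝ) < s := by exact_mod_cast hs
  obtain ⟨S, hS⟩ : ∃ S, S = ∑ i ∈ range s, b i := ⟨_, rfl⟩
  rw [← hS]
  have h1 : ∀ i ∈ range s, (b i - S / s) ^ 2 / l =
      b i ^ 2 / l - 2 * S / (s * l) * b i + (S / s) ^ 2 / l := fun i _ => by
    field_simp
    ring
  rw [Finset.sum_congr rfl h1, Finset.sum_add_distrib, Finset.sum_sub_distrib, ← Finset.mul_sum,
    ← hS, Finset.sum_const, Finset.card_range, nsmul_eq_mul]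
  field_simp
  ring

theorem WW_sub {D : ℕ → ℝ} {s l Q : ℕ} (hl : 0 < l) (hs : 0 < s) :
    WW D l (Q * s) - WW D (s * l) Q =
      ∑ j ∈ range Q, ∑ i ∈ range s, (bs D l (j * s + i) - bs D (s * l) j / s) ^ 2 / l := by
  have hl' : (0 : ℝ) < l := by exact_mod_cast hl
  unfold WW
  rw [sum_bs (fun j => bs D l j ^ 2 / (l : ℝ)) s Q, ← Finset.sum_sub_distrib]
  refine Finset.sum_congr rfl fun j _ => ?_
  have h := var_zone (s := s) hl' hs (fun i => bs D l (j * s + i))
  rw [← bs_split] at h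
  rw [← h]
  unfold bs
  push_cast
  rfl

theorem WW_mono {D : ℕ → ℝ} {s l Q : ℕ} (hl : 0 < l) (hs : 0 < s) :
    WW D (s * l) Q ≤ WW D l (Q * s) := by
  have h := WW_sub (D := D) (Q := Q) hl hs
  have h0 : 0 ≤ ∑ j ∈ range Q, ∑ i ∈ range s,
      (bs D l (j * s + i) - bs D (s * l) j / s) ^ 2 / (l : ℝ) :=
    Finset.sum_nonneg fun j _ => Finset.sum_nonneg fun i _ => by positivity
  linarith only [h, h0]

theorem bs_nonneg {D : ℕ → ℝ} (h0 : ∀ r, 0 ≤ D r) (n j : ℕ) : 0 ≤ bs D n j :=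
  Finset.sum_nonneg fun _ _ => h0 _

theorem bs_le {D : ℕ → ℝ} {B : ℝ} (h1 : ∀ r, D r ≤ B) (n j : ℕ) : bs D n j ≤ n * B := by
  unfold bs
  refine (Finset.sum_le_card_nsmul _ _ B fun _ _ => h1 _).trans (le_of_eq ?_)
  rw [Finset.card_range, nsmul_eq_mul]

theorem WW_le {D : ℕ → ℝ} {B : ℝ} (h0 : ∀ r, 0 ≤ D r) (h1 : ∀ r, D r ≤ B) {n Q : ℕ}
    (hn : 0 < n) : WW D n Q ≤ (Q * n : ℕ) * B ^ 2 := by
  have hn' : (0 : ℝ) < n := by exact_mod_cast hn
  unfold WW
  refine (Finset.sum_le_card_nsmul _ _ (n * B ^ 2) fun j _ => ?_).trans (le_of_eq ?_)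
  · rw [div_le_iff₀ hn']
    have a1 := bs_nonneg h0 n j
    have a2 := bs_le h1 n j
    calc bs D n j ^ 2 ≤ (n * B) ^ 2 := pow_le_pow_left₀ a1 a2 2
      _ = n * B ^ 2 * n := by ring
  · rw [Finset.card_range, nsmul_eq_mul]
    push_cast
    ring

theorem WW_nonneg (D : ℕ → ℝ) (n Q : ℕ) : 0 ≤ WW D n Q :=
  Finset.sum_nonneg fun _ _ => by positivity

/-- A level with a small variance. -/
theorem exists_level {D : ℕ → ℝ} {B : ℝ} (h0 : ∀ r, 0 ≤ D r) (h1 : ∀ r, D r ≤ B) {M N : ℕ}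
    (hM : 0 < M) (Z s t n : ℕ → ℕ) (hZ : ∀ k < M, Z (k + 1) = Z k * s k * t k)
    (hn : ∀ k ≤ M, N = Z k * n k) (ht : ∀ k < M, 0 < t k)
    (hZ0 : ∀ k ≤ M, 0 < Z k) (hN : 0 < N) :
    ∃ k < M, ∃ l, N = Z k * s k * l ∧ 0 < l ∧
      WW D l (Z k * s k) - WW D (s k * l) (Z k) ≤ N * B ^ 2 / M := by
  have hn0 : ∀ k ≤ M, 0 < n k := fun k hk => by
    rcases Nat.eq_zero_or_pos (n k) with h | h
    · have := hn k hk
      rw [h] at this
      omega
    · exact h
  have hnk : ∀ k < M, n k = s k * (t k * n (k + 1)) := fun k hk => by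
    have e1 := hn k hk.le
    have e2 := hn (k + 1) hk
    rw [hZ k hk] at e2
    have e3 : Z k * n k = Z k * (s k * (t k * n (k + 1))) := by
      rw [← e1, e2]; ring
    exact Nat.eq_of_mul_eq_mul_left (hZ0 k hk.le) e3
  by_contra hcon
  push Not at hcon
  have hk : ∀ k ∈ range M, N * B ^ 2 / M < WW D (n (k + 1)) (Z (k + 1)) - WW D (n k) (Z k) := by
    intro k hk
    rw [Finset.mem_range] at hk
    have hl : 0 < t k * n (k + 1) := Nat.mul_pos (ht k hk) (hn0 (k + 1) hk)
    have a1 := hcon k hk (t k * n (k + 1)) (by rw [hn k hk.le, hnk k hk]; ring) hl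
    have a2 := WW_mono (D := D) (Q := Z k * s k) (hn0 (k + 1) hk) (ht k hk)
    rw [← hZ k hk] at a2
    rw [← hnk k hk] at a1
    linarith only [a1, a2]
  have h2 := Finset.sum_lt_sum_of_nonempty (Finset.nonempty_range_iff.2 (by omega)) hk
  rw [Finset.sum_range_sub (fun k => WW D (n k) (Z k)), Finset.sum_const, Finset.card_range,
    nsmul_eq_mul] at h2
  have h3 := WW_le h0 h1 (Q := Z M) (hn0 M le_rfl)
  rw [← hn M le_rfl] at h3
  have h4 := WW_nonneg D (n 0) (Z 0)
  have hMr : (0 : ℝ) < M := by exact_mod_cast hM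
  have h5 : (M : ℝ) * (N * B ^ 2 / M) = N * B ^ 2 := by field_simp
  linarith only [h2, h3, h4, h5]

/-- Irregular zones are rare. -/
theorem irregular {D : ℕ → ℝ} {V γ δ : ℝ} (hγ : 0 < γ) {Z s l : ℕ} (hs : 0 < s)
    (hl : 0 < l) (hV : WW D l (Z * s) - WW D (s * l) Z ≤ V) (I : Finset ℕ)
    (hI : ∀ j ∈ I, j < Z ∧ 2 * γ * (s * l) ≤ bs D (s * l) j ∧
      δ * s ≤ (((range s).filter fun i => bs D l (j * s + i) < γ * l).card : ℝ)) :
    (I.card : ℝ) * (δ * s * (γ ^ 2 * l)) ≤ V := by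
  have hl' : (0 : ℝ) < l := by exact_mod_cast hl
  have hs' : (0 : ℝ) < s := by exact_mod_cast hs
  rw [WW_sub hl hs] at hV
  refine le_trans ?_ hV
  have h1 : (I.card : ℝ) * (δ * s * (γ ^ 2 * l)) ≤ ∑ j ∈ I, ∑ i ∈ range s,
      (bs D l (j * s + i) - bs D (s * l) j / s) ^ 2 / l := by
    rw [← nsmul_eq_mul]
    refine Finset.card_nsmul_le_sum _ _ _ fun j hj => ?_
    obtain ⟨-, h2, h3⟩ := hI j hj
    have h4 : ∑ i ∈ (range s).filter (fun i => bs D l (j * s + i) < γ * l), γ ^ 2 * l ≤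
        ∑ i ∈ range s, (bs D l (j * s + i) - bs D (s * l) j / s) ^ 2 / (l : ℝ) := by
      refine le_trans (Finset.sum_le_sum fun i hi => ?_)
        (Finset.sum_le_sum_of_subset_of_nonneg (Finset.filter_subset _ _)
          fun i _ _ => by positivity)
      have h5 := (Finset.mem_filter.1 hi).2
      have h6 : 2 * γ * l ≤ bs D (s * l) j / s := by
        rw [le_div_iff₀ hs']
        linarith only [h2]
      rw [le_div_iff₀ hl']
      have h7 : γ * l ≤ bs D (s * l) j / s - bs D l (j * s + i) := by linarith only [h5, h6]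
      have h8 : 0 < γ * l := by positivity
      nlinarith only [h5, h6, h8]
    rw [Finset.sum_const, nsmul_eq_mul] at h4
    refine le_trans ?_ h4
    exact mul_le_mul_of_nonneg_right h3 (by positivity)
  refine h1.trans (Finset.sum_le_sum_of_subset_of_nonneg ?_ fun j _ _ =>
    Finset.sum_nonneg fun i _ => by positivity)
  intro j hj
  exact Finset.mem_range.2 (hI j hj).1

/-- In an interval inside a zone with few bad blocks. -/
theorem inside {D : ℕ → ℝ} {γ β : ℝ} (h0 : ∀ r, 0 ≤ D r) (hγ : 0 < γ) {s l j u v : ℕ}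
    (hl : 0 < l) (hu : j * (s * l) ≤ u) (hv : v ≤ (j + 1) * (s * l))
    (hb : (((range s).filter fun i => bs D l (j * s + i) < γ * l).card : ℝ) ≤ β) :
    γ * ((v : ℝ) - u - 2 * l - β * l) ≤ ∑ r ∈ Ico u v, D r := by
  have hl' : (0 : ℝ) < l := by exact_mod_cast hl
  have hβ : 0 ≤ β := le_trans (Nat.cast_nonneg _) hb
  have hS0 : 0 ≤ ∑ r ∈ Ico u v, D r := Finset.sum_nonneg fun r _ => h0 r
  by_cases hsmall : (v : ℝ) - u - 2 * l - β * l ≤ 0
  · refine le_trans ?_ hS0
    nlinarith only [hγ, hsmall]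
  push Not at hsmall
  have hβl : 0 ≤ β * l := by positivity
  have huv : (u : ℝ) + 2 * l < v := by linarith only [hsmall, hβl]
  have huv' : u + 2 * l < v := by exact_mod_cast huv
  -- the blocks inside
  obtain ⟨i₁, hi₁⟩ : ∃ i₁, i₁ = (u + l - 1) / l := ⟨_, rfl⟩
  obtain ⟨i₂, hi₂⟩ : ∃ i₂, i₂ = v / l := ⟨_, rfl⟩
  have a1 : u ≤ i₁ * l := by
    rw [hi₁]
    have := Nat.lt_div_mul_add hl (a := u + l - 1)
    omega
  have a2 : i₁ * l ≤ u + l := by
    rw [hi₁]
    have := Nat.div_mul_le_self (u + l - 1) l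
    omega
  have a3 : i₂ * l ≤ v := by rw [hi₂]; exact Nat.div_mul_le_self v l
  have a4 : v < i₂ * l + l := by
    rw [hi₂]
    exact Nat.lt_div_mul_add hl
  have a5 : j * s ≤ i₁ := by
    by_contra h
    push Not at h
    have : (i₁ + 1) * l ≤ j * s * l := Nat.mul_le_mul_right l h
    have e : j * s * l = j * (s * l) := by ring
    rw [Nat.add_mul, Nat.one_mul] at this
    rw [hi₁] at this
    have h2 := Nat.lt_div_mul_add hl (a := u + l - 1)
    omega
  have a6 : i₂ ≤ (j + 1) * s := by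
    have : i₂ * l ≤ (j + 1) * s * l := by
      have e : (j + 1) * s * l = (j + 1) * (s * l) := by ring
      omega
    exact Nat.le_of_mul_le_mul_right this hl
  have a7 : i₁ ≤ i₂ := by
    have : i₁ * l < (i₂ + 1) * l := by
      rw [Nat.add_mul, Nat.one_mul]; omega
    have := Nat.lt_of_mul_lt_mul_right this
    omega
  -- the sum over the blocks
  have h1 : ∀ n : ℕ, ∑ r ∈ Ico (i₁ * l) ((i₁ + n) * l), D r =
      ∑ i ∈ range n, bs D l (i₁ + i) := by
    intro n
    induction n with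
    | zero => simp
    | succ n ih =>
      rw [Finset.sum_range_succ, ← ih, bs_Ico,
        Finset.sum_Ico_consecutive _ (Nat.mul_le_mul_right l (by omega))
          (Nat.mul_le_mul_right l (by omega))]
      rfl
  have h2 : ∑ i ∈ range (i₂ - i₁), bs D l (i₁ + i) ≤ ∑ r ∈ Ico u v, D r := by
    rw [← h1]
    have e : i₁ + (i₂ - i₁) = i₂ := by omega
    rw [e]
    refine Finset.sum_le_sum_of_subset_of_nonneg (Finset.Ico_subset_Ico a1 a3) fun r _ _ => h0 r
  refine le_trans ?_ h2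
  -- good blocks
  have h3 : ∑ i ∈ range (i₂ - i₁), (γ * l - if bs D l (i₁ + i) < γ * l then γ * l else 0) ≤
      ∑ i ∈ range (i₂ - i₁), bs D l (i₁ + i) := by
    refine Finset.sum_le_sum fun i _ => ?_
    split_ifs with h
    · rw [sub_self]; exact bs_nonneg h0 _ _
    · push Not at h
      linarith only [h]
  refine le_trans ?_ h3
  rw [Finset.sum_sub_distrib, Finset.sum_const, Finset.card_range, nsmul_eq_mul,
    ← Finset.sum_filter, Finset.sum_const, nsmul_eq_mul]
  have h4 : (((range (i₂ - i₁)).filter fun i => bs D l (i₁ + i) < γ * l).card : ℝ) ≤ β := by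
    refine le_trans ?_ hb
    have : ((range (i₂ - i₁)).filter fun i => bs D l (i₁ + i) < γ * l).card ≤
        ((range s).filter fun i => bs D l (j * s + i) < γ * l).card := by
      refine Finset.card_le_card_of_injOn (fun i => i₁ + i - j * s) ?_ ?_
      · intro i hi
        simp only [Finset.coe_filter, Finset.mem_range, Set.mem_ofPred_eq] at hi ⊢
        have e : j * s + (i₁ + i - j * s) = i₁ + i := by omega
        rw [e]
        have e2 : (j + 1) * s = j * s + s := by ring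
        exact ⟨by omega, hi.2⟩
      · intro i _ i' _ h
        simp only at h
        omega
    exact_mod_cast this
  have h5 : ((i₂ - i₁ : ℕ) : ℝ) * l ≥ (v : ℝ) - u - 2 * l := by
    rw [Nat.cast_sub a7]
    have b2 : (i₁ : ℝ) * l ≤ u + l := by exact_mod_cast a2
    have b4 : (v : ℝ) < i₂ * l + l := by exact_mod_cast a4
    nlinarith only [b2, b4]
  have h6 : (((range (i₂ - i₁)).filter fun i => bs D l (i₁ + i) < γ * l).card : ℝ) * (γ * l) ≤
      β * (γ * l) := mul_le_mul_of_nonneg_right h4 (by positivity)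
  have h7 : γ * ((v : ℝ) - u - 2 * l) ≤ γ * (((i₂ - i₁ : ℕ) : ℝ) * l) :=
    mul_le_mul_of_nonneg_left h5 hγ.le
  nlinarith only [h6, h7]

/-- Pliss: a point of an interval such that all forward sums are nonnegative. -/
theorem pliss (f : ℕ → ℝ) {a b e : ℕ} (hab : a ≤ b) (hbe : b ≤ e) :
    ∃ p, a ≤ p ∧ p ≤ b ∧ (∀ p', p ≤ p' → p' ≤ b → 0 ≤ ∑ r ∈ Ico p p', f r) ∧
      (∀ p', b ≤ p' → p' ≤ e → ∑ r ∈ Ico a p', f r ≤ ∑ r ∈ Ico p p', f r) := by
  obtain ⟨p, hp, hmax⟩ := Finset.exists_max_image (Icc a b) (fun p => ∑ r ∈ Ico p e, f r)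
    ⟨a, Finset.mem_Icc.2 ⟨le_rfl, hab⟩⟩
  rw [Finset.mem_Icc] at hp
  refine ⟨p, hp.1, hp.2, fun p' h1 h2 => ?_, fun p' h1 h2 => ?_⟩
  · have h3 := hmax p' (Finset.mem_Icc.2 ⟨hp.1.trans h1, h2⟩)
    have h4 := Finset.sum_Ico_consecutive f h1 (h2.trans hbe)
    linarith only [h3, h4]
  · have h3 := hmax a (Finset.mem_Icc.2 ⟨le_rfl, hab⟩)
    have h4 := Finset.sum_Ico_consecutive f (hp.2.trans h1) h2
    have h5 := Finset.sum_Ico_consecutive f (hab.trans h1) h2
    linarith only [h3, h4, h5]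

/-- The zone. -/
theorem exists_zone {D : ℕ → ℝ} {B γ x δ V : ℝ} (h0 : ∀ r, 0 ≤ D r) (h1 : ∀ r, D r ≤ B)
    (hγ : 0 < γ) (hγB : γ ≤ B) (hx : 0 < x) (hx1 : x ≤ 1) (hδ : 0 < δ) {N Z s l : ℕ}
    (hs : 0 < s) (hl : 0 < l) (hN : N = Z * s * l) (hZx : 2 ≤ x * Z)
    (hV : WW D l (Z * s) - WW D (s * l) Z ≤ V)
    (hV1 : 256 * B * V ≤ x * Z * (δ * s * (γ ^ 3 * l)))
    (htail : ∀ p : ℕ, (1 - x) * N ≤ p → (p : ℝ) ≤ (1 - x / 2) * N →
      γ * ((N : ℝ) - p) ≤ ∑ r ∈ Ico p N, D r) :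
    ∃ j < Z, (1 - x) * Z ≤ j ∧ γ * x / (8 * B) * Z ≤ (Z : ℝ) - j ∧
      (((range s).filter fun i => bs D l (j * s + i) < γ / 8 * l).card : ℝ) ≤ δ * s ∧
      ∀ i, j < i → i ≤ Z → (γ / 4 * ((i : ℝ) - j) - B) * (s * l : ℕ) ≤
        ∑ r ∈ Ico ((j + 1) * (s * l)) (i * (s * l)), D r := by
  classical
  have hB : 0 < B := lt_of_lt_of_le hγ hγB
  have hl' : (0 : ℝ) < l := by exact_mod_cast hl
  have hs' : (0 : ℝ) < s := by exact_mod_cast hs
  have hz : 0 < s * l := Nat.mul_pos hs hl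
  have hz' : (0 : ℝ) < (s * l : ℕ) := by exact_mod_cast hz
  have hZr : (0 : ℝ) < Z := by
    by_contra h
    push Not at h
    have : x * Z ≤ 0 := by nlinarith only [hZx, h, hx1]
    linarith only [hZx, this]
  have hNr : (N : ℝ) = Z * (s * l : ℕ) := by rw [hN]; push_cast; ring
  obtain ⟨I, hI⟩ : ∃ I, I = (range Z).filter (fun j => 2 * (γ / 8) * (s * l) ≤ bs D (s * l) j ∧
      δ * s < (((range s).filter fun i => bs D l (j * s + i) < γ / 8 * l).card : ℝ)) := ⟨_, rfl⟩
  have hIc := irregular (γ := γ / 8) (δ := δ) (by positivity) hs hl hV I (fun j hj => by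
    rw [hI, Finset.mem_filter, Finset.mem_range] at hj
    exact ⟨hj.1, hj.2.1, hj.2.2.le⟩)
  have hIB : B * I.card ≤ γ * x / 4 * Z := by
    have e1 : (I.card : ℝ) * (δ * s * ((γ / 8) ^ 2 * l)) * (256 * B) ≤
        x * Z * (δ * s * (γ ^ 3 * l)) := by
      refine le_trans ?_ hV1
      have := mul_le_mul_of_nonneg_right hIc (by positivity : 0 ≤ 256 * B)
      linarith only [this]
    have e2 : 0 < δ * s * (γ ^ 2 * l) := by positivity
    have e3 : (B * I.card) * (4 * (δ * s * (γ ^ 2 * l))) ≤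
        (γ * x / 4 * Z) * (4 * (δ * s * (γ ^ 2 * l))) := by
      have e4 : (B * I.card) * (4 * (δ * s * (γ ^ 2 * l))) =
        (I.card : ℝ) * (δ * s * ((γ / 8) ^ 2 * l)) * (256 * B) := by ring
      have e5 : (γ * x / 4 * Z) * (4 * (δ * s * (γ ^ 2 * l))) =
        x * Z * (δ * s * (γ ^ 3 * l)) := by ring
      rw [e4, e5]
      exact e1
    exact le_of_mul_le_mul_right e3 (by positivity)
  -- zone averages
  obtain ⟨A, hA⟩ : ∃ A : ℕ → ℝ, A = fun j => if j ∈ I then 0 else bs D (s * l) j / (s * l : ℕ) :=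
    ⟨_, rfl⟩
  have hA0 : ∀ j, 0 ≤ A j := fun j => by
    rw [hA]
    simp only
    split_ifs
    · exact le_rfl
    · exact div_nonneg (bs_nonneg h0 _ _) hz'.le
  have hA1 : ∀ j, A j ≤ B := fun j => by
    rw [hA]
    simp only
    split_ifs
    · exact hB.le
    · rw [div_le_iff₀ hz']
      have := bs_le h1 (s * l) j
      linarith only [this]
  have hA2 : ∀ j, A j * (s * l : ℕ) ≤ bs D (s * l) j := fun j => by
    rw [hA]
    simp only
    split_ifs
    · rw [zero_mul]; exact bs_nonneg h0 _ _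
    · rw [div_mul_cancel₀ _ hz'.ne']
  -- the sum over zones
  have hzs : ∀ a b : ℕ, a ≤ b → ∑ r ∈ Ico (a * (s * l)) (b * (s * l)), D r =
      ∑ j ∈ Ico a b, bs D (s * l) j := by
    intro a b hab
    obtain ⟨n, rfl⟩ := Nat.exists_eq_add_of_le hab
    clear hab
    induction n with
    | zero => simp
    | succ n ih =>
      have e1 : a + (n + 1) = a + n + 1 := rfl
      rw [e1, Finset.sum_Ico_succ_top (by omega), ← ih, bs_Ico,
        Finset.sum_Ico_consecutive _ (Nat.mul_le_mul_right _ (by omega))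
          (Nat.mul_le_mul_right _ (by omega))]
  obtain ⟨j₀, hj₀⟩ : ∃ j₀, j₀ = ⌈(1 - x) * Z⌉₊ := ⟨_, rfl⟩
  have h1x : 0 ≤ (1 - x) * Z := mul_nonneg (by linarith only [hx1]) hZr.le
  have hj1 : (1 - x) * Z ≤ j₀ := by rw [hj₀]; exact Nat.le_ceil _
  have hj2 : (j₀ : ℝ) < (1 - x) * Z + 1 := by rw [hj₀]; exact Nat.ceil_lt_add_one h1x
  have hj3 : (x / 2) * Z ≤ (Z : ℝ) - j₀ := by linarith only [hZx, hj2]
  have hj4 : j₀ ≤ Z := by
    have : (j₀ : ℝ) ≤ Z := by
      have : 0 ≤ (x / 2) * Z := by positivity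
      linarith only [hZx, hj2]
    exact_mod_cast this
  have ht := htail (j₀ * (s * l)) (by
      rw [hNr]
      push_cast
      have := mul_le_mul_of_nonneg_right hj1 hz'.le
      push_cast at this
      linarith only [this]) (by
      rw [hNr]
      have := mul_le_mul_of_nonneg_right hj3 hz'.le
      push_cast at this ⊢
      linarith only [this])
  have hNn : N = Z * (s * l) := by rw [hN]; ring
  rw [hNn, hzs j₀ Z hj4] at ht
  have hsumA : γ / 2 * ((Z : ℝ) - j₀) ≤ ∑ j ∈ Ico j₀ Z, A j := by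
    have e1 : ∑ j ∈ Ico j₀ Z, bs D (s * l) j ≤
        ∑ j ∈ Ico j₀ Z, (A j * (s * l : ℕ) + if j ∈ I then B * (s * l : ℕ) else 0) := by
      refine Finset.sum_le_sum fun j _ => ?_
      rw [hA]
      simp only
      split_ifs
      · have := bs_le h1 (s * l) j
        linarith only [this]
      · rw [div_mul_cancel₀ _ hz'.ne', add_zero]
    have e2 : ∑ j ∈ Ico j₀ Z, (if j ∈ I then B * (s * l : ℕ) else 0) ≤
        I.card * (B * (s * l : ℕ)) := by
      rw [← Finset.sum_filter, Finset.sum_const, nsmul_eq_mul]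
      refine mul_le_mul_of_nonneg_right ?_ (by positivity)
      have : ((Ico j₀ Z).filter fun j => j ∈ I).card ≤ I.card :=
        Finset.card_le_card fun j hj => (Finset.mem_filter.1 hj).2
      exact_mod_cast this
    rw [Finset.sum_add_distrib, ← Finset.sum_mul] at e1
    push_cast at ht e1 e2 hz'
    have e3 : γ * ((Z : ℝ) - j₀) * (s * l) ≤
        (∑ j ∈ Ico j₀ Z, A j) * (s * l) + I.card * B * (s * l) := by linarith only [ht, e1, e2]
    have e4 : γ * ((Z : ℝ) - j₀) ≤ (∑ j ∈ Ico j₀ Z, A j) + I.card * B := by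
      have e5 : (γ * ((Z : ℝ) - j₀)) * ((s : ℝ) * l) ≤
        ((∑ j ∈ Ico j₀ Z, A j) + I.card * B) * ((s : ℝ) * l) := by linarith only [ht, e1, e2]
      exact le_of_mul_le_mul_right e5 hz'
    have e6 : γ * x / 4 * Z ≤ γ / 2 * ((Z : ℝ) - j₀) := by
      have := mul_le_mul_of_nonneg_left hj3 (by positivity : 0 ≤ γ / 2)
      linarith only [this]
    linarith only [hIB, e4, e6]
  -- Pliss
  obtain ⟨j, k1, k2, k3, k4⟩ := pliss (fun j => A j - γ / 4) hj4 (le_refl Z)
  have k5 := k4 Z le_rfl le_rfl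
  rw [Finset.sum_sub_distrib, Finset.sum_const, nsmul_eq_mul, Nat.card_Ico,
    Nat.cast_sub hj4] at k5
  have hdiff : 0 < (Z : ℝ) - j₀ := lt_of_lt_of_le (by positivity) hj3
  have k6 : γ / 4 * ((Z : ℝ) - j₀) ≤ ∑ r ∈ Ico j Z, (A r - γ / 4) := by linarith only [hsumA, k5]
  have hjZ : j < Z := by
    rcases Nat.lt_or_ge j Z with h | h
    · exact h
    · have e : j = Z := by omega
      rw [e, Finset.Ico_self, Finset.sum_empty] at k6
      have : 0 < γ / 4 * ((Z : ℝ) - j₀) := by positivity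
      linarith only [k6, this]
  have k7 : ∑ r ∈ Ico j Z, (A r - γ / 4) ≤ ((Z : ℝ) - j) * B := by
    refine (Finset.sum_le_card_nsmul _ _ B fun r _ => ?_).trans (le_of_eq ?_)
    · have := hA1 r
      linarith only [hγ, this]
    · rw [Nat.card_Ico, nsmul_eq_mul, Nat.cast_sub k2]
  have k8 := k3 (j + 1) (by omega) hjZ
  rw [Nat.Ico_succ_singleton, Finset.sum_singleton] at k8
  have hjI : j ∉ I := by
    intro h
    have : A j = 0 := by rw [hA]; simp only; rw [if_pos h]
    linarith only [hγ, k8, this]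
  refine ⟨j, hjZ, hj1.trans (by exact_mod_cast k1), ?_, ?_, ?_⟩
  · rw [div_mul_eq_mul_div, div_le_iff₀ (by positivity)]
    have := mul_le_mul_of_nonneg_left hj3 (by positivity : 0 ≤ γ / 4)
    linarith only [hsumA, k5, k7, this]
  · by_contra hcon
    push Not at hcon
    refine hjI ?_
    rw [hI, Finset.mem_filter, Finset.mem_range]
    refine ⟨hjZ, ?_, hcon⟩
    have := hA2 j
    push_cast at this hz'
    have h2 : γ / 4 * (s * l) ≤ A j * (s * l) := mul_le_mul_of_nonneg_right (by linarith only [k8]) hz'.le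
    linarith only [this, h2]
  · intro i hi hiZ
    rw [hzs (j + 1) i hi]
    have e1 : ∑ j ∈ Ico (j + 1) i, A j * (s * l : ℕ) ≤ ∑ j ∈ Ico (j + 1) i, bs D (s * l) j :=
      Finset.sum_le_sum fun j _ => hA2 j
    refine le_trans ?_ e1
    rw [← Finset.sum_mul]
    refine mul_le_mul_of_nonneg_right ?_ hz'.le
    have e2 := k3 i hi.le hiZ
    rw [Finset.sum_sub_distrib, Finset.sum_const, nsmul_eq_mul, Nat.card_Ico,
      Nat.cast_sub hi.le] at e2
    have e3 := Finset.sum_Ico_consecutive A (Nat.le_succ j) (Nat.succ_le_of_lt hi)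
    rw [Nat.succ_eq_add_one, Nat.Ico_succ_singleton, Finset.sum_singleton] at e3
    have := hA1 j
    linarith only [e2, e3, this]

/-- The Pliss time in the upper half of the zone. -/
theorem exists_row {D : ℕ → ℝ} {B γ x δ : ℝ} (h0 : ∀ r, 0 ≤ D r)
    (hγ : 0 < γ) (hγB : γ ≤ B) (hδ1 : δ ≤ 1 / 64) {N Z s l j : ℕ}
    (hs : 16 ≤ s) (hl : 16 ≤ l) (hN : N = Z * s * l) (hjZ : j < Z)
    (hX : γ * x / (8 * B) * Z ≤ (Z : ℝ) - j)
    (hb : (((range s).filter fun i => bs D l (j * s + i) < γ / 8 * l).card : ℝ) ≤ δ * s)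
    (hz : ∀ i, j < i → i ≤ Z → (γ / 4 * ((i : ℝ) - j) - B) * (s * l : ℕ) ≤
        ∑ r ∈ Ico ((j + 1) * (s * l)) (i * (s * l)), D r) :
    ∃ p : ℕ, (p : ℝ) + γ * x / (32 * B) * N ≤ N ∧ (2 * j + 1) * (s * l) ≤ 2 * p ∧
      p + 2 * l ≤ (j + 1) * (s * l) ∧
      (∀ p', p ≤ p' → p' ≤ N → γ ^ 2 / (4096 * B) * ((p' : ℝ) - p) ≤ ∑ r ∈ Ico p p', D r) ∧
      (∀ p₀, 2 * (p - p₀) = s * l →
        γ ^ 2 / (4096 * B) * ((p : ℝ) - p₀) ≤ ∑ r ∈ Ico p₀ p, D r) := by
  have hB : 0 < B := lt_of_lt_of_le hγ hγB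
  obtain ⟨z, hzl⟩ : ∃ z, z = s * l := ⟨_, rfl⟩
  rw [← hzl] at hz ⊢
  have hz16 : 16 * l ≤ z := by rw [hzl]; exact Nat.mul_le_mul_right l hs
  have hz256 : 256 ≤ z := by omega
  have hzr : (256 : ℝ) ≤ z := by exact_mod_cast hz256
  have hzlr : 16 * (l : ℝ) ≤ z := by exact_mod_cast hz16
  have hNz : N = Z * z := by rw [hN, hzl]; ring
  obtain ⟨c, hc⟩ : ∃ c, c = γ ^ 2 / (4096 * B) := ⟨_, rfl⟩
  rw [← hc]
  have hc0 : 0 < c := by rw [hc]; positivity
  have hc1 : c ≤ γ / 4096 := by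
    rw [hc, div_le_div_iff₀ (by positivity) (by norm_num)]
    nlinarith only [hγ, hγB]
  have hβ : δ * s * l ≤ z / 64 := by
    have h1 : (z : ℝ) = s * l := by rw [hzl]; push_cast; ring
    have h2 : (0 : ℝ) ≤ s * l := by positivity
    rw [h1]
    nlinarith only [hδ1, h1]
  obtain ⟨lo, hlo⟩ : ∃ lo, lo = j * z + (z + 1) / 2 := ⟨_, rfl⟩
  obtain ⟨hi, hhi⟩ : ∃ hi, hi = j * z + 3 * z / 4 := ⟨_, rfl⟩
  have hj1 : (j + 1) * z = j * z + z := by ring
  have hj2 : (2 * j + 1) * z = 2 * (j * z) + z := by ring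
  have hlohi : lo ≤ hi := by omega
  have hhiN : hi ≤ N := by
    have : (j + 1) * z ≤ Z * z := Nat.mul_le_mul_right z hjZ
    rw [hNz]
    omega
  -- between `lo` and `hi`
  have hmid : γ * z / 128 ≤ ∑ r ∈ Ico lo hi, D r := by
    have h1 := inside (D := D) (γ := γ / 8) (β := δ * s) h0 (by positivity) (s := s) (l := l)
      (j := j) (u := lo) (v := hi) (by omega) (by rw [← hzl]; omega) (by rw [← hzl]; omega) hb
    refine le_trans ?_ h1
    have h2 : (lo : ℝ) ≤ j * z + z / 2 + 1 / 2 := by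
      have : 2 * lo ≤ 2 * (j * z) + z + 1 := by omega
      have : 2 * (lo : ℝ) ≤ 2 * (j * z) + z + 1 := by exact_mod_cast this
      linarith only [this]
    have h3 : (j : ℝ) * z + 3 * z / 4 - 1 ≤ hi := by
      have : 4 * (j * z) + 3 * z ≤ 4 * hi + 3 := by omega
      have : 4 * ((j : ℝ) * z) + 3 * z ≤ 4 * hi + 3 := by exact_mod_cast this
      linarith only [this]
    have h4 : (z : ℝ) / 16 ≤ (hi : ℝ) - lo - 2 * l - δ * s * l := by linarith only [hzr, hzlr, hβ, h2, h3]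
    have := mul_le_mul_of_nonneg_left h4 (by positivity : 0 ≤ γ / 8)
    linarith only [this]
  obtain ⟨p, k1, k2, k3, k4⟩ := pliss (fun r => D r - c) hlohi hhiN
  refine ⟨p, ?_, by omega, by omega, fun p' hp hp' => ?_, fun p₀ hp₀ => ?_⟩
  · -- `p + X N ≤ N`
    have h1 : (p : ℝ) ≤ j * z + 3 * z / 4 := by
      have : 4 * p ≤ 4 * (j * z) + 3 * z := by omega
      have : 4 * (p : ℝ) ≤ 4 * (j * z) + 3 * z := by exact_mod_cast this
      linarith only [this]
    have h2 : (N : ℝ) = Z * z := by rw [hNz]; push_cast; ring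
    have h3 : (1 : ℝ) ≤ (Z : ℝ) - j := by
      have : j + 1 ≤ Z := hjZ
      have : (j : ℝ) + 1 ≤ Z := by exact_mod_cast this
      linarith only [this]
    have h4 : γ * x / (32 * B) * Z ≤ ((Z : ℝ) - j) / 4 := by
      have : γ * x / (32 * B) * Z = (γ * x / (8 * B) * Z) / 4 := by
        field_simp
        ring
      rw [this]
      linarith only [hX]
    have h5 : γ * x / (32 * B) * Z * z ≤ ((Z : ℝ) - j) / 4 * z :=
      mul_le_mul_of_nonneg_right h4 (by linarith only [hzr])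
    rw [h2]
    nlinarith only [h1, h5, h3]
  · -- forward
    have hsum : ∑ r ∈ Ico p p', D r = ∑ r ∈ Ico p p', (D r - c) + c * ((p' : ℝ) - p) := by
      rw [Finset.sum_sub_distrib, Finset.sum_const, nsmul_eq_mul, Nat.card_Ico, Nat.cast_sub hp]
      ring
    rw [hsum]
    by_cases hph : p' ≤ hi
    · have := k3 p' hp hph
      linarith only [this]
    push Not at hph
    have k5 := k4 p' hph.le hp'
    have hlop : lo ≤ p' := by omega
    have hgoal : c * ((p' : ℝ) - lo) ≤ ∑ r ∈ Ico lo p', D r := by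
      obtain ⟨i, hi'⟩ : ∃ i, i = p' / z := ⟨_, rfl⟩
      have hzpos : 0 < z := by omega
      have i1 : i * z ≤ p' := by rw [hi']; exact Nat.div_mul_le_self p' z
      have i2 : p' < i * z + z := by rw [hi']; exact Nat.lt_div_mul_add hzpos
      have i3 : j ≤ i := by
        by_contra h
        push Not at h
        have : (i + 1) * z ≤ j * z := Nat.mul_le_mul_right z h
        rw [Nat.add_mul, Nat.one_mul] at this
        omega
      have i4 : i ≤ Z := by
        have : i * z ≤ Z * z := by omega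
        exact Nat.le_of_mul_le_mul_right this hzpos
      have hlow : (p' : ℝ) - lo ≤ ((i : ℝ) - j + 1) * z := by
        have a1 : (p' : ℝ) ≤ i * z + z := by exact_mod_cast i2.le
        have a2 : (j : ℝ) * z ≤ lo := by
          have : j * z ≤ lo := by omega
          exact_mod_cast this
        nlinarith only [a1, a2]
      have hs1 : γ * z / 128 ≤ ∑ r ∈ Ico lo p', D r := by
        refine hmid.trans (Finset.sum_le_sum_of_subset_of_nonneg
          (Finset.Ico_subset_Ico le_rfl hph.le) fun r _ _ => h0 r)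
      have hij : (0 : ℝ) ≤ (i : ℝ) - j := by
        have : (j : ℝ) ≤ i := by exact_mod_cast i3
        linarith only [this]
      have hz0 : (0 : ℝ) < z := by linarith only [hzr]
      refine (mul_le_mul_of_nonneg_left hlow hc0.le).trans ?_
      by_cases hn : ((i : ℝ) - j + 1) * γ ≤ 32 * B
      · refine le_trans ?_ hs1
        have h5 : c * ((i : ℝ) - j + 1) ≤ γ / 128 := by
          rw [hc, div_mul_eq_mul_div, div_le_div_iff₀ (by positivity) (by norm_num)]
          have := mul_le_mul_of_nonneg_left hn (by positivity : 0 ≤ γ * 128)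
          nlinarith only [this]
        have := mul_le_mul_of_nonneg_right h5 hz0.le
        linarith only [this]
      · push Not at hn
        have hi1 : j < i := by
          rcases Nat.lt_or_ge j i with h | h
          · exact h
          · have e : i = j := by omega
            rw [e] at hn
            nlinarith only [hγB, hc0, hc1, hn]
        have h6 := hz i hi1 i4
        have h7 : ∑ r ∈ Ico ((j + 1) * z) (i * z), D r ≤ ∑ r ∈ Ico lo p', D r :=
          Finset.sum_le_sum_of_subset_of_nonneg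
            (Finset.Ico_subset_Ico (by omega) i1) fun r _ _ => h0 r
        refine le_trans ?_ (h6.trans h7)
        have hij1 : (1 : ℝ) ≤ (i : ℝ) - j := by
          have : j + 1 ≤ i := hi1
          have : (j : ℝ) + 1 ≤ i := by exact_mod_cast this
          linarith only [this]
        have h8 : c * ((i : ℝ) - j + 1) ≤ γ / 4 * ((i : ℝ) - j) - B := by
          have h9 : c * ((i : ℝ) - j + 1) ≤ γ / 4096 * ((i : ℝ) - j + 1) :=
            mul_le_mul_of_nonneg_right hc1 (by linarith only [hij1])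
          nlinarith only [hγB, hc0, hc1, hn, h9]
        have := mul_le_mul_of_nonneg_right h8 hz0.le
        linarith only [this]
    have hsum2 : ∑ r ∈ Ico lo p', D r = ∑ r ∈ Ico lo p', (D r - c) + c * ((p' : ℝ) - lo) := by
      rw [Finset.sum_sub_distrib, Finset.sum_const, nsmul_eq_mul, Nat.card_Ico,
        Nat.cast_sub hlop]
      ring
    linarith only [k5, hgoal, hsum2]
  · -- the half zone
    have h1 : p₀ + z / 2 ≤ p ∧ p ≤ p₀ + z / 2 := by omega
    have h2 := inside (D := D) (γ := γ / 8) (β := δ * s) h0 (by positivity) (s := s) (l := l)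
      (j := j) (u := p₀) (v := p) (by omega) (by rw [← hzl]; omega) (by rw [← hzl]; omega) hb
    refine le_trans ?_ h2
    have h3 : (p : ℝ) - p₀ = z / 2 := by
      have : 2 * p = 2 * p₀ + z := by omega
      have : 2 * (p : ℝ) = 2 * p₀ + z := by exact_mod_cast this
      linarith only [this]
    rw [h3]
    have h4 : c * (z / 2) ≤ γ / 4096 * (z / 2) := mul_le_mul_of_nonneg_right hc1 (by linarith only [hzr])
    have h5 : (z : ℝ) / 4 ≤ z / 2 - 2 * l - δ * s * l := by linarith only [hzr, hzlr, hβ]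
    have := mul_le_mul_of_nonneg_left h5 (by positivity : 0 ≤ γ / 8)
    nlinarith

end Pool.PB
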