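import Pool.Agent.H18.PB.Row
import Pool.Agent.H18.PB.Skel2

/-!
# The choice of the row, for classes of families
-/

set_option autoImplicit false

namespace Pool.PB

open Finset Real
open Pool.Agent.H49.Ent Pool.Agent.H32.Dense Pool.STK Pool.KA Pool.KSAT Pool.K2S

variable {m J : ℕ}

/-- The tail of maximal families is not full. -/
theorem tls_mx {a R : ℝ} (ha : 1 < a) (hR : 0 < R) (hU : UBa m a R) : TLS (FCl.mx m a R) := by
  refine ⟨R / a, by positivity, fun η hη => ?_⟩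
  obtain ⟨τ, hτ, J₁, htail⟩ := tail_thm aop m ha.le hU hη
  exact Clg.of hτ J₁ fun J hJ F A hS P h1 h2 => htail J hJ F A (st_mx.1 hS) P h1 h2

/-- **(ROW)** -/
theorem row_cls {S : FCl m} (hT : TLS S) : ROWS S := by
  classical
  intro x₀ hx₀
  obtain ⟨ra, hra, htl₀⟩ := hT
  have hl2 : 0 < Real.log 2 := Real.log_pos (by norm_num)
  obtain ⟨x, hx⟩ : ∃ x, x = min x₀ (1 / 4) := ⟨_, rfl⟩
  have hx0 : 0 < x := by rw [hx]; exact lt_min hx₀ (by norm_num)
  have hxx : x ≤ x₀ := by rw [hx]; exact min_le_left _ _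
  have hxh : x ≤ 1 / 4 := by rw [hx]; exact min_le_right _ _
  obtain ⟨B, hB⟩ : ∃ B : ℝ, B = m + 1 := ⟨_, rfl⟩
  have hB1 : 1 ≤ B := by rw [hB]; linarith only [(Nat.cast_nonneg m : (0 : ℝ) ≤ m)]
  obtain ⟨γ, hγ⟩ : ∃ γ, γ = min (ra / (2 * Real.log 2)) 1 := ⟨_, rfl⟩
  have hγ0 : 0 < γ := by rw [hγ]; exact lt_min (by positivity) one_pos
  have hγB : γ ≤ B := by rw [hγ]; exact (min_le_right _ _).trans hB1
  have hγR : γ * Real.log 2 ≤ ra / 2 := by
    have h1 : γ ≤ ra / (2 * Real.log 2) := by rw [hγ]; exact min_le_left _ _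
    rw [le_div_iff₀ (by positivity)] at h1 ⊢
    linarith only [h1]
  have hB0 : 0 < B := by linarith only [hx0, hxh, hB]
  refine ⟨γ ^ 2 / (4096 * B), γ * x / (32 * B), by positivity, by positivity,
    ⌈2 / x⌉₊ + 1, by omega, fun δ₀ hδ₀ => ?_⟩
  obtain ⟨δ, hδ⟩ : ∃ δ, δ = min δ₀ (1 / 64) := ⟨_, rfl⟩
  have hδ0 : 0 < δ := by rw [hδ]; exact lt_min hδ₀ (by norm_num)
  have hδδ : δ ≤ δ₀ := by rw [hδ]; exact min_le_left _ _
  have hδh : δ ≤ 1 / 64 := by rw [hδ]; exact min_le_right _ _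
  obtain ⟨M, hM⟩ := exists_nat_gt (256 * B ^ 3 / (x * δ * γ ^ 3))
  have hM0r : (0 : ℝ) < M := lt_of_le_of_lt (by positivity) hM
  have hM0 : 0 < M := by exact_mod_cast hM0r
  rw [div_lt_iff₀ (by positivity)] at hM
  refine ⟨M, fun σ ρ hσ hρ hρ1 => ⟨16, fun L hL N hN => ?_⟩⟩
  have hσ0 : ∀ Z, 0 < σ Z := fun Z => by
    have := hσ Z
    omega
  have hck := chn_pos hσ0 hρ
  have hN0 : 0 < N := by
    rw [hN]
    have := hck M
    have : 0 < L := by omega
    positivity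
  have hNr : (0 : ℝ) < N := by exact_mod_cast hN0
  -- divisibility
  have hdv : ∀ k ≤ M, chn σ ρ k ∣ chn σ ρ M := by
    intro k hk
    rcases Nat.lt_or_ge k M with h | h
    · exact (dvd_mul_right _ _).trans (chn_dvd h)
    · have : k = M := by omega
      rw [this]
  have hns : ∀ k, ∃ n, k ≤ M → N = chn σ ρ k * n := by
    intro k
    by_cases hk : k ≤ M
    · obtain ⟨t, ht⟩ := hdv k hk
      refine ⟨t * L, fun _ => ?_⟩
      rw [hN, ht, Nat.mul_assoc]
    · exact ⟨0, fun h => absurd h hk⟩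
  choose n hn using hns
  obtain ⟨η, hη⟩ : ∃ η, η = ra * x / 16 := ⟨_, rfl⟩
  have hη0 : 0 < η := by rw [hη]; positivity
  have htail₀ := htl₀ η hη0
  obtain ⟨J₂, hJ₂⟩ := exists_nat_gt (m * Real.log 2 * N / η + 4 * N)
  have hlaw₀ : Clg S (fun _ F A => IsLaw (Pool.Agent.H49.Ent.cond F.p A True)) :=
    Clg.of one_pos 0 fun J _ F A hS =>
      isLaw_cond F.isLaw (lt_of_lt_of_le (Real.exp_pos _) hS.2)
  refine Clg.mono (J₂ := J₂) (htail₀.and hlaw₀) ?_
  rintro J hJ F A ⟨htail, hlaw⟩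
  have hJ2 : m * Real.log 2 * N / η + 4 * N < J := hJ₂.trans_le (by exact_mod_cast hJ)
  have hq0 : 0 ≤ m * Real.log 2 * N / η := by positivity
  have hJ4 : 4 * (N : ℝ) ≤ J := by linarith only [hJ2, hq0]
  have hJη : m * Real.log 2 * N ≤ η * J := by
    have : m * Real.log 2 * N / η < J := by linarith only [hNr, hJ2]
    rw [div_lt_iff₀ hη0] at this
    linarith only [this]
  have hJr : (0 : ℝ) < J := by linarith only [hNr, hJ2, hq0]
  obtain ⟨u, hu⟩ : ∃ u, u = J / N := ⟨_, rfl⟩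
  have hu1 : N * u ≤ J := by rw [hu]; exact Nat.mul_div_le J N
  have hu2 : J < N * (u + 1) := by rw [hu]; exact Nat.lt_mul_div_succ J hN0
  have hu1r : (N : ℝ) * u ≤ J := by exact_mod_cast hu1
  have hu2r : (J : ℝ) ≤ N * u + N := by
    have : (J : ℝ) < N * (u + 1) := by exact_mod_cast hu2
    linarith only [this]
  have hupos : 0 < J / N := by
    rw [← hu]
    rcases Nat.eq_zero_or_pos u with h | h
    · rw [h] at hu2r
      push_cast at hu2r
      linarith only [hNr, hJ2, hq0, hu2r]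
    · exact h
  have hur : (0 : ℝ) < u := by rw [hu]; exact_mod_cast hupos
  have hD0 := DD_nonneg F hlaw hupos
  have hD1 : ∀ r, DD F A N r ≤ B := fun r => by
    have := DD_le F hlaw N r
    rw [hB]
    linarith only [hδ0, hδh, this]
  obtain ⟨k, hk, l, hl1, hl2', hV⟩ := exists_level hD0 hD1 hM0 (chn σ ρ)
    (fun k => σ (chn σ ρ k)) (fun k => ρ (chn σ ρ k * σ (chn σ ρ k))) n
    (fun k _ => rfl) hn (fun k _ => hρ _) (fun k _ => hck k) hN0
  obtain ⟨Z, hZ⟩ : ∃ Z, Z = chn σ ρ k := ⟨_, rfl⟩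
  obtain ⟨s, hs⟩ : ∃ s, s = σ Z := ⟨_, rfl⟩
  rw [← hZ, ← hs] at hl1 hV
  have hZ0 : 0 < Z := by rw [hZ]; exact hck k
  have hZr : (0 : ℝ) < Z := by exact_mod_cast hZ0
  have hs16 : 16 ≤ s := by rw [hs]; exact hσ Z
  have hs0 : 0 < s := by omega
  have hl16 : 16 ≤ l := by
    have h1 : Z * s ≤ chn σ ρ M := by
      have := Nat.le_of_dvd (hck M) (chn_dvd (σ := σ) (ρ := ρ) hk)
      rw [← hZ, ← hs] at this
      exact this
    have h2 : Z * s * 16 ≤ Z * s * l := by
      rw [← hl1, hN]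
      exact Nat.mul_le_mul h1 hL
    exact Nat.le_of_mul_le_mul_left h2 (by positivity)
  have hlr : (0 : ℝ) < l := by exact_mod_cast hl2'
  have hsr : (0 : ℝ) < s := by exact_mod_cast hs0
  have hNr' : (N : ℝ) = Z * s * l := by rw [hl1]; push_cast; ring
  have hZx : 2 ≤ x * Z := by
    have h1 : ⌈2 / x⌉₊ + 1 ≤ Z := by
      rw [hZ]
      exact hρ1.trans (chn_le hσ0 hρ k)
    have h2 : 2 / x ≤ Z := by
      refine (Nat.le_ceil _).trans ?_
      exact_mod_cast (by omega : ⌈2 / x⌉₊ ≤ Z)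
    rw [div_le_iff₀ hx0] at h2
    linarith only [h2]
  -- the tail
  have htl : ∀ p : ℕ, (1 - x) * N ≤ p → (p : ℝ) ≤ (1 - x / 2) * N →
      γ * ((N : ℝ) - p) ≤ ∑ r ∈ Ico p N, DD F A N r := by
    intro p hp1 hp2
    have hpN : p ≤ N := by
      have : (p : ℝ) ≤ N := by nlinarith only [hp1, hp2]
      exact_mod_cast this
    have hxp : J ≤ 2 * (p * u) := by
      have h1 : (J : ℝ) ≤ 2 * (p * u) := by
        have e1 : 3 / 4 * (N : ℝ) ≤ p := by nlinarith only [hp1, hxh]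
        have e2 : 3 / 4 * (N : ℝ) * u ≤ p * u := mul_le_mul_of_nonneg_right e1 hur.le
        linarith only [hNr, hJ2, hq0, hu2r, e2]
      exact_mod_cast h1
    have h1 := htail (p * u) ((Nat.mul_le_mul_right u hpN).trans hu1) hxp
    have h2 := sum_DD F hlaw hupos hpN
    rw [← hu] at h2
    have h3 : CH (Pool.Agent.H49.Ent.cond F.p A True) (F.X (N * u))
        (fun ω => (F.X (p * u) ω, F.W ω)) ≤
        CH (Pool.Agent.H49.Ent.cond F.p A True) (F.X J) (fun ω => (F.X (p * u) ω, F.W ω)) := by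
      refine CH_mono_left hlaw.nonneg fun ω ω' _ _ h => ?_
      exact Pool.STK.B58.fl_fine hu1 (Prod.ext_iff.mp h).1
    push_cast at h1
    have hul : 0 < (u : ℝ) * Real.log 2 := by positivity
    have h4 := tail_arith (γ := γ) (ra := ra) (x := x) (η := η) (N := N) (u := u) (J := J)
      (p := p) (m := m) (L2 := Real.log 2) hra hη hl2 hur
      (Nat.cast_nonneg m) hx0 hNr.le (by linarith only [hp2]) hu1r hu2r hJ4 hJη
      hγR h1 h3 h2
    exact le_of_mul_le_mul_right h4 hul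
  obtain ⟨j, z1, z2, z3, z4, z5⟩ := exists_zone hD0 hD1 hγ0 hγB hx0 (by linarith only [hxh, hδ0, hδh]) hδ0
    hs0 hl2' hl1 hZx hV (by
      rw [hNr']
      have e1 : 256 * B * (Z * s * l * B ^ 2 / M) = (256 * B ^ 3) * (Z * s * l) / M := by
        field_simp
      rw [e1, div_le_iff₀ hM0r]
      have e2 : 0 ≤ (Z : ℝ) * s * l := by positivity
      have := mul_le_mul_of_nonneg_right hM.le e2
      linarith only [this]) htl
  obtain ⟨p, r1, r2, r3, r4, r5⟩ := exists_row (x := x) hD0 hγ0 hγB hδh hs16 hl16 hl1 z1 z3 z4 z5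
  refine ⟨k, hk, j, p, fun Z' s' l' hZ' hs' hl' => ?_⟩
  rw [← hZ] at hZ'
  subst hZ'
  rw [← hs] at hs'
  subst hs'
  have hll : l' = l := by
    have : Z' * s' * l' = Z' * s' * l := by rw [← hl', ← hl1]
    exact Nat.eq_of_mul_eq_mul_left (by positivity) this
  subst hll
  have hNp : ∀ i : ℕ, i ≤ Z' * s' → i * l' ≤ N := fun i hi => by
    rw [hl1]; exact Nat.mul_le_mul_right _ hi
  refine ⟨?_, r1, r2, r3, fun p' h1 h2 => ?_, fun p₀ h1 => ?_, ?_⟩
  · push_cast
    have h1 : (1 - x) * Z' * (s' * l') ≤ j * (s' * l') :=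
      mul_le_mul_of_nonneg_right z2 (by positivity)
    have h2 : (1 - x₀) * N ≤ (1 - x) * N := mul_le_mul_of_nonneg_right (by linarith only [hxx]) hNr.le
    rw [hNr'] at h2 ⊢
    linarith only [h1, h2]
  · exact (Zr_iff F hlaw hupos h1.le).2 (r4 p' h1.le h2)
  · refine (Zr_iff F hlaw hupos ?_).2 (r5 p₀ h1)
    have : 0 < s' * l' := Nat.mul_pos hs0 hl2'
    omega
  · refine le_trans ?_ (z4.trans (mul_le_mul_of_nonneg_right hδδ hsr.le))
    have : ((range s').filter fun i => ¬ Zr F (γ ^ 2 / (4096 * B)) N ((j * s' + i) * l')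
        ((j * s' + i + 1) * l') A).card ≤
        ((range s').filter fun i => bs (DD F A N) l' (j * s' + i) < γ / 8 * l').card := by
      refine Finset.card_le_card fun i hi => ?_
      rw [Finset.mem_filter] at hi ⊢
      refine ⟨hi.1, ?_⟩
      have h1 := hi.2
      rw [Zr_iff F hlaw hupos (Nat.mul_le_mul_right _ (Nat.le_succ _))] at h1
      push Not at h1
      rw [bs_Ico]
      refine h1.trans_le ?_
      push_cast
      have e1 : ((j : ℝ) * s' + i + 1) * l' - (j * s' + i) * l' = l' := by ring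
      rw [e1]
      refine mul_le_mul_of_nonneg_right ?_ hlr.le
      rw [div_le_div_iff₀ (by positivity) (by norm_num)]
      nlinarith only [hγ0, hx0, hxh, hB, hγB]
    exact_mod_cast this

end Pool.PB
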