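import Pool.Agent.H18.PB.Defs
import Pool.Agent.H13.K2S.All

/-!
# The skeleton of plan B (codimension one)

All scales are multiples of the mesh unit `u = J / N`. `Bl F i₁ N K ρ i p A`: on `A` there is a
ball label of class `K`, visible at the resolution `ρ u`, on the windows of length `2 ^ (-i u)`,
with precision `2 ^ (-p u)`.

The modules: (SPR) spread fans, (CHT) the chart, (ROW) the choice of the row `ρ`, (STP) the lossy
step for ball labels, with a loss which does not depend on the class `K`, (SLP) slope `s K`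
through rows which are not full, (END) there are no ball labels of precision almost `2 ^ (-J)` on
macroscopic windows.
-/

set_option autoImplicit false

namespace Pool.PB

open Finset Real
open Pool.Agent.H49.Ent Pool.Agent.H32.Dense Pool.STK Pool.KA Pool.KSAT Pool.K2S

variable {m J : ℕ}

/-- The rows `(p₁ / N, p₂ / N]` are not full. -/
def Zr (F : Fam m J) (c : ℝ) (N p₁ p₂ : ℕ) (A : F.Ω → Prop) : Prop :=
  Zm F c (p₁ * (J / N)) (p₂ * (J / N)) A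

/-- The rows after the row `p / N` are not full, at all scales (Pliss time). -/
def Pls (F : Fam m J) (c : ℝ) (N p : ℕ) (A : F.Ω → Prop) : Prop :=
  ∀ p' : ℕ, p < p' → p' ≤ N → Zr F c N p p' A

open Classical in
/-- The number of full blocks `(l L, (l + 1) L]`, `l < M`, which meet `(p₀, p + L]`; the mesh is
`N = M L`. -/
noncomputable def nbad (F : Fam m J) (c : ℝ) (M L p₀ p : ℕ) (A : F.Ω → Prop) : ℕ :=
  ((range M).filter fun l => p₀ < (l + 1) * L ∧ l * L ≤ p + L ∧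
    ¬ Zr F c (M * L) (l * L) ((l + 1) * L) A).card

/-- **(SPR)** The fans are spread, with linear freedom, at arbitrarily small scales. -/
def SPRStmt (m : ℕ) : Prop :=
  ∀ a R : ℝ, 1 < a → 0 < R → UBa m a R → ∃ c₂ : ℝ, 0 < c₂ ∧ ∀ g₀ : ℝ, 0 < g₀ →
    ∃ g : ℝ, 0 < g ∧ g ≤ g₀ ∧ Claim (m := m) a R (fun _ F A => Sp F (m - 2) (c₂ * g) g A)

/-- **(CHT)** The fans are flat up to a fixed proportion of the resolution, in a fixed chart. -/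
def CHTStmt (m : ℕ) : Prop :=
  ∀ a R : ℝ, 1 < a → 0 < R → UBa m a R → ∃ h₁ : ℝ, 0 < h₁ ∧
    Claim (m := m) a R (fun J F A => ∃ i₁ : Fin m, Ch F i₁ ⌊h₁ * J⌋₊ A)

/-- The chain of scales: the zones of level `i` have length `1 / chn i`; they have `σ (chn i)`
blocks; the zones of the next level are `ρ` times shorter than these blocks. -/
def chn (σ ρ : ℕ → ℕ) : ℕ → ℕ
  | 0 => ρ 1
  | i + 1 => chn σ ρ i * σ (chn σ ρ i) * ρ (chn σ ρ i * σ (chn σ ρ i))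

open Classical in
/-- **(ROW)** For some level of the chain of scales there is a zone (number `j`) in the tail, with
at most the proportion `δ` of full blocks, and a Pliss time `p` in its upper half. -/
def ROWStmt (m : ℕ) : Prop :=
  ∀ a R : ℝ, 1 < a → 0 < R → UBa m a R → ∀ x : ℝ, 0 < x → ∃ c X : ℝ, 0 < c ∧ 0 < X ∧
    ∃ Z₀ : ℕ, 0 < Z₀ ∧ ∀ δ : ℝ, 0 < δ → ∃ M : ℕ, ∀ σ ρ : ℕ → ℕ, (∀ Z, 16 ≤ σ Z) →
    (∀ Z, 0 < ρ Z) → Z₀ ≤ ρ 1 → ∃ L₀ : ℕ, ∀ L ≥ L₀, ∀ N : ℕ, N = chn σ ρ M * L →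
    Claim (m := m) a R (fun _ F A => ∃ k < M, ∃ j p : ℕ, ∀ Z s l : ℕ, Z = chn σ ρ k → s = σ Z →
      N = Z * s * l →
      (1 - x) * N ≤ (j * (s * l) : ℕ) ∧ (p : ℝ) + X * N ≤ N ∧
      (2 * j + 1) * (s * l) ≤ 2 * p ∧ p + 2 * l ≤ (j + 1) * (s * l) ∧ Pls F c N p A ∧
      (∀ p₀ : ℕ, 2 * (p - p₀) = s * l → Zr F c N p₀ p A) ∧
      (((range s).filter fun i => ¬ Zr F c N ((j * s + i) * l) ((j * s + i + 1) * l) A).card : ℝ)
        ≤ δ * s)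

/-- **(STP)** The lossy step, at the scale `1 / E ~ g / C₁` where the fans are spread with linear
freedom: from the window `i / N` to the window `i / N - 1 / E`, the precision decreases by `Cs / E`,
where `Cs` does not depend on the class `K`, nor on `E`. -/
def STPStmt (m : ℕ) : Prop :=
  ∀ a R : ℝ, 1 < a → 0 < R → UBa m a R → ∀ c c₂ h₁ X : ℝ, 0 < c → 0 < c₂ → 0 < h₁ → 0 < X →
    ∃ Cs C₁ : ℕ, 8 ≤ Cs ∧ 0 < C₁ ∧ ∀ (g : ℝ) (E : ℕ), 0 < g → (C₁ : ℝ) ≤ E * g → E * g ≤ 2 * C₁ →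
    ∃ K₀ : ℕ, ∀ K ≥ K₀, ∃ g' : ℝ, 0 < g' ∧ ∀ ψ' : ℝ, 0 < ψ' →
    ∃ N₁ : ℕ, ∀ N ≥ N₁, ∀ d : ℕ, N = E * d → ∀ (i₁ : Fin m) (i ρ : ℕ), d ≤ i → i ≤ ρ →
    Cs * d ≤ ρ → (ρ : ℝ) + X * N ≤ N →
    Claim (m := m) a R (fun J F A => Sp F (m - 2) (c₂ * g) g A → Sp F (m - 2) ψ' g' A →
      Ch F i₁ ⌊h₁ * J⌋₊ A → Pls F c N ρ A → Zr F c N (ρ - Cs * d) ρ A →
      Bl F i₁ N K ρ i (ρ - 1) A → Bl F i₁ N K ρ (i - d) (ρ - Cs * d) A)

/-- **(SLP)** Slope: if the rows between `p₀` and `p` are not full, with at most `ν q` exceptional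
blocks of length `L`, then the ball labels of class `K` gain `s K` rows per unit of the window. -/
def SLPStmt (m : ℕ) : Prop :=
  ∀ a R : ℝ, 1 < a → 0 < R → UBa m a R → ∀ c h₁ X : ℝ, 0 < c → 0 < h₁ → 0 < X →
    ∃ ν s : ℝ, 0 < ν ∧ 0 < s ∧ ∀ E : ℕ, 0 < E → ∃ K₀ : ℕ, ∀ K ≥ K₀, ∃ g' : ℝ, 0 < g' ∧
    ∀ ψ' : ℝ, 0 < ψ' → ∃ q : ℕ, 0 < q ∧ ∃ L₁ : ℕ, ∀ L ≥ L₁, ∀ N : ℕ, N = E * q * L →
    ∀ (i₁ : Fin m) (i₀ i p₀ p ρ : ℕ), 2 * i₀ + q * L ≤ 2 * i → i ≤ p → p₀ ≤ p → p + 1 ≤ ρ →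
    ρ ≤ p + L → (p : ℝ) - p₀ ≤ s * K * ((i : ℝ) - i₀) → (ρ : ℝ) + X * N ≤ N →
    Claim (m := m) a R (fun J F A => Sp F (m - 2) ψ' g' A → Ch F i₁ ⌊h₁ * J⌋₊ A →
      Pls F c N ρ A → (nbad F c (E * q) L p₀ p A : ℝ) ≤ ν * q →
      Bl F i₁ N K ρ i₀ p₀ A → Bl F i₁ N K ρ i p A)

/-- **(END)** There are no ball labels of precision almost `2 ^ (-J)` on macroscopic windows. -/
def ENDStmt (m : ℕ) : Prop :=
  ∀ a R : ℝ, 1 < a → 0 < R → UBa m a R → ∃ x : ℝ, 0 < x ∧ ∀ K : ℕ, ∃ g' : ℝ, 0 < g' ∧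
    ∀ ψ' : ℝ, 0 < ψ' → ∃ N₁ : ℕ, ∀ N ≥ N₁, ∀ (i₁ : Fin m) (i p ρ : ℕ), (i : ℝ) ≤ x * N →
    (1 - x) * N ≤ p → p ≤ ρ → ρ ≤ N →
    Claim (m := m) a R (fun _ F A => Sp F (m - 2) ψ' g' A → Bl F i₁ N K ρ i p A → False)

/-! ### The assembly -/

theorem chn_pos {σ ρ : ℕ → ℕ} (hσ : ∀ Z, 0 < σ Z) (hρ : ∀ Z, 0 < ρ Z) : ∀ i, 0 < chn σ ρ i
  | 0 => hρ 1
  | i + 1 => Nat.mul_pos (Nat.mul_pos (chn_pos hσ hρ i) (hσ _)) (hρ _)

theorem chn_dvd {σ ρ : ℕ → ℕ} {i : ℕ} : ∀ {k : ℕ}, i < k → chn σ ρ i * σ (chn σ ρ i) ∣ chn σ ρ k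
  | 0, h => absurd h (Nat.not_lt_zero _)
  | k + 1, h => by
    rcases Nat.lt_succ_iff_lt_or_eq.1 h with h1 | h1
    · exact (chn_dvd h1).trans (dvd_mul_of_dvd_left (dvd_mul_right _ _) _)
    · rw [h1]
      exact dvd_mul_right _ _

theorem chn_le {σ ρ : ℕ → ℕ} (hσ : ∀ Z, 0 < σ Z) (hρ : ∀ Z, 0 < ρ Z) : ∀ i,
    ρ 1 ≤ chn σ ρ i
  | 0 => le_rfl
  | i + 1 => by
    have h1 := chn_le hσ hρ i
    have h2 : chn σ ρ i ≤ chn σ ρ i * σ (chn σ ρ i) := Nat.le_mul_of_pos_right _ (hσ _)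
    exact h1.trans (h2.trans (Nat.le_mul_of_pos_right _ (hρ _)))

/-- The assembly for one event. -/
theorem core {F : Fam m J} {A : F.Ω → Prop} {i₁ : Fin m} {N K Cs E q L ρ : ℕ} {x c ν s X : ℝ}
    (hN : 0 < N) (hJ : N ≤ J) (hqL : 2 ≤ q * L) (hCs : 0 < Cs)
    (hK : 2 * Cs ≤ s * K) (hρN : ρ ≤ N) (hρ1 : 2 ≤ ρ) (hx : ((q * L : ℕ) : ℝ) ≤ x * N)
    (hCρ : Cs * (q * L) ≤ ρ) (hρx : (1 - x) * N + 1 ≤ ρ) (hX : (ρ : ℝ) + X * N ≤ N)
    (hbad : (nbad F c (E * q) L (ρ - Cs * (q * L)) (ρ - 1) A : ℝ) ≤ ν * q)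
    (dE : ∀ i : ℕ, i ≤ ρ → (i : ℝ) ≤ x * N → (1 - x) * N ≤ ((ρ - 1 : ℕ) : ℝ) →
      Bl F i₁ N K ρ i (ρ - 1) A → False)
    (dT : ∀ i : ℕ, q * L ≤ i → i ≤ ρ → Cs * (q * L) ≤ ρ → (ρ : ℝ) + X * N ≤ N →
      Bl F i₁ N K ρ i (ρ - 1) A → Bl F i₁ N K ρ (i - q * L) (ρ - Cs * (q * L)) A)
    (dS : ∀ i₀ i p₀ p : ℕ, 2 * i₀ + q * L ≤ 2 * i → i ≤ p → p₀ ≤ p → p + 1 ≤ ρ → ρ ≤ p + L →
      (p : ℝ) - p₀ ≤ s * K * ((i : ℝ) - i₀) → (ρ : ℝ) + X * N ≤ N →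
      (nbad F c (E * q) L p₀ p A : ℝ) ≤ ν * q →
      Bl F i₁ N K ρ i₀ p₀ A → Bl F i₁ N K ρ i p A) : False := by
  classical
  -- the least window with a label of full precision
  have hex : ∃ i, Bl F i₁ N K ρ i (ρ - 1) A := ⟨ρ, Bl.trivial hN hJ (by omega) hρN (by omega)⟩
  obtain ⟨i, hi⟩ : ∃ i, i = Nat.find hex := ⟨_, rfl⟩
  have hB : Bl F i₁ N K ρ i (ρ - 1) A := by rw [hi]; exact Nat.find_spec hex
  have hmin : ∀ i' < i, ¬ Bl F i₁ N K ρ i' (ρ - 1) A := fun i' h' => by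
    rw [hi] at h'
    exact Nat.find_min hex h'
  have hiρ : i ≤ ρ := by
    rw [hi]
    exact Nat.find_min' hex (Bl.trivial hN hJ (by omega) hρN (by omega))
  have hρx' : (1 - x) * N ≤ ((ρ - 1 : ℕ) : ℝ) := by
    rw [Nat.cast_sub (by omega)]
    push_cast
    linarith only [hρx]
  by_cases hix : (i : ℝ) ≤ x * N
  · exact dE i hiρ hix hρx' hB
  push Not at hix
  have hqi : q * L ≤ i := by
    have : ((q * L : ℕ) : ℝ) ≤ i := hx.trans hix.le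
    exact_mod_cast this
  have hB2 := dT i hqi hiρ hCρ hX hB
  have hL : 1 ≤ L := by
    rcases Nat.eq_zero_or_pos L with h | h
    · rw [h] at hqL; omega
    · exact h
  refine hmin (i - 1) (by omega) (dS (i - q * L) (i - 1) (ρ - Cs * (q * L)) (ρ - 1)
    (by omega) (by omega) ?_ (by omega) (by omega) ?_ hX hbad hB2)
  · have : 1 ≤ Cs * (q * L) := Nat.mul_pos hCs (by omega)
    omega
  · have h1 : ((ρ - 1 : ℕ) : ℝ) = ρ - 1 := by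
      rw [Nat.cast_sub (by omega)]
      push_cast
      rfl
    have h2 : ((ρ - Cs * (q * L) : ℕ) : ℝ) = ρ - Cs * (q * L) := by
      rw [Nat.cast_sub hCρ]
      push_cast
      rfl
    have h3 : ((i - 1 : ℕ) : ℝ) = i - 1 := by
      rw [Nat.cast_sub (by omega)]
      push_cast
      rfl
    have h4 : ((i - q * L : ℕ) : ℝ) = i - q * L := by
      rw [Nat.cast_sub hqi]
      push_cast
      rfl
    rw [h1, h2, h3, h4]
    have hqL' : (2 : ℝ) ≤ q * L := by exact_mod_cast hqL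
    have hCs' : (1 : ℝ) ≤ Cs := by exact_mod_cast hCs
    have e1 : (i : ℝ) - 1 - (i - q * L) = q * L - 1 := by ring
    have e2 : (ρ : ℝ) - 1 - (ρ - Cs * (q * L)) = Cs * (q * L) - 1 := by ring
    rw [e1, e2]
    have e3 : 2 * (Cs : ℝ) * (q * L - 1) ≤ s * K * (q * L - 1) :=
      mul_le_mul_of_nonneg_right hK (by linarith only [hqL'])
    nlinarith only [e3, hqL']

/-- The number of full blocks near the row `p` is at most the number of full blocks in the zone. -/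
theorem nbad_le {F : Fam m J} {A : F.Ω → Prop} {c : ℝ} {M L s j p p₀ : ℕ}
    (h0 : j * (s * L) ≤ p₀) (h1 : p + 1 + L ≤ (j + 1) * (s * L)) :
    nbad F c M L p₀ p A ≤ (open Classical in ((range s).filter fun i =>
      ¬ Zr F c (M * L) ((j * s + i) * L) ((j * s + i + 1) * L) A).card) := by
  classical
  unfold nbad
  have key : ∀ l : ℕ, p₀ < (l + 1) * L → l * L ≤ p + L → j * s ≤ l ∧ l < (j + 1) * s := by
    intro l h2 h3
    have hL : 0 < L := by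
      rcases Nat.eq_zero_or_pos L with h | h
      · rw [h] at h2; omega
      · exact h
    constructor
    · by_contra h
      push Not at h
      have h4 : (l + 1) * L ≤ j * s * L := Nat.mul_le_mul_right L h
      have h5 : j * s * L = j * (s * L) := by ring
      omega
    · by_contra h
      push Not at h
      have h4 : (j + 1) * s * L ≤ l * L := Nat.mul_le_mul_right L h
      have h5 : (j + 1) * s * L = (j + 1) * (s * L) := by ring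
      omega
  refine Finset.card_le_card_of_injOn (fun l => l - j * s) ?_ ?_
  · intro l hl
    simp only [Finset.coe_filter, Finset.mem_range, Set.mem_ofPred_eq] at hl ⊢
    obtain ⟨-, h2, h3, h4⟩ := hl
    obtain ⟨k1, k2⟩ := key l h2 h3
    have e1 : j * s + (l - j * s) = l := by omega
    have e2 : (j + 1) * s = j * s + s := by ring
    rw [e1]
    exact ⟨by omega, h4⟩
  · intro l hl l' hl' h
    simp only [Finset.coe_filter, Finset.mem_range, Set.mem_ofPred_eq] at hl hl'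
    obtain ⟨-, h2, h3, -⟩ := hl
    obtain ⟨-, h2', h3', -⟩ := hl'
    have k1 := (key l h2 h3).1
    have k2 := (key l' h2' h3').1
    simp only at h
    omega

/-- **Plan B.** -/
theorem kp_of_planB {m : ℕ} (hSPR : SPRStmt m) (hCHT : CHTStmt m) (hROW : ROWStmt m)
    (hSTP : STPStmt m) (hSLP : SLPStmt m) (hEND : ENDStmt m) : KP m := by
  classical
  refine kp_of_claim aex rex fun a R ha hR hU => ?_
  obtain ⟨c₂, hc₂, hspr⟩ := hSPR a R ha hR hU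
  obtain ⟨h₁, hh₁, hcht⟩ := hCHT a R ha hR hU
  obtain ⟨x, hx, hend⟩ := hEND a R ha hR hU
  obtain ⟨c, X, hc, hX, Z₀, hZ₀, hrow⟩ := hROW a R ha hR hU (x / 2) (by linarith only [hx])
  obtain ⟨Cs, C₁, hCs8, hC₁, hstp⟩ := hSTP a R ha hR hU c c₂ h₁ X hc hc₂ hh₁ hX
  have hCs : 0 < Cs := by omega
  obtain ⟨ν, s, hν, hs, hslp⟩ := hSLP a R ha hR hU c h₁ X hc hh₁ hX
  have hCsr : (0 : ℝ) < Cs := by exact_mod_cast hCs
  have hC₁r : (0 : ℝ) < C₁ := by exact_mod_cast hC₁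
  obtain ⟨M, hrow⟩ := hrow (ν / (2 * Cs)) (by positivity)
  -- allowed numbers of zones
  obtain ⟨Al, hAl⟩ : ∃ Al : ℕ → Prop, Al = fun Z => ∃ g : ℝ, 0 < g ∧
      (C₁ : ℝ) ≤ (2 * Cs * Z : ℕ) * g ∧ (2 * Cs * Z : ℕ) * g ≤ 2 * C₁ ∧
      Claim (m := m) a R (fun _ F A => Sp F (m - 2) (c₂ * g) g A) := ⟨_, rfl⟩
  -- the constants of a level
  have lev : ∀ Z : ℕ, ∃ (K q N₁ : ℕ) (g ψ' g' : ℝ), 0 < q ∧ (0 < Z → Al Z →
      2 * Cs ≤ s * K ∧ Claim (m := m) a R (fun _ F A => Sp F (m - 2) (c₂ * g) g A) ∧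
      Claim (m := m) a R (fun _ F A => Sp F (m - 2) ψ' g' A) ∧
      (∀ N ≥ N₁, ∀ d : ℕ, N = 2 * Cs * Z * d → ∀ (i₁ : Fin m) (i ρ : ℕ), d ≤ i → i ≤ ρ →
        Cs * d ≤ ρ → (ρ : ℝ) + X * N ≤ N →
        Claim (m := m) a R (fun J F A => Sp F (m - 2) (c₂ * g) g A → Sp F (m - 2) ψ' g' A →
          Ch F i₁ ⌊h₁ * J⌋₊ A → Pls F c N ρ A → Zr F c N (ρ - Cs * d) ρ A →
          Bl F i₁ N K ρ i (ρ - 1) A → Bl F i₁ N K ρ (i - d) (ρ - Cs * d) A)) ∧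
      (∀ L ≥ N₁, ∀ N : ℕ, N = 2 * Cs * Z * q * L → ∀ (i₁ : Fin m) (i₀ i p₀ p ρ : ℕ),
        2 * i₀ + q * L ≤ 2 * i → i ≤ p → p₀ ≤ p → p + 1 ≤ ρ → ρ ≤ p + L →
        (p : ℝ) - p₀ ≤ s * K * ((i : ℝ) - i₀) → (ρ : ℝ) + X * N ≤ N →
        Claim (m := m) a R (fun J F A => Sp F (m - 2) ψ' g' A → Ch F i₁ ⌊h₁ * J⌋₊ A →
          Pls F c N ρ A → (nbad F c (2 * Cs * Z * q) L p₀ p A : ℝ) ≤ ν * q →
          Bl F i₁ N K ρ i₀ p₀ A → Bl F i₁ N K ρ i p A)) ∧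
      (∀ N ≥ N₁, ∀ (i₁ : Fin m) (i p ρ : ℕ), (i : ℝ) ≤ x * N → (1 - x) * N ≤ p → p ≤ ρ →
        ρ ≤ N →
        Claim (m := m) a R (fun _ F A => Sp F (m - 2) ψ' g' A → Bl F i₁ N K ρ i p A →
          False))) := by
    intro Z
    by_cases hZ : 0 < Z ∧ Al Z
    · obtain ⟨hZ, hA⟩ := hZ
      rw [hAl] at hA
      obtain ⟨g, hg, hg1, hg2, hg3⟩ := hA
      have hE : 0 < 2 * Cs * Z := by positivity
      obtain ⟨K₁, hK₁⟩ := hstp g (2 * Cs * Z) hg hg1 hg2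
      obtain ⟨K₂, hK₂⟩ := hslp (2 * Cs * Z) hE
      obtain ⟨K, hK⟩ : ∃ K, K = max ⌈2 * Cs / s⌉₊ (max K₁ K₂) := ⟨_, rfl⟩
      have hKa : 2 * Cs ≤ s * K := by
        have h1 : ⌈2 * Cs / s⌉₊ ≤ K := by rw [hK]; exact le_max_left _ _
        have h2 : 2 * Cs / s ≤ K := (Nat.le_ceil _).trans (by exact_mod_cast h1)
        rw [div_le_iff₀ hs] at h2
        linarith only [h2]
      have hKb : K₁ ≤ K := by rw [hK]; exact (le_max_left _ _).trans (le_max_right _ _)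
      have hKc : K₂ ≤ K := by rw [hK]; exact (le_max_right _ _).trans (le_max_right _ _)
      obtain ⟨g₁, hg₁, ht⟩ := hK₁ K hKb
      obtain ⟨g₂, hg₂, hsl⟩ := hK₂ K hKc
      obtain ⟨g₃, hg₃, he⟩ := hend K
      obtain ⟨g', hg', hgm, hsp'⟩ := hspr (min g₁ (min g₂ g₃))
        (lt_min hg₁ (lt_min hg₂ hg₃))
      have hgm1 : g' ≤ g₁ := hgm.trans (min_le_left _ _)
      have hgm2 : g' ≤ g₂ := hgm.trans ((min_le_right _ _).trans (min_le_left _ _))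
      have hgm3 : g' ≤ g₃ := hgm.trans ((min_le_right _ _).trans (min_le_right _ _))
      have hψ : 0 < c₂ * g' := by positivity
      obtain ⟨N₁, ht⟩ := ht (c₂ * g') hψ
      obtain ⟨q, hq, N₂, hsl⟩ := hsl (c₂ * g') hψ
      obtain ⟨N₃, he⟩ := he (c₂ * g') hψ
      refine ⟨K, q, max N₁ (max N₂ N₃), g, c₂ * g', g', hq, fun _ _ => ⟨hKa, hg3, hsp',
        ?_, ?_, ?_⟩⟩
      · intro N hN d hd i₁ i ρ k1 k2 k3 k4
        refine Claim.mono 0 ?_ (ht N ((le_max_left _ _).trans hN) d hd i₁ i ρ k1 k2 k3 k4)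
        exact fun J _ F A h j1 j2 => h j1 (j2.mono le_rfl hgm1)
      · intro L hL N hN i₁ i₀ i p₀ p ρ k1 k2 k3 k4 k5 k6 k7
        refine Claim.mono 0 ?_ (hsl L ((le_max_left _ _).trans ((le_max_right _ _).trans hL)) N hN
          i₁ i₀ i p₀ p ρ k1 k2 k3 k4 k5 k6 k7)
        exact fun J _ F A h j1 => h (j1.mono le_rfl hgm2)
      · intro N hN i₁ i p ρ k1 k2 k3 k4
        refine Claim.mono 0 ?_ (he N ((le_max_right _ _).trans ((le_max_right _ _).trans hN)) i₁ i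
          p ρ k1 k2 k3 k4)
        exact fun J _ F A h j1 => h (j1.mono le_rfl hgm3)
    · exact ⟨0, 1, 0, 0, 0, 0, one_pos, fun h1 h2 => absurd ⟨h1, h2⟩ hZ⟩
  choose K q N₁ g ψ' g' hq lev using lev
  -- the next number of zones
  obtain ⟨Zm, hZm⟩ : ∃ Zm, Zm = max Z₀ (⌈1 / x⌉₊ + 1) := ⟨_, rfl⟩
  have hZm0 : 0 < Zm := by rw [hZm]; exact lt_of_lt_of_le hZ₀ (le_max_left _ _)
  have hZmr : (0 : ℝ) < Zm := by exact_mod_cast hZm0
  have hnext : ∀ M' : ℕ, ∃ t : ℕ, Zm ≤ t ∧ (0 < M' → Al (M' * t)) := by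
    intro M'
    by_cases hM : 0 < M'
    · have hMr : (0 : ℝ) < M' := by exact_mod_cast hM
      obtain ⟨g, hg, hg1, hg2⟩ := hspr (C₁ / (2 * Cs * M' * Zm)) (by positivity)
      rw [le_div_iff₀ (by positivity)] at hg1
      refine ⟨⌈C₁ / (2 * Cs * M' * g)⌉₊, ?_, fun _ => ?_⟩
      · have h1 : (Zm : ℝ) ≤ C₁ / (2 * Cs * M' * g) := by
          rw [le_div_iff₀ (by positivity)]
          linarith only [hg1]
        exact_mod_cast h1.trans (Nat.le_ceil _)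
      · rw [hAl]
        have h1 : (C₁ : ℝ) / (2 * Cs * M' * g) ≤ ⌈(C₁ : ℝ) / (2 * Cs * M' * g)⌉₊ := Nat.le_ceil _
        have h2 : (⌈(C₁ : ℝ) / (2 * Cs * M' * g)⌉₊ : ℝ) < C₁ / (2 * Cs * M' * g) + 1 :=
          Nat.ceil_lt_add_one (by positivity)
        obtain ⟨t, ht⟩ : ∃ t : ℕ, t = ⌈(C₁ : ℝ) / (2 * Cs * M' * g)⌉₊ := ⟨_, rfl⟩
        rw [← ht] at h1 h2 ⊢
        rw [div_le_iff₀ (by positivity)] at h1
        have h3 : (t : ℝ) * (2 * Cs * M' * g) ≤ C₁ + 2 * Cs * M' * g := by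
          have h4 : (t : ℝ) * (2 * Cs * M' * g) ≤
              (C₁ / (2 * Cs * M' * g) + 1) * (2 * Cs * M' * g) :=
            mul_le_mul_of_nonneg_right h2.le (by positivity)
          have h5 : (C₁ / (2 * Cs * M' * g) + 1) * (2 * Cs * M' * g) = C₁ + 2 * Cs * M' * g := by
            field_simp
          linarith only [h4, h5]
        have hZm1 : (1 : ℝ) ≤ Zm := by exact_mod_cast hZm0
        have h6 : 2 * Cs * M' * g ≤ C₁ := by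
          have : 2 * (Cs : ℝ) * M' * g * 1 ≤ 2 * Cs * M' * g * Zm :=
            mul_le_mul_of_nonneg_left hZm1 (by positivity)
          linarith only [hg1, this]
        refine ⟨g, hg, ?_, ?_, hg2⟩
        · push_cast
          linarith only [h1]
        · push_cast
          linarith only [h3, h6]
    · exact ⟨Zm, le_rfl, fun h => absurd h hM⟩
  choose nx hnx1 hnx2 using hnext
  have hnx0 : ∀ Z, 0 < nx Z := fun Z => lt_of_lt_of_le hZm0 (hnx1 Z)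
  obtain ⟨σ, hσ⟩ : ∃ σ : ℕ → ℕ, σ = fun Z => 2 * Cs * q Z := ⟨_, rfl⟩
  have hσ16 : ∀ Z, 16 ≤ σ Z := fun Z => by
    rw [hσ]
    have h1 : 2 * Cs ≤ 2 * Cs * q Z := Nat.le_mul_of_pos_right _ (hq Z)
    exact le_trans (by omega) h1
  have hσ0 : ∀ Z, 0 < σ Z := fun Z => by
    have := hσ16 Z
    omega
  obtain ⟨L₀, hrow⟩ := hrow σ nx hσ16 hnx0 (by
    refine le_trans ?_ (hnx1 1)
    rw [hZm]; exact le_max_left _ _)
  have hAlk : ∀ k, Al (chn σ nx k) := by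
    intro k
    cases k with
    | zero =>
      have := hnx2 1 one_pos
      rw [one_mul] at this
      exact this
    | succ k =>
      exact hnx2 _ (Nat.mul_pos (chn_pos hσ0 hnx0 k) (hσ0 _))
  have hck := chn_pos hσ0 hnx0
  -- the mesh
  obtain ⟨L, hL⟩ : ∃ L, L = L₀ + (∑ k ∈ range M, N₁ (chn σ nx k)) + ⌈2 / x⌉₊ + 2 := ⟨_, rfl⟩
  have hLk : ∀ k < M, N₁ (chn σ nx k) ≤ L := by
    intro k hk
    have := Finset.single_le_sum (f := fun k => N₁ (chn σ nx k)) (fun _ _ => Nat.zero_le _)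
      (Finset.mem_range.2 hk)
    omega
  obtain ⟨N, hN⟩ : ∃ N, N = chn σ nx M * L := ⟨_, rfl⟩
  have hNL : L ≤ N := by rw [hN]; exact Nat.le_mul_of_pos_left _ (hck M)
  have hN0 : 0 < N := by omega
  have hNr : (0 : ℝ) < N := by exact_mod_cast hN0
  have hNx : 2 ≤ x * N := by
    have h1 : 2 / x ≤ (⌈2 / x⌉₊ : ℝ) := Nat.le_ceil _
    have h2 : (⌈2 / x⌉₊ : ℝ) ≤ N := by
      have : ⌈2 / x⌉₊ ≤ N := by omega
      exact_mod_cast this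
    have h3 : 2 / x ≤ N := h1.trans h2
    rw [div_le_iff₀ hx] at h3
    linarith only [h3]
  have hmesh : ∀ k < M, ∃ l, N = 2 * Cs * chn σ nx k * q (chn σ nx k) * l ∧ L ≤ l := by
    intro k hk
    obtain ⟨t, ht⟩ := chn_dvd (σ := σ) (ρ := nx) hk
    have ht0 : 0 < t := by
      rcases Nat.eq_zero_or_pos t with h | h
      · rw [h, Nat.mul_zero] at ht
        have := hck M
        omega
      · exact h
    refine ⟨t * L, ?_, Nat.le_mul_of_pos_left _ ht0⟩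
    rw [hN, ht, hσ]
    ring
  choose! l hl1 hl2 using hmesh
  -- the claims
  have c1 : Claim (m := m) a R (fun _ F A => ∀ k : Fin M,
      Sp F (m - 2) (c₂ * g (chn σ nx k)) (g (chn σ nx k)) A ∧
      Sp F (m - 2) (ψ' (chn σ nx k)) (g' (chn σ nx k)) A) :=
    Claim.finite fun k => (lev _ (hck k) (hAlk k)).2.1.and (lev _ (hck k) (hAlk k)).2.2.1
  have c2 : Claim (m := m) a R (fun J F A => ∀ v : Fin M × Fin m × Fin (N + 1) × Fin (N + 1),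
      (q (chn σ nx v.1) * l v.1 ≤ (v.2.2.1 : ℕ) ∧ (v.2.2.1 : ℕ) ≤ (v.2.2.2 : ℕ) ∧
        Cs * (q (chn σ nx v.1) * l v.1) ≤ (v.2.2.2 : ℕ) ∧
        ((v.2.2.2 : ℕ) : ℝ) + X * N ≤ N) →
      (Sp F (m - 2) (c₂ * g (chn σ nx v.1)) (g (chn σ nx v.1)) A →
        Sp F (m - 2) (ψ' (chn σ nx v.1)) (g' (chn σ nx v.1)) A →
        Ch F v.2.1 ⌊h₁ * J⌋₊ A → Pls F c N (v.2.2.2 : ℕ) A →
        Zr F c N ((v.2.2.2 : ℕ) - Cs * (q (chn σ nx v.1) * l v.1)) (v.2.2.2 : ℕ) A →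
        Bl F v.2.1 N (K (chn σ nx v.1)) (v.2.2.2 : ℕ) (v.2.2.1 : ℕ) ((v.2.2.2 : ℕ) - 1) A →
        Bl F v.2.1 N (K (chn σ nx v.1)) (v.2.2.2 : ℕ)
          ((v.2.2.1 : ℕ) - q (chn σ nx v.1) * l v.1)
          ((v.2.2.2 : ℕ) - Cs * (q (chn σ nx v.1) * l v.1)) A)) :=
    Claim.finite fun v => Claim.cnd fun k => (lev _ (hck _) (hAlk _)).2.2.2.1 N
      ((hLk v.1 v.1.2).trans hNL) (q (chn σ nx v.1) * l v.1)
      (by rw [← Nat.mul_assoc]; exact hl1 v.1 v.1.2) v.2.1 v.2.2.1 v.2.2.2 k.1 k.2.1 k.2.2.1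
      k.2.2.2
  have c3 : Claim (m := m) a R (fun J F A => ∀ v : Fin M × Fin m × Fin (N + 1) × Fin (N + 1) ×
      Fin (N + 1) × Fin (N + 1) × Fin (N + 1),
      (2 * (v.2.2.1 : ℕ) + q (chn σ nx v.1) * l v.1 ≤ 2 * (v.2.2.2.1 : ℕ) ∧
        (v.2.2.2.1 : ℕ) ≤ (v.2.2.2.2.2.1 : ℕ) ∧ (v.2.2.2.2.1 : ℕ) ≤ (v.2.2.2.2.2.1 : ℕ) ∧
        (v.2.2.2.2.2.1 : ℕ) + 1 ≤ (v.2.2.2.2.2.2 : ℕ) ∧
        (v.2.2.2.2.2.2 : ℕ) ≤ (v.2.2.2.2.2.1 : ℕ) + l v.1 ∧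
        (((v.2.2.2.2.2.1 : ℕ) : ℝ) - ((v.2.2.2.2.1 : ℕ) : ℝ) ≤
          s * (K (chn σ nx v.1) : ℝ) * (((v.2.2.2.1 : ℕ) : ℝ) - ((v.2.2.1 : ℕ) : ℝ))) ∧
        ((v.2.2.2.2.2.2 : ℕ) : ℝ) + X * N ≤ N) →
      (Sp F (m - 2) (ψ' (chn σ nx v.1)) (g' (chn σ nx v.1)) A →
        Ch F v.2.1 ⌊h₁ * J⌋₊ A → Pls F c N (v.2.2.2.2.2.2 : ℕ) A →
        (nbad F c (2 * Cs * chn σ nx v.1 * q (chn σ nx v.1)) (l v.1) (v.2.2.2.2.1 : ℕ)
          (v.2.2.2.2.2.1 : ℕ) A : ℝ) ≤ ν * q (chn σ nx v.1) →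
        Bl F v.2.1 N (K (chn σ nx v.1)) (v.2.2.2.2.2.2 : ℕ) (v.2.2.1 : ℕ) (v.2.2.2.2.1 : ℕ) A →
        Bl F v.2.1 N (K (chn σ nx v.1)) (v.2.2.2.2.2.2 : ℕ) (v.2.2.2.1 : ℕ)
          (v.2.2.2.2.2.1 : ℕ) A)) :=
    Claim.finite fun v => Claim.cnd fun k => (lev _ (hck _) (hAlk _)).2.2.2.2.1 (l v.1)
      ((hLk v.1 v.1.2).trans (hl2 v.1 v.1.2)) N (hl1 v.1 v.1.2) v.2.1 v.2.2.1 v.2.2.2.1
      v.2.2.2.2.1 v.2.2.2.2.2.1 v.2.2.2.2.2.2 k.1 k.2.1 k.2.2.1 k.2.2.2.1 k.2.2.2.2.1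
      k.2.2.2.2.2.1 k.2.2.2.2.2.2
  have c4 : Claim (m := m) a R (fun _ F A => ∀ v : Fin M × Fin m × Fin (N + 1) × Fin (N + 1) ×
      Fin (N + 1), (((v.2.2.1 : ℕ) : ℝ) ≤ x * N ∧ (1 - x) * N ≤ ((v.2.2.2.1 : ℕ) : ℝ) ∧
        (v.2.2.2.1 : ℕ) ≤ (v.2.2.2.2 : ℕ)) →
      (Sp F (m - 2) (ψ' (chn σ nx v.1)) (g' (chn σ nx v.1)) A →
        Bl F v.2.1 N (K (chn σ nx v.1)) (v.2.2.2.2 : ℕ) (v.2.2.1 : ℕ) (v.2.2.2.1 : ℕ) A →
        False)) :=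
    Claim.finite fun v => Claim.cnd fun k => (lev _ (hck _) (hAlk _)).2.2.2.2.2 N
      ((hLk v.1 v.1.2).trans hNL) v.2.1 v.2.2.1 v.2.2.2.1 v.2.2.2.2 k.1 k.2.1 k.2.2
      (by have := v.2.2.2.2.2; omega)
  refine Claim.mono N ?_ (((c1.and c2).and (c3.and c4)).and
    (hcht.and (hrow L (by omega) N hN)))
  rintro J hJ F A ⟨⟨⟨d1, d2⟩, d3, d4⟩, ⟨i₁, hch⟩, k, hk, j, p, hp⟩
  obtain ⟨Z, hZ⟩ : ∃ Z, Z = chn σ nx k := ⟨_, rfl⟩
  obtain ⟨L', hL'⟩ : ∃ L', L' = l k := ⟨_, rfl⟩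
  have hZ0 : 0 < Z := by rw [hZ]; exact hck k
  have hNZ : N = 2 * Cs * Z * q Z * L' := by rw [hL', hZ]; exact hl1 k hk
  have hLL' : L ≤ L' := by rw [hL']; exact hl2 k hk
  obtain ⟨r1, r2, r3, r4, r5, r6, r7⟩ := hp Z (σ Z) L' hZ rfl (by rw [hNZ, hσ]; ring)
  have hsL : σ Z * L' = 2 * (Cs * (q Z * L')) := by rw [hσ]; ring
  have hqL : 2 ≤ q Z * L' := by
    have h1 : L' ≤ q Z * L' := Nat.le_mul_of_pos_left _ (hq Z)
    omega
  have hCq : 2 ≤ Cs * (q Z * L') := le_trans hqL (Nat.le_mul_of_pos_left _ hCs)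
  have hpN : p ≤ N := by
    have : (p : ℝ) ≤ N := by
      have : 0 ≤ X * N := by positivity
      linarith only [r2, this]
    exact_mod_cast this
  have r3' : j * (σ Z * L') + Cs * (q Z * L') ≤ p := by
    have e1 : (2 * j + 1) * (σ Z * L') = 2 * (j * (σ Z * L')) + σ Z * L' := by ring
    omega
  refine core (F := F) (A := A) (i₁ := i₁) (N := N) (K := K Z) (Cs := Cs) (E := 2 * Cs * Z)
    (q := q Z) (L := L') (ρ := p) (x := x) (c := c) (ν := ν) (s := s) (X := X) hN0 hJ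
    hqL hCs
    (by rw [hZ]; exact (lev _ (hck k) (hAlk k)).1) hpN (by omega) ?_ (by omega) ?_ r2 ?_ ?_ ?_ ?_
  · -- `q L' ≤ x N`
    have h1 : (1 : ℝ) ≤ x * (2 * Cs * Z : ℕ) := by
      have h2 : Zm ≤ Z := by rw [hZ]; exact (hnx1 1).trans (chn_le hσ0 hnx0 k)
      have h3 : ⌈1 / x⌉₊ ≤ Z := by
        have : ⌈1 / x⌉₊ + 1 ≤ Zm := by rw [hZm]; exact le_max_right _ _
        omega
      have h4 : 1 / x ≤ Z := (Nat.le_ceil _).trans (by exact_mod_cast h3)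
      rw [div_le_iff₀ hx] at h4
      have h5 : (Z : ℝ) ≤ (2 * Cs * Z : ℕ) := by
        have : Z ≤ 2 * Cs * Z := Nat.le_mul_of_pos_left _ (by positivity)
        exact_mod_cast this
      nlinarith only [h4, hx, h5]
    have h2 : (N : ℝ) = (2 * Cs * Z : ℕ) * (q Z * L' : ℕ) := by
      rw [hNZ]; push_cast; ring
    rw [h2]
    have h3 : (0 : ℝ) ≤ ((q Z * L' : ℕ) : ℝ) := Nat.cast_nonneg _
    nlinarith only [h1]
  · -- `(1 - x) N + 1 ≤ p`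
    have h1 : ((j * (σ Z * L') : ℕ) : ℝ) ≤ p := by
      have : j * (σ Z * L') ≤ p := by omega
      exact_mod_cast this
    linarith only [hNx, r1, h1]
  · -- bad blocks
    have h1 := nbad_le (F := F) (A := A) (c := c) (M := 2 * Cs * Z * q Z) (L := L') (s := σ Z)
      (j := j) (p := p - 1) (p₀ := p - Cs * (q Z * L')) (by omega) (by omega)
    have h2 : 2 * Cs * Z * q Z * L' = N := hNZ.symm
    rw [h2] at h1
    have h3 : (nbad F c (2 * Cs * Z * q Z) L' (p - Cs * (q Z * L')) (p - 1) A : ℝ) ≤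
        ν / (2 * Cs) * σ Z := by
      refine le_trans ?_ r7
      exact_mod_cast h1
    refine h3.trans (le_of_eq ?_)
    rw [hσ]
    push_cast
    field_simp
  · intro i h0 h1 h2 h3
    exact d4 (⟨k, hk⟩, i₁, ⟨i, by omega⟩, ⟨p - 1, by omega⟩, ⟨p, by omega⟩)
      ⟨h1, h2, Nat.sub_le _ _⟩ (d1 ⟨k, hk⟩).2 (by rw [← hZ]; exact h3)
  · intro i h1 h2 h3 h4 h5
    have := d2 (⟨k, hk⟩, i₁, ⟨i, by omega⟩, ⟨p, by omega⟩) ⟨by rw [← hZ, ← hL']; exact h1, h2,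
      by rw [← hZ, ← hL']; exact h3, h4⟩ (d1 ⟨k, hk⟩).1 (d1 ⟨k, hk⟩).2 hch r5
      (by rw [← hZ, ← hL']; exact r6 _ (by simp only; omega)) (by rw [← hZ]; exact h5)
    rw [← hZ, ← hL'] at this
    exact this
  · intro i₀ i p₀ p' h1 h2 h3 h4 h4' h5 h6 h7 h8
    have := d3 (⟨k, hk⟩, i₁, ⟨i₀, by omega⟩, ⟨i, by omega⟩, ⟨p₀, by omega⟩, ⟨p', by omega⟩,
      ⟨p, by omega⟩) ⟨by rw [← hZ, ← hL']; exact h1, h2, h3, h4, by rw [← hL']; exact h4',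
      by rw [← hZ]; exact h5, h6⟩ (d1 ⟨k, hk⟩).2 hch r5
      (by rw [← hZ, ← hL']; exact h7) (by rw [← hZ]; exact h8)
    rw [← hZ] at this
    exact this

end Pool.PB
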