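import Pool.Agent.H18.PB.Defs

/-!
# Labels with the bound of the slope at the sample only

`Tb` is `Lab` with the bound of the gradient at the base point only, not on the ball. This
property passes from a ball to a larger ball (with loss of precision), so the thresholds of these
labels are Lipschitz.
-/

set_option autoImplicit false

namespace Pool.PB

open Finset Real MvPolynomial
open Pool.Agent.H49.Ent Pool.Agent.H32.Dense Pool.STK Pool.KA Pool.KSAT Pool.K2S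

variable {m J : ℕ}

/-- `Lab` with the bound of the gradient at the base point only. -/
def Tb (F : Fam m J) (i₁ : Fin m) (r K a w P : ℕ) (A : F.Ω → Prop) : Prop :=
  ∃ (G : (Fin m → ℤ) × (ℕ × F.ζ) → MvPolynomial (Fin m) ℝ)
    (H : ((Fin m → ℝ) × (Fin m → ℝ)) × F.ζ × ℕ → MvPolynomial (Fin m) ℝ),
    (∀ y, (G y).totalDegree ≤ K) ∧ (∀ s, (H s).totalDegree ≤ K) ∧ ∀ ω, A ω →
      |F.x ω i₁ - eval (bp F i₁ ω) (G (ptr F r ω))| ≤ 1 / 2 ^ P ∧
      (∀ j, |eval (bp F i₁ ω) (pderiv j (G (ptr F r ω)))| ≤ 2 * m) ∧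
      ∀ b : Fin m → ℝ, (∀ j, |b j - bp F i₁ ω j| ≤ 1 / 2 ^ a) →
        |eval b (G (ptr F r ω)) - eval b (H (slam F w ω))| ≤ 1 / 2 ^ P

theorem Tb.hered (F : Fam m J) (i₁ : Fin m) (r K a w P : ℕ) : Hered (Tb F i₁ r K a w P) := by
  rintro A B hB ⟨G, H, h1, h2, h3⟩
  exact ⟨G, H, h1, h2, fun ω hω => h3 ω (hB ω hω)⟩

theorem Lab.tb {F : Fam m J} {i₁ : Fin m} {r K a w P : ℕ} {A : F.Ω → Prop}
    (h : Lab F i₁ r K a w P A) : Tb F i₁ r K a w P A := by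
  obtain ⟨G, H, h1, h2, h3⟩ := h
  refine ⟨G, H, h1, h2, fun ω hω => ?_⟩
  obtain ⟨h4, h5⟩ := h3 ω hω
  refine ⟨h4, (h5 _ fun j => ?_).1, fun b hb => (h5 b hb).2⟩
  rw [sub_self, abs_zero]
  positivity

/-- Monotonicity in all parameters. -/
theorem Tb.mono {F : Fam m J} {i₁ : Fin m} {r r' K K' a a' w w' P P' : ℕ} {A : F.Ω → Prop}
    (hr : r ≤ r') (hK : K ≤ K') (ha : a ≤ a') (hw : w ≤ w') (hw' : w' ≤ J) (hP : P' ≤ P)
    (h : Tb F i₁ r K a w P A) : Tb F i₁ r' K' a' w' P' A := by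
  obtain ⟨G, H, h1, h2, h3⟩ := h
  obtain ⟨φ, hφ⟩ := ptr_coarse F hr
  refine ⟨fun y => G (φ y), fun s => H (s.1, s.2.1, s.2.2 / 2 ^ (w' - w)),
    fun y => (h1 _).trans hK, fun s => (h2 _).trans hK, fun ω hω => ?_⟩
  obtain ⟨h4, h5, h6⟩ := h3 ω hω
  rw [hφ ω] at h4 h5 h6
  rw [slam_coarse F hw hw' ω] at h6
  refine ⟨h4.trans (inv_mono hP), h5, fun b hb => ?_⟩
  exact (h6 b fun j => (hb j).trans (inv_mono ha)).trans (inv_mono hP)

/-- The trivial label. -/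
theorem Tb.trivial {F : Fam m J} {i₁ : Fin m} {r K a w P : ℕ} {A : F.Ω → Prop}
    (hP : P + 1 ≤ w) (hPr : P + 1 ≤ r) (hw : w ≤ J) : Tb F i₁ r K a w P A :=
  (Lab.trivial hP hPr hw).tb

end Pool.PB
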